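import Pool.Agent.Lib.MP_b06be4_an.Lim.Iso

/-!
# MP_b06be4_an, existence of the limit: random planes

A random plane `{x | ⟪v, x⟫ = s}` with `v` uniform on the sphere and `s` uniform on `(-1, 1]`
separates two points `x, y` of the unit sphere with probability `‖x - y‖ / 4`.
-/

open MeasureTheory Set Filter Metric
open scoped ENNReal NNReal Topology InnerProductSpace

namespace Pool.Agent.Lib.MP_b06be4_an.Lim

/-- the uniform measure on `(-1, 1]` -/
noncomputable def muU : Measure ℝ := (2 : ℝ≥0∞)⁻¹ • volume.restrict (Ioc (-1 : ℝ) 1)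

instance : IsProbabilityMeasure muU := by
  refine ⟨?_⟩
  rw [muU, Measure.smul_apply, Measure.restrict_apply_univ, Real.volume_Ioc, smul_eq_mul]
  norm_num
  exact ENNReal.inv_mul_cancel (by simp) (by simp)

/-- planes -/
abbrev Pl : Type := E3 × ℝ

noncomputable def muP : Measure Pl := sigma.prod muU

instance : IsProbabilityMeasure muP := by
  unfold muP
  infer_instance

/-- the set of the planes with `x` on the negative side -/
def neg (x : E3) : Set Pl := {π | ⟪π.1, x⟫_ℝ < π.2}

theorem measurableSet_neg (x : E3) : MeasurableSet (neg x) :=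
  measurableSet_lt (by fun_prop) (by fun_prop)

/-- the planes which do not separate `x` and `y` -/
def same (x y : E3) : Set Pl := {π | (π ∈ neg x ↔ π ∈ neg y)}

theorem measurableSet_same (x y : E3) : MeasurableSet (same x y) := by
  have h : same x y = (neg x ∩ neg y) ∪ ((neg x)ᶜ ∩ (neg y)ᶜ) := by
    ext π
    simp only [same, mem_ofPred_eq, mem_union, mem_inter_iff, mem_compl_iff]
    tauto
  rw [h]
  exact ((measurableSet_neg x).inter (measurableSet_neg y)).union
    ((measurableSet_neg x).compl.inter (measurableSet_neg y).compl)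

/-- `E |⟪v, p⟫| = 1 / 2`, radial form -/
theorem lintegral_abs_radial :
    ∫⁻ r in Ioo (0 : ℝ) 2, ENNReal.ofReal (r / 2) * ENNReal.ofReal |1 - r ^ 2 / 2| =
      ENNReal.ofReal (1 / 2) := by
  have h1 : ∀ r ∈ Ioo (0 : ℝ) 2, ENNReal.ofReal (r / 2) * ENNReal.ofReal |1 - r ^ 2 / 2| =
      ENNReal.ofReal (r / 2 * |1 - r ^ 2 / 2|) := by
    intro r hr
    rw [ENNReal.ofReal_mul (by linarith [hr.1])]
  rw [setLIntegral_congr_fun measurableSet_Ioo h1]
  have hc : Continuous (fun r : ℝ => r / 2 * |1 - r ^ 2 / 2|) := by fun_prop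
  rw [← ofReal_integral_eq_lintegral_ofReal]
  · congr 1
    rw [← integral_Ioc_eq_integral_Ioo, ← intervalIntegral.integral_of_le (by norm_num)]
    have hs0 : (0 : ℝ) ≤ Real.sqrt 2 := Real.sqrt_nonneg 2
    have hs2 : Real.sqrt 2 ^ 2 = 2 := Real.sq_sqrt (by norm_num)
    have hs4 : Real.sqrt 2 ^ 4 = 4 := by
      calc Real.sqrt 2 ^ 4 = (Real.sqrt 2 ^ 2) ^ 2 := by ring
        _ = 4 := by rw [hs2]; norm_num
    have hsle : Real.sqrt 2 ≤ 2 := by
      rw [Real.sqrt_le_left (by norm_num)]
      norm_num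
    rw [← intervalIntegral.integral_add_adjacent_intervals (b := Real.sqrt 2)
      (hc.intervalIntegrable _ _) (hc.intervalIntegrable _ _)]
    have e1 : ∫ r in (0 : ℝ)..Real.sqrt 2, r / 2 * |1 - r ^ 2 / 2| = 1 / 4 := by
      have : ∫ r in (0 : ℝ)..Real.sqrt 2, r / 2 * |1 - r ^ 2 / 2| =
          ∫ r in (0 : ℝ)..Real.sqrt 2, r / 2 * (1 - r ^ 2 / 2) := by
        apply intervalIntegral.integral_congr
        intro r hr
        rw [uIcc_of_le hs0] at hr
        have h3 : 0 ≤ 1 - r ^ 2 / 2 := by nlinarith [hr.1, hr.2]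
        beta_reduce
        rw [abs_of_nonneg h3]
      rw [this, intervalIntegral.integral_eq_sub_of_hasDerivAt
        (f := fun r => r ^ 2 / 4 - r ^ 4 / 16)]
      · rw [hs2, hs4]
        norm_num
      · intro x _
        have : HasDerivAt (fun r : ℝ => r ^ 2 / 4 - r ^ 4 / 16) _ x :=
          ((hasDerivAt_pow 2 x).div_const 4).sub ((hasDerivAt_pow 4 x).div_const 16)
        refine this.congr_deriv ?_
        norm_num
        ring
      · exact (by fun_prop : Continuous fun r : ℝ => r / 2 * (1 - r ^ 2 / 2)).intervalIntegrable _ _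
    have e2 : ∫ r in Real.sqrt 2..(2 : ℝ), r / 2 * |1 - r ^ 2 / 2| = 1 / 4 := by
      have : ∫ r in Real.sqrt 2..(2 : ℝ), r / 2 * |1 - r ^ 2 / 2| =
          ∫ r in Real.sqrt 2..(2 : ℝ), r / 2 * (-(1 - r ^ 2 / 2)) := by
        apply intervalIntegral.integral_congr
        intro r hr
        rw [uIcc_of_le hsle] at hr
        have h3 : 1 - r ^ 2 / 2 ≤ 0 := by nlinarith [hr.1, hr.2]
        beta_reduce
        rw [abs_of_nonpos h3]
      rw [this, intervalIntegral.integral_eq_sub_of_hasDerivAt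
        (f := fun r => r ^ 4 / 16 - r ^ 2 / 4)]
      · rw [hs2, hs4]
        norm_num
      · intro x _
        have : HasDerivAt (fun r : ℝ => r ^ 4 / 16 - r ^ 2 / 4) _ x :=
          ((hasDerivAt_pow 4 x).div_const 16).sub ((hasDerivAt_pow 2 x).div_const 4)
        refine this.congr_deriv ?_
        norm_num
        ring
      · exact (by fun_prop : Continuous fun r : ℝ =>
          r / 2 * (-(1 - r ^ 2 / 2))).intervalIntegrable _ _
    rw [e1, e2]
    norm_num
  · exact (hc.continuousOn.integrableOn_compact isCompact_Icc).mono_set Ioo_subset_Icc_self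
  · rw [EventuallyLE, ae_restrict_iff' measurableSet_Ioo]
    refine Eventually.of_forall fun s hs => ?_
    have := hs.1
    simp only [Pi.zero_apply]
    positivity

theorem lintegral_abs_inner (w : E3) :
    ∫⁻ v, ENNReal.ofReal |⟪v, w⟫_ℝ| ∂sigma = ENNReal.ofReal (‖w‖ / 2) := by
  by_cases hw : w = 0
  · simp [hw]
  set p : E3 := nrm w with hp
  have hp1 : ‖p‖ = 1 := norm_nrm hw
  have hwp : w = ‖w‖ • p := by
    rw [hp, nrm, smul_smul, mul_inv_cancel₀ (norm_ne_zero_iff.2 hw), one_smul]
  have h1 : ∫⁻ v, ENNReal.ofReal |⟪v, w⟫_ℝ| ∂sigma =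
      ∫⁻ v, ENNReal.ofReal ‖w‖ * ENNReal.ofReal |1 - ‖v - p‖ ^ 2 / 2| ∂sigma := by
    apply lintegral_congr_ae
    filter_upwards [sigma_ae_norm] with v hv
    have h2 : ⟪v, p⟫_ℝ = 1 - ‖v - p‖ ^ 2 / 2 := by
      rw [norm_sub_sq_real, hv, hp1]
      ring
    rw [hwp, inner_smul_right, h2, abs_mul, abs_norm, ENNReal.ofReal_mul (norm_nonneg _), ← hwp]
  rw [h1, lintegral_const_mul _ (by fun_prop),
    lintegral_sigma_radial (f := fun r => ENNReal.ofReal |1 - r ^ 2 / 2|) (by fun_prop) hp1,
    lintegral_abs_radial, ← ENNReal.ofReal_mul (norm_nonneg _)]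
  congr 1
  ring

/-- measure of the offsets which separate -/
theorem muU_Ioc {a b : ℝ} (ha : -1 ≤ a) (hb : b ≤ 1) :
    muU (Ioc a b) = ENNReal.ofReal ((b - a) / 2) := by
  rw [muU, Measure.smul_apply, Measure.restrict_apply measurableSet_Ioc,
    inter_eq_left.2 (Ioc_subset_Ioc ha hb), Real.volume_Ioc, smul_eq_mul, div_eq_inv_mul,
    ENNReal.ofReal_mul (by norm_num), ENNReal.ofReal_inv_of_pos (by norm_num)]
  simp

/-- The separation probability. -/
theorem muP_compl_same {x y : E3} (hx : ‖x‖ = 1) (hy : ‖y‖ = 1) :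
    muP (same x y)ᶜ = ENNReal.ofReal (‖x - y‖ / 4) := by
  rw [muP, Measure.prod_apply (measurableSet_same x y).compl]
  have h1 : ∫⁻ v, muU (Prod.mk v ⁻¹' (same x y)ᶜ) ∂sigma =
      ∫⁻ v, ENNReal.ofReal (1 / 2) * ENNReal.ofReal |⟪v, x - y⟫_ℝ| ∂sigma := by
    apply lintegral_congr_ae
    filter_upwards [sigma_ae_norm] with v hv
    have hax : |⟪v, x⟫_ℝ| ≤ 1 := by
      have := abs_real_inner_le_norm v x
      rwa [hv, hx, one_mul] at this
    have hay : |⟪v, y⟫_ℝ| ≤ 1 := by
      have := abs_real_inner_le_norm v y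
      rwa [hv, hy, one_mul] at this
    rw [abs_le] at hax hay
    rw [← ENNReal.ofReal_mul (by norm_num), inner_sub_right]
    rcases le_total ⟪v, x⟫_ℝ ⟪v, y⟫_ℝ with h | h
    · have hset : Prod.mk v ⁻¹' (same x y)ᶜ = Ioc ⟪v, x⟫_ℝ ⟪v, y⟫_ℝ := by
        ext s
        simp only [same, neg, mem_preimage, mem_compl_iff, mem_ofPred_eq, mem_Ioc]
        constructor
        · intro h2
          by_contra h3
          apply h2
          constructor
          · intro h4
            by_contra h5
            exact h3 ⟨h4, not_lt.1 h5⟩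
          · intro h4
            exact lt_of_le_of_lt h h4
        · rintro ⟨h2, h3⟩ h4
          exact absurd (h4.1 h2) (not_lt.2 h3)
      rw [hset, muU_Ioc hax.1 hay.2, abs_sub_comm, abs_of_nonneg (by linarith)]
      congr 1
      ring
    · have hset : Prod.mk v ⁻¹' (same x y)ᶜ = Ioc ⟪v, y⟫_ℝ ⟪v, x⟫_ℝ := by
        ext s
        simp only [same, neg, mem_preimage, mem_compl_iff, mem_ofPred_eq, mem_Ioc]
        constructor
        · intro h2
          by_contra h3
          apply h2
          constructor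
          · intro h4
            exact lt_of_le_of_lt h h4
          · intro h4
            by_contra h5
            exact h3 ⟨h4, not_lt.1 h5⟩
        · rintro ⟨h2, h3⟩ h4
          exact absurd (h4.2 h2) (not_lt.2 h3)
      rw [hset, muU_Ioc hay.1 hax.2, abs_of_nonneg (by linarith)]
      congr 1
      ring
  rw [h1, lintegral_const_mul _ (by fun_prop), lintegral_abs_inner,
    ← ENNReal.ofReal_mul (by norm_num)]
  congr 1
  ring

/-- The probability that a random plane does not separate. -/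
noncomputable def tt (x y : E3) : ℝ := 1 - ‖x - y‖ / 4

theorem tt_comm (x y : E3) : tt x y = tt y x := by
  rw [tt, tt, norm_sub_rev]

theorem tt_mem {x y : E3} (hx : ‖x‖ = 1) (hy : ‖y‖ = 1) : 1 / 2 ≤ tt x y ∧ tt x y ≤ 1 := by
  have h1 := norm_sub_le x y
  have h2 := norm_nonneg (x - y)
  rw [hx, hy] at h1
  rw [tt]
  constructor <;> linarith

theorem muP_same {x y : E3} (hx : ‖x‖ = 1) (hy : ‖y‖ = 1) :
    muP (same x y) = ENNReal.ofReal (tt x y) := by
  have h1 := prob_compl_eq_one_sub (μ := muP) (measurableSet_same x y).compl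
  rw [compl_compl, muP_compl_same hx hy] at h1
  rw [h1, tt, ENNReal.ofReal_sub _ (by positivity)]
  simp

/-- `K` independent planes. -/
noncomputable def muPK (K : ℕ) : Measure (Fin K → Pl) := Measure.pi fun _ => muP

instance (K : ℕ) : IsProbabilityMeasure (muPK K) := by
  unfold muPK
  infer_instance

/-- none of the planes separates -/
def sameK {K : ℕ} (x y : E3) : Set (Fin K → Pl) := {π | ∀ i, π i ∈ same x y}

theorem muPK_same (K : ℕ) {x y : E3} (hx : ‖x‖ = 1) (hy : ‖y‖ = 1) :
    muPK K (sameK x y) = ENNReal.ofReal (tt x y ^ K) := by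
  have h1 : (sameK x y : Set (Fin K → Pl)) = Set.pi univ fun _ => same x y := by
    ext π
    simp [sameK]
  have h2 := tt_mem hx hy
  rw [h1, muPK, Measure.pi_pi]
  simp only [Finset.prod_const, Finset.card_univ, Fintype.card_fin]
  rw [muP_same hx hy, ENNReal.ofReal_pow (by linarith)]

end Pool.Agent.Lib.MP_b06be4_an.Lim
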