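import Pool.Agent.Lib.MP_b06be4_an.Lim.PatchN
import Pool.Agent.Lib.MP_b06be4_an.Lim.Plane

/-!
# MP_b06be4_an, existence of the limit: averages over the random planes
-/

open MeasureTheory Set Filter Metric
open scoped ENNReal NNReal Topology InnerProductSpace

namespace Pool.Agent.Lib.MP_b06be4_an.Lim

open Classical in
/-- The sides of a point with respect to the planes. -/
noncomputable def sd {K : ℕ} (π : Fin K → Pl) (y : E3) : Fin K → Bool :=
  fun i => decide (π i ∈ neg y)

theorem sd_eq_iff {K : ℕ} {π : Fin K → Pl} {y z : E3} : sd π y = sd π z ↔ π ∈ sameK y z := by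
  constructor
  · intro h i
    have h1 := congrFun h i
    simp only [sd, decide_eq_decide] at h1
    exact h1
  · intro h
    funext i
    have h1 : (π i ∈ neg y ↔ π i ∈ neg z) := h i
    simp only [sd]
    exact decide_eq_decide.2 h1

theorem measurable_sd_comp {K : ℕ} {α : Type} [MeasurableSpace α] {f : α → E3}
    (hf : Measurable f) : Measurable (fun q : (Fin K → Pl) × α => sd q.1 (f q.2)) := by
  apply measurable_pi_lambda
  intro i
  apply measurable_to_bool
  have h : (fun q : (Fin K → Pl) × α => sd q.1 (f q.2) i) ⁻¹' {true} =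
      {q | ⟪(q.1 i).1, f q.2⟫_ℝ < (q.1 i).2} := by
    ext q
    simp only [mem_preimage, mem_singleton_iff, sd, mem_ofPred_eq]
    exact @decide_eq_true_iff _ (Classical.propDecidable _)
  rw [h]
  have h1 : Measurable fun q : (Fin K → Pl) × α => (q.1 i).1 :=
    measurable_fst.comp ((measurable_pi_apply i).comp measurable_fst)
  have h2 : Measurable fun q : (Fin K → Pl) × α => (q.1 i).2 :=
    measurable_snd.comp ((measurable_pi_apply i).comp measurable_fst)
  have h3 : Measurable fun q : (Fin K → Pl) × α => f q.2 := hf.comp measurable_snd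
  exact measurableSet_lt (h1.inner h3) h2

theorem measurable_sd {K : ℕ} (π : Fin K → Pl) : Measurable (sd π) := by
  have h := (measurable_sd_comp (K := K) (measurable_id : Measurable (id : E3 → E3))).comp
    (measurable_const.prodMk measurable_id : Measurable fun y : E3 => (π, y))
  exact h

/-- comparison of the separation probabilities -/
theorem pow_compare {a' r r' δ : ℝ} {k K : ℕ} (hr0 : 0 ≤ r) (hδ1 : δ ≤ 1 / 2)
    (hr : r ≤ 2 * δ) (hr' : a' * r ≤ r') (hr'2 : r' ≤ 2) (hK : k * (1 + δ) ≤ K * a') :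
    (1 - r' / 4) ^ K ≤ (1 - r / 4) ^ k := by
  have hδ0 : 0 ≤ δ := by linarith
  have h1 : (1 - r' / 4) ^ K ≤ Real.exp (-(a' * r / 4)) ^ K := by
    apply pow_le_pow_left₀ (by linarith)
    have := Real.add_one_le_exp (-(a' * r / 4))
    linarith
  have h2 : Real.exp (-((1 + δ) * r / 4)) ≤ 1 - r / 4 := by
    have h3 : 0 < 1 - r / 4 := by linarith
    have h4 := Real.add_one_le_exp ((1 + δ) * r / 4)
    rw [Real.exp_neg, inv_le_comm₀ (Real.exp_pos _) h3]
    refine le_trans ?_ h4
    rw [inv_le_iff_one_le_mul₀ h3]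
    nlinarith [mul_nonneg hr0 hδ0, mul_nonneg hr0 hr0, mul_nonneg (mul_nonneg hr0 hr0) hδ0]
  calc (1 - r' / 4) ^ K ≤ Real.exp (-(a' * r / 4)) ^ K := h1
    _ = Real.exp (-(K * a' * r / 4)) := by
        rw [← Real.exp_nat_mul]
        congr 1
        ring
    _ ≤ Real.exp (-(k * (1 + δ) * r / 4)) := by
        apply Real.exp_le_exp.2
        have := mul_le_mul_of_nonneg_right hK hr0
        linarith
    _ = Real.exp (-((1 + δ) * r / 4)) ^ k := by
        rw [← Real.exp_nat_mul]
        congr 1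
        ring
    _ ≤ (1 - r / 4) ^ k := pow_le_pow_left₀ (Real.exp_pos _).le h2 k

section

variable {M : ℕ} (x : Fin M → E3) (a δ : ℝ) {ι : Type} (Lg : E3 → ι) (U : ι → E3 ≃ₗᵢ[ℝ] E3)
  {K : ℕ}

/-- The combined label. -/
noncomputable def LL (π : Fin K → Pl) (y : E3) : ι × (Fin K → Bool) := (Lg y, sd π y)

theorem ok_LL (π : Fin K → Pl) (l : ι) (σ : Fin K → Bool) (i : Fin M) :
    ok x a δ (LL Lg π) (fun s => U s.1) (l, σ) i =
      ok x a δ Lg U l i ∩ (fun θ => sd π (pt x a U l i θ)) ⁻¹' {σ} := by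
  ext θ
  simp only [ok, LL, pt, mem_ofPred_eq, Prod.mk.injEq, mem_inter_iff, mem_preimage,
    mem_singleton_iff]
  tauto

variable [MeasurableSpace ι] [MeasurableSingletonClass ι]

omit [MeasurableSingletonClass ι] in
theorem measurable_LL (hL : Measurable Lg) (π : Fin K → Pl) : Measurable (LL Lg π) :=
  hL.prodMk (measurable_sd π)

omit [MeasurableSpace ι] [MeasurableSingletonClass ι] in
theorem sum_ok_LL (π : Fin K → Pl) (l : ι) (i j : Fin M) :
    ∑ σ, muT (ok x a δ (LL Lg π) (fun s => U s.1) (l, σ) i ∩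
      ok x a δ (LL Lg π) (fun s => U s.1) (l, σ) j) ≤
    muT ((ok x a δ Lg U l i ∩ ok x a δ Lg U l j) ∩
      {θ | sd π (pt x a U l i θ) = sd π (pt x a U l j θ)}) := by
  set B : Set Tri := (ok x a δ Lg U l i ∩ ok x a δ Lg U l j) ∩
      {θ | sd π (pt x a U l i θ) = sd π (pt x a U l j θ)} with hB
  have hf : Measurable fun θ => sd π (pt x a U l i θ) :=
    (measurable_sd π).comp (measurable_pt x a U l i)
  calc ∑ σ, muT (ok x a δ (LL Lg π) (fun s => U s.1) (l, σ) i ∩
      ok x a δ (LL Lg π) (fun s => U s.1) (l, σ) j)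
      ≤ ∑ σ, (muT.restrict B) ((fun θ => sd π (pt x a U l i θ)) ⁻¹' {σ}) := by
        apply Finset.sum_le_sum
        intro σ _
        rw [Measure.restrict_apply (hf (measurableSet_singleton σ))]
        apply measure_mono
        rw [ok_LL, ok_LL]
        rintro θ ⟨⟨h1, h2⟩, ⟨h3, h4⟩⟩
        have h2' : sd π (pt x a U l i θ) = σ := h2
        have h4' : sd π (pt x a U l j θ) = σ := h4
        exact ⟨h2, ⟨h1, h3⟩, show sd π (pt x a U l i θ) = sd π (pt x a U l j θ) by rw [h2', h4']⟩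
    _ = (muT.restrict B) univ := by
        rw [sum_measure_preimage_singleton _ fun σ _ => hf (measurableSet_singleton σ)]
        simp
    _ = muT B := by rw [Measure.restrict_apply_univ]

theorem self_avg_l (hx : ∀ i, ‖x i‖ = 1) (ha0 : 0 < a) (ha1 : a ≤ 1) (hδ0 : 0 < δ)
    (hδ1 : δ ≤ 1 / 2) (hL : Measurable Lg) {k : ℕ}
    (hK : k * (1 + δ) ≤ K * (Real.sqrt (1 - 2 * δ ^ 2) * a)) (l : ι) (i j : Fin M) :
    ∫⁻ π, muT ((ok x a δ Lg U l i ∩ ok x a δ Lg U l j) ∩
      {θ | sd π (pt x a U l i θ) = sd π (pt x a U l j θ)}) ∂(muPK K) ≤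
      ENNReal.ofReal (tt (x i) (x j) ^ k) * muT (ok x a δ Lg U l i) := by
  have hmi := measurableSet_ok x a δ Lg U hL l i
  have hmj := measurableSet_ok x a δ Lg U hL l j
  set J : Set ((Fin K → Pl) × Tri) := {q | q.2 ∈ ok x a δ Lg U l i ∩ ok x a δ Lg U l j} ∩
    {q | sd q.1 (pt x a U l i q.2) = sd q.1 (pt x a U l j q.2)} with hJ
  have hJm : MeasurableSet J := by
    apply MeasurableSet.inter
    · exact measurable_snd (hmi.inter hmj)
    · exact measurableSet_eq_fun (measurable_sd_comp (measurable_pt x a U l i))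
        (measurable_sd_comp (measurable_pt x a U l j))
  have h1 : ∫⁻ π, muT ((ok x a δ Lg U l i ∩ ok x a δ Lg U l j) ∩
      {θ | sd π (pt x a U l i θ) = sd π (pt x a U l j θ)}) ∂(muPK K) = ((muPK K).prod muT) J := by
    rw [Measure.prod_apply hJm]
    rfl
  rw [h1, Measure.prod_apply_symm hJm]
  calc ∫⁻ θ, (muPK K) ((fun π => (π, θ)) ⁻¹' J) ∂muT
      ≤ ∫⁻ θ, ENNReal.ofReal (tt (x i) (x j) ^ k) *
          (ok x a δ Lg U l i).indicator 1 θ ∂muT := by
        apply lintegral_mono_ae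
        filter_upwards [ae_good] with θ hθ
        by_cases h2 : θ ∈ ok x a δ Lg U l i ∩ ok x a δ Lg U l j
        · rw [indicator_of_mem h2.1, Pi.one_apply, mul_one]
          have n1 : ‖pt x a U l i θ‖ = 1 := pt_norm x a δ Lg U hx ha0 ha1 hδ1 hθ h2.1
          have n2 : ‖pt x a U l j θ‖ = 1 := pt_norm x a δ Lg U hx ha0 ha1 hδ1 hθ h2.2
          have h3 : (fun π => (π, θ)) ⁻¹' J = sameK (pt x a U l i θ) (pt x a U l j θ) := by
            ext π
            simp only [hJ, mem_preimage, mem_inter_iff, mem_ofPred_eq]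
            rw [sd_eq_iff]
            exact ⟨fun h => h.2, fun h => ⟨⟨h2.1, h2.2⟩, h⟩⟩
          rw [h3, muPK_same K n1 n2]
          apply ENNReal.ofReal_le_ofReal
          have h4 := pt_dist x a δ Lg U hx ha0 ha1 hδ0 hδ1 hθ h2.1 h2.2
          have hs : 0 ≤ 1 - 2 * δ ^ 2 := by nlinarith
          have h5 : (Real.sqrt (1 - 2 * δ ^ 2) * a) * ‖x i - x j‖ ≤
              ‖pt x a U l i θ - pt x a U l j θ‖ := by
            apply le_of_sq_le_sq _ (norm_nonneg _)
            rw [mul_pow, mul_pow, Real.sq_sqrt hs]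
            exact h4
          have h6 : ‖x i - x j‖ ≤ 2 * δ := by
            obtain ⟨V, hV⟩ := exists_of_good hθ
            have h7 : ‖gg θ (x i) - gg θ (x j)‖ = ‖x i - x j‖ := by
              rw [hV, hV, ← map_sub, LinearIsometryEquiv.norm_map]
            rw [← h7]
            have h8 : gg θ (x i) - gg θ (x j) = (gg θ (x i) - e3) - (gg θ (x j) - e3) := by abel
            rw [h8]
            have h9 := norm_sub_le (gg θ (x i) - e3) (gg θ (x j) - e3)
            have h10 := h2.1.1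
            have h11 := h2.2.1
            linarith
          have h7 : ‖pt x a U l i θ - pt x a U l j θ‖ ≤ 2 := by
            have := norm_sub_le (pt x a U l i θ) (pt x a U l j θ)
            rw [n1, n2] at this
            linarith
          exact pow_compare (norm_nonneg _) hδ1 h6 h5 h7 hK
        · have h3 : (fun π : Fin K → Pl => (π, θ)) ⁻¹' J = ∅ := by
            ext π
            simp only [hJ, mem_preimage, mem_inter_iff, mem_ofPred_eq, mem_empty_iff_false,
              iff_false]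
            exact fun h => h2 ⟨h.1.1, h.1.2⟩
          rw [h3, measure_empty]
          exact bot_le
    _ = _ := by
        rw [lintegral_const_mul _ (measurable_one.indicator hmi), lintegral_indicator_one hmi]

variable [Fintype ι]

/-- average of the self interaction over the planes -/
theorem self_avg (hx : ∀ i, ‖x i‖ = 1) (ha0 : 0 < a) (ha1 : a ≤ 1) (hδ0 : 0 < δ)
    (hδ1 : δ ≤ 1 / 2) (hL : Measurable Lg) (hU : ∀ y, ‖y‖ = 1 → ‖y - U (Lg y) e3‖ < a * δ)
    {k : ℕ} (hK : k * (1 + δ) ≤ K * (Real.sqrt (1 - 2 * δ ^ 2) * a)) (i j : Fin M) :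
    ∫⁻ π, ∑ s, muT (ok x a δ (LL Lg π) (fun s => U s.1) s i ∩
      ok x a δ (LL Lg π) (fun s => U s.1) s j) ∂(muPK K) ≤
      ENNReal.ofReal (tt (x i) (x j) ^ k) * ENNReal.ofReal ((a ^ 2)⁻¹) := by
  have hmi : ∀ l, MeasurableSet (ok x a δ Lg U l i) := fun l => measurableSet_ok x a δ Lg U hL l i
  have hmj : ∀ l, MeasurableSet (ok x a δ Lg U l j) := fun l => measurableSet_ok x a δ Lg U hL l j
  have hm : ∀ l, Measurable fun π : Fin K → Pl =>
      muT ((ok x a δ Lg U l i ∩ ok x a δ Lg U l j) ∩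
      {θ | sd π (pt x a U l i θ) = sd π (pt x a U l j θ)}) := by
    intro l
    have hJm : MeasurableSet ({q : (Fin K → Pl) × Tri |
        q.2 ∈ ok x a δ Lg U l i ∩ ok x a δ Lg U l j} ∩
        {q | sd q.1 (pt x a U l i q.2) = sd q.1 (pt x a U l j q.2)}) := by
      apply MeasurableSet.inter
      · exact measurable_snd ((hmi l).inter (hmj l))
      · exact measurableSet_eq_fun (measurable_sd_comp (measurable_pt x a U l i))
          (measurable_sd_comp (measurable_pt x a U l j))
    exact measurable_measure_prodMk_left hJm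
  calc ∫⁻ π, ∑ s, muT (ok x a δ (LL Lg π) (fun s => U s.1) s i ∩
      ok x a δ (LL Lg π) (fun s => U s.1) s j) ∂(muPK K)
      ≤ ∫⁻ π, ∑ l, muT ((ok x a δ Lg U l i ∩ ok x a δ Lg U l j) ∩
      {θ | sd π (pt x a U l i θ) = sd π (pt x a U l j θ)}) ∂(muPK K) := by
        apply lintegral_mono
        intro π
        beta_reduce
        rw [Fintype.sum_prod_type]
        exact Finset.sum_le_sum fun l _ => sum_ok_LL x a δ Lg U π l i j
    _ = ∑ l, ∫⁻ π, muT ((ok x a δ Lg U l i ∩ ok x a δ Lg U l j) ∩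
      {θ | sd π (pt x a U l i θ) = sd π (pt x a U l j θ)}) ∂(muPK K) := by
        rw [lintegral_finsetSum _ fun l _ => hm l]
    _ ≤ ∑ l, ENNReal.ofReal (tt (x i) (x j) ^ k) * muT (ok x a δ Lg U l i) :=
        Finset.sum_le_sum fun l _ => self_avg_l x a δ Lg U hx ha0 ha1 hδ0 hδ1 hL hK l i j
    _ = _ := by
        have h1 : ∀ l, muT (ok x a δ Lg U l i) =
            ENNReal.ofReal ((a ^ 2)⁻¹) * sigma (Lg ⁻¹' {l}) := fun l =>
          muT_ok x a δ Lg U hx ha0 ha1 hδ0 hδ1 hL hU l i
        simp_rw [h1]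
        rw [← Finset.mul_sum, ← Finset.mul_sum,
          sum_measure_preimage_singleton _ fun s _ => hL (measurableSet_singleton s)]
        simp

/-- average of the cross interaction over the planes -/
theorem cross_avg (hL : Measurable Lg) :
    ∫⁻ π, ∫⁻ p, {p : E3 × E3 | LL Lg π p.1 ≠ LL Lg π p.2}.indicator (fun p => WW p.1 p.2) p
          ∂(sigma.prod sigma) ∂(muPK K) ≤
      ∫⁻ p, ENNReal.ofReal (1 - tt p.1 p.2 ^ K) * WW p.1 p.2 ∂(sigma.prod sigma) +
      ∫⁻ p, {p : E3 × E3 | Lg p.1 ≠ Lg p.2}.indicator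
        (fun p => ENNReal.ofReal (tt p.1 p.2 ^ K) * WW p.1 p.2) p ∂(sigma.prod sigma) := by
  have hW : Measurable fun p : E3 × E3 => WW p.1 p.2 := measurable_WW
  have ht : Measurable fun p : E3 × E3 => tt p.1 p.2 := by
    unfold tt
    fun_prop
  have hset : MeasurableSet {q : (Fin K → Pl) × E3 × E3 | LL Lg q.1 q.2.1 ≠ LL Lg q.1 q.2.2} := by
    have h1 : Measurable fun q : (Fin K → Pl) × E3 × E3 => LL Lg q.1 q.2.1 :=
      (hL.comp (measurable_fst.comp measurable_snd)).prodMk (measurable_sd_comp measurable_fst)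
    have h2 : Measurable fun q : (Fin K → Pl) × E3 × E3 => LL Lg q.1 q.2.2 :=
      (hL.comp (measurable_snd.comp measurable_snd)).prodMk (measurable_sd_comp measurable_snd)
    exact (measurableSet_eq_fun h1 h2).compl
  have hjoint : Measurable fun q : (Fin K → Pl) × E3 × E3 =>
      {q : (Fin K → Pl) × E3 × E3 | LL Lg q.1 q.2.1 ≠ LL Lg q.1 q.2.2}.indicator
        (fun q => WW q.2.1 q.2.2) q :=
    (hW.comp measurable_snd).indicator hset
  rw [lintegral_lintegral_swap]
  swap
  · exact hjoint.aemeasurable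
  have hm0 : Measurable fun p : E3 × E3 => ENNReal.ofReal (1 - tt p.1 p.2 ^ K) * WW p.1 p.2 :=
    (ENNReal.measurable_ofReal.comp (measurable_const.sub (ht.pow_const K))).mul hW
  rw [← lintegral_add_left hm0]
  apply lintegral_mono_ae
  have hae : ∀ᵐ p : E3 × E3 ∂(sigma.prod sigma), ‖p.1‖ = 1 ∧ ‖p.2‖ = 1 := by
    have h1 : ∀ᵐ p : E3 × E3 ∂(sigma.prod sigma), ‖p.1‖ = 1 :=
      Measure.quasiMeasurePreserving_fst.ae sigma_ae_norm
    have h2 : ∀ᵐ p : E3 × E3 ∂(sigma.prod sigma), ‖p.2‖ = 1 :=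
      Measure.quasiMeasurePreserving_snd.ae sigma_ae_norm
    filter_upwards [h1, h2] with p hp1 hp2 using ⟨hp1, hp2⟩
  filter_upwards [hae] with p hp
  obtain ⟨n1, n2⟩ := hp
  have hsame : MeasurableSet (sameK p.1 p.2 : Set (Fin K → Pl)) := by
    have h1 : (sameK p.1 p.2 : Set (Fin K → Pl)) = ⋂ i, (fun π => π i) ⁻¹' same p.1 p.2 := by
      ext π
      simp [sameK]
    rw [h1]
    exact MeasurableSet.iInter fun i => (measurable_pi_apply i) (measurableSet_same _ _)
  have hcompl : muPK K (sameK p.1 p.2)ᶜ = ENNReal.ofReal (1 - tt p.1 p.2 ^ K) := by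
    have h2 := tt_mem n1 n2
    rw [prob_compl_eq_one_sub hsame, muPK_same K n1 n2, ENNReal.ofReal_sub _ (by
      have : 0 ≤ tt p.1 p.2 := by linarith
      positivity)]
    simp
  have h1 : ∀ π : Fin K → Pl,
      {p : E3 × E3 | LL Lg π p.1 ≠ LL Lg π p.2}.indicator (fun p => WW p.1 p.2) p ≤
      (sameK p.1 p.2)ᶜ.indicator (fun _ => WW p.1 p.2) π +
      (sameK p.1 p.2).indicator (fun _ => {p : E3 × E3 | Lg p.1 ≠ Lg p.2}.indicator
        (fun p => WW p.1 p.2) p) π := by
    intro π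
    by_cases h2 : LL Lg π p.1 ≠ LL Lg π p.2
    · rw [indicator_of_mem (show p ∈ {p : E3 × E3 | LL Lg π p.1 ≠ LL Lg π p.2} from h2)]
      by_cases h3 : π ∈ sameK p.1 p.2
      · have h4 : Lg p.1 ≠ Lg p.2 := by
          intro h5
          apply h2
          rw [LL, LL, h5, sd_eq_iff.2 h3]
        rw [indicator_of_mem h3, indicator_of_mem (show p ∈ {p : E3 × E3 | Lg p.1 ≠ Lg p.2} from h4)]
        exact le_add_self
      · rw [indicator_of_mem (show π ∈ (sameK p.1 p.2)ᶜ from h3)]
        exact le_self_add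
    · rw [indicator_of_notMem (show p ∉ {p : E3 × E3 | LL Lg π p.1 ≠ LL Lg π p.2} from h2)]
      exact bot_le
  refine (lintegral_mono h1).trans ?_
  rw [lintegral_add_left (measurable_const.indicator hsame.compl),
    lintegral_indicator_const hsame.compl, lintegral_indicator_const hsame, hcompl,
    muPK_same K n1 n2, mul_comm (WW p.1 p.2)]
  gcongr
  by_cases h3 : Lg p.1 ≠ Lg p.2
  · rw [indicator_of_mem (show p ∈ {p : E3 × E3 | Lg p.1 ≠ Lg p.2} from h3),
      indicator_of_mem (show p ∈ {p : E3 × E3 | Lg p.1 ≠ Lg p.2} from h3), mul_comm]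
  · rw [indicator_of_notMem (show p ∉ {p : E3 × E3 | Lg p.1 ≠ Lg p.2} from h3), zero_mul]
    exact bot_le

end

end Pool.Agent.Lib.MP_b06be4_an.Lim
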