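import Pool.Agent.Lib.MP_b06be4_an.Lim.Radial

/-!
# MP_b06be4_an, existence of the limit: the scaling map in Lambert coordinates

`beta a` is the map of a neighbourhood of the north pole of the sphere to the sphere which is
the homothety of ratio `a` in Lambert coordinates.  It scales `sigma` by `a ^ 2` and is almost a
similarity near the pole.
-/

open MeasureTheory Set Filter Metric
open scoped ENNReal NNReal Topology

namespace Pool.Agent.Lib.MP_b06be4_an.Lim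

/-- Lambert coordinates. -/
noncomputable def lamInv (y : E3) : E2 :=
  (Real.sqrt ((1 + y 2) / 2))⁻¹ • !₂[y 0, y 1]

theorem measurable_lamInv : Measurable lamInv := by
  unfold lamInv
  fun_prop

theorem lamInv_lam {l : E2} (hl : ‖l‖ < 2) : lamInv (lam l) = l := by
  have h0 : 0 < 1 - ‖l‖ ^ 2 / 4 := by nlinarith [norm_nonneg l]
  have h1 : (1 + lam l 2) / 2 = 1 - ‖l‖ ^ 2 / 4 := by
    rw [lam_two]; ring
  have h2 : 0 < Real.sqrt (1 - ‖l‖ ^ 2 / 4) := Real.sqrt_pos.2 h0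
  rw [lamInv, h1]
  ext i
  fin_cases i
  · change (Real.sqrt (1 - ‖l‖ ^ 2 / 4))⁻¹ * lam l 0 = l 0
    rw [lam_zero, inv_mul_cancel_left₀ h2.ne']
  · change (Real.sqrt (1 - ‖l‖ ^ 2 / 4))⁻¹ * lam l 1 = l 1
    rw [lam_one, inv_mul_cancel_left₀ h2.ne']

theorem norm_lamInv_sq {y : E3} (hy : ‖y‖ = 1) (hy2 : -1 < y 2) :
    ‖lamInv y‖ ^ 2 = 2 * (1 - y 2) := by
  have h1 : 0 < (1 + y 2) / 2 := by linarith
  have h2 := norm_sq_E3 y
  rw [hy] at h2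
  rw [lamInv, norm_smul, mul_pow, norm_inv, inv_pow, Real.norm_of_nonneg (Real.sqrt_nonneg _),
    Real.sq_sqrt h1.le, norm_sq_E2]
  change _ * (y 0 ^ 2 + y 1 ^ 2) = _
  rw [inv_mul_eq_div, div_eq_iff h1.ne']
  nlinarith

theorem lam_lamInv {y : E3} (hy : ‖y‖ = 1) (hy2 : -1 < y 2) : lam (lamInv y) = y := by
  have h1 : 0 < (1 + y 2) / 2 := by linarith
  have h2 := norm_lamInv_sq hy hy2
  have h3 : 1 - ‖lamInv y‖ ^ 2 / 4 = (1 + y 2) / 2 := by rw [h2]; ring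
  have h4 : 0 < Real.sqrt ((1 + y 2) / 2) := Real.sqrt_pos.2 h1
  ext i
  fin_cases i
  · change lam (lamInv y) 0 = y 0
    rw [lam_zero, h3]
    change _ * ((Real.sqrt ((1 + y 2) / 2))⁻¹ * y 0) = y 0
    field_simp
  · change lam (lamInv y) 1 = y 1
    rw [lam_one, h3]
    change _ * ((Real.sqrt ((1 + y 2) / 2))⁻¹ * y 1) = y 1
    field_simp
  · change lam (lamInv y) 2 = y 2
    rw [lam_two, h2]
    ring

theorem norm_sub_e3_sq {y : E3} (hy : ‖y‖ = 1) : ‖y - e3‖ ^ 2 = 2 * (1 - y 2) := by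
  have h2 := norm_sq_E3 y
  rw [hy] at h2
  rw [norm_sq_E3]
  have e0 : (y - e3) 0 = y 0 := by simp [e3]
  have e1 : (y - e3) 1 = y 1 := by simp [e3]
  have e2 : (y - e3) 2 = y 2 - 1 := by simp [e3]
  rw [e0, e1, e2]
  nlinarith

/-- The homothety in Lambert coordinates. -/
noncomputable def beta (a : ℝ) (y : E3) : E3 := lam (a • lamInv y)

theorem measurable_beta (a : ℝ) : Measurable (beta a) := by
  unfold beta
  exact measurable_lam.comp (measurable_lamInv.const_smul a)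

/-- Bi-Lipschitz estimates for `lam`. -/
theorem lam_dist_sq (l m : E2) {d : ℝ} (hd1 : d ≤ 1) (hl : ‖l‖ ≤ d) (hm : ‖m‖ ≤ d) :
    (1 - d ^ 2 / 2) * ‖l - m‖ ^ 2 ≤ ‖lam l - lam m‖ ^ 2 ∧
      ‖lam l - lam m‖ ^ 2 ≤ (1 + d ^ 2) * ‖l - m‖ ^ 2 := by
  have hl0 := norm_nonneg l
  have hm0 := norm_nonneg m
  have hd0 : 0 ≤ d := hl0.trans hl
  set A : ℝ := 1 - ‖l‖ ^ 2 / 4 with hA
  set B : ℝ := 1 - ‖m‖ ^ 2 / 4 with hB
  have hA1 : 3 / 4 ≤ A := by nlinarith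
  have hB1 : 3 / 4 ≤ B := by nlinarith
  set p : ℝ := Real.sqrt A with hp
  set q : ℝ := Real.sqrt B with hq
  have hp2 : p ^ 2 = A := Real.sq_sqrt (by linarith)
  have hq2 : q ^ 2 = B := Real.sq_sqrt (by linarith)
  have hp0 : 1 / 2 ≤ p := by
    rw [hp]
    apply Real.le_sqrt_of_sq_le
    linarith
  have hq0 : 1 / 2 ≤ q := by
    rw [hq]
    apply Real.le_sqrt_of_sq_le
    linarith
  set c : ℝ := l 0 * m 0 + l 1 * m 1 with hc
  have hl2 := norm_sq_E2 l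
  have hm2 := norm_sq_E2 m
  have hD : ‖l - m‖ ^ 2 = ‖l‖ ^ 2 + ‖m‖ ^ 2 - 2 * c := by
    rw [norm_sq_E2, hl2, hm2]
    simp only [PiLp.sub_apply]
    ring
  have hcs : c ^ 2 ≤ ‖l‖ ^ 2 * ‖m‖ ^ 2 := by
    rw [hl2, hm2]
    nlinarith [sq_nonneg (l 0 * m 1 - l 1 * m 0)]
  have hcd : |c| ≤ d ^ 2 := by
    apply abs_le_of_sq_le_sq _ (by positivity)
    calc c ^ 2 ≤ ‖l‖ ^ 2 * ‖m‖ ^ 2 := hcs
      _ ≤ d ^ 2 * d ^ 2 := by gcongr
      _ = (d ^ 2) ^ 2 := by ring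
  have hE : ‖lam l - lam m‖ ^ 2 = ‖l - m‖ ^ 2 + c * (p - q) ^ 2 +
      ((‖l‖ ^ 2 - ‖m‖ ^ 2) ^ 2 - (‖l‖ ^ 2 + ‖m‖ ^ 2) * ‖l - m‖ ^ 2) / 8 := by
    rw [norm_sq_E3]
    have e0 : (lam l - lam m) 0 = p * l 0 - q * m 0 := rfl
    have e1 : (lam l - lam m) 1 = p * l 1 - q * m 1 := rfl
    have e2 : (lam l - lam m) 2 = ‖m‖ ^ 2 / 2 - ‖l‖ ^ 2 / 2 := by
      change lam l 2 - lam m 2 = _
      rw [lam_two, lam_two]
      ring
    rw [e0, e1, e2, hD]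
    have h1 : (p * l 0 - q * m 0) ^ 2 + (p * l 1 - q * m 1) ^ 2 =
        A * ‖l‖ ^ 2 + B * ‖m‖ ^ 2 - 2 * (p * q) * c := by
      rw [hl2, hm2, ← hp2, ← hq2, hc]
      ring
    have h2 : 2 * (p * q) = A + B - (p - q) ^ 2 := by
      rw [← hp2, ← hq2]; ring
    rw [h1, h2, hA, hB]
    ring
  have hdiff : (‖l‖ ^ 2 - ‖m‖ ^ 2) ^ 2 ≤ 4 * d ^ 2 * ‖l - m‖ ^ 2 := by
    have h1 : (‖l‖ - ‖m‖) ^ 2 ≤ ‖l - m‖ ^ 2 := by
      have := abs_norm_sub_norm_le l m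
      rw [← sq_abs]
      gcongr
    have h2 : (‖l‖ + ‖m‖) ^ 2 ≤ 4 * d ^ 2 := by
      calc (‖l‖ + ‖m‖) ^ 2 ≤ (d + d) ^ 2 := by gcongr
        _ = 4 * d ^ 2 := by ring
    calc (‖l‖ ^ 2 - ‖m‖ ^ 2) ^ 2 = (‖l‖ + ‖m‖) ^ 2 * (‖l‖ - ‖m‖) ^ 2 := by ring
      _ ≤ (4 * d ^ 2) * ‖l - m‖ ^ 2 := by gcongr
  have hpq : (p - q) ^ 2 ≤ d ^ 2 * ‖l - m‖ ^ 2 / 4 := by
    have h1 : (p - q) * (p + q) = -(‖l‖ ^ 2 - ‖m‖ ^ 2) / 4 := by
      have : (p - q) * (p + q) = p ^ 2 - q ^ 2 := by ring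
      rw [this, hp2, hq2, hA, hB]
      ring
    have h2 : ((p - q) * (p + q)) ^ 2 ≤ 4 * d ^ 2 * ‖l - m‖ ^ 2 / 16 := by
      have : ((p - q) * (p + q)) ^ 2 = (‖l‖ ^ 2 - ‖m‖ ^ 2) ^ 2 / 16 := by rw [h1]; ring
      rw [this]
      linarith
    have h3 : 1 ≤ p + q := by linarith
    have h4 : 1 ≤ (p + q) ^ 2 := one_le_pow₀ h3
    calc (p - q) ^ 2 = (p - q) ^ 2 * 1 := by ring
      _ ≤ (p - q) ^ 2 * (p + q) ^ 2 := by gcongr
      _ = ((p - q) * (p + q)) ^ 2 := by ring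
      _ ≤ _ := h2
      _ = _ := by ring
  have hDn : 0 ≤ ‖l - m‖ ^ 2 := sq_nonneg _
  have hd2 : d ^ 2 ≤ 1 := pow_le_one₀ hd0 hd1
  obtain ⟨hc1, hc2⟩ := abs_le.1 hcd
  have hpq0 := sq_nonneg (p - q)
  have hsum : ‖l‖ ^ 2 + ‖m‖ ^ 2 ≤ 2 * d ^ 2 := by
    have h1 : ‖l‖ ^ 2 ≤ d ^ 2 := by gcongr
    have h2 : ‖m‖ ^ 2 ≤ d ^ 2 := by gcongr
    linarith
  have hsum0 : 0 ≤ ‖l‖ ^ 2 + ‖m‖ ^ 2 := by positivity
  have hcp1 : -(d ^ 2 * ‖l - m‖ ^ 2 / 4) ≤ c * (p - q) ^ 2 := by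
    have h1 : -(d ^ 2) * (p - q) ^ 2 ≤ c * (p - q) ^ 2 :=
      mul_le_mul_of_nonneg_right (by linarith) hpq0
    have h2 : d ^ 2 * (p - q) ^ 2 ≤ 1 * (d ^ 2 * ‖l - m‖ ^ 2 / 4) := by gcongr
    linarith
  have hcp2 : c * (p - q) ^ 2 ≤ d ^ 2 * ‖l - m‖ ^ 2 / 4 := by
    have h1 : c * (p - q) ^ 2 ≤ d ^ 2 * (p - q) ^ 2 := by gcongr
    have h2 : d ^ 2 * (p - q) ^ 2 ≤ 1 * (d ^ 2 * ‖l - m‖ ^ 2 / 4) := by gcongr
    linarith
  have hsD : (‖l‖ ^ 2 + ‖m‖ ^ 2) * ‖l - m‖ ^ 2 ≤ 2 * d ^ 2 * ‖l - m‖ ^ 2 := by gcongr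
  have hsD0 : 0 ≤ (‖l‖ ^ 2 + ‖m‖ ^ 2) * ‖l - m‖ ^ 2 := by positivity
  have hX0 : 0 ≤ (‖l‖ ^ 2 - ‖m‖ ^ 2) ^ 2 := sq_nonneg _
  have hdD : 0 ≤ d ^ 2 * ‖l - m‖ ^ 2 := by positivity
  constructor
  · rw [hE]
    linarith
  · rw [hE]
    linarith

theorem neg_one_lt_of_near {y : E3} (hy : ‖y‖ = 1) {d : ℝ} (hd : d < 2) (h : ‖y - e3‖ ≤ d) :
    -1 < y 2 := by
  have h1 := norm_sub_e3_sq hy
  have h2 := norm_nonneg (y - e3)
  nlinarith

theorem norm_lamInv {y : E3} (hy : ‖y‖ = 1) (hy2 : -1 < y 2) : ‖lamInv y‖ = ‖y - e3‖ := by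
  have h1 : ‖lamInv y‖ ^ 2 = ‖y - e3‖ ^ 2 := by
    rw [norm_lamInv_sq hy hy2, norm_sub_e3_sq hy]
  exact (pow_left_inj₀ (norm_nonneg _) (norm_nonneg _) two_ne_zero).1 h1

/-- `beta a` is almost a similarity of ratio `a` near the pole. -/
theorem beta_dist_sq {a d : ℝ} (ha0 : 0 < a) (ha1 : a ≤ 1) (hd0 : 0 ≤ d) (hd1 : d ≤ 1 / 2)
    {y z : E3} (hy : ‖y‖ = 1) (hz : ‖z‖ = 1) (hyd : ‖y - e3‖ ≤ d) (hzd : ‖z - e3‖ ≤ d) :
    (1 - 2 * d ^ 2) * a ^ 2 * ‖y - z‖ ^ 2 ≤ ‖beta a y - beta a z‖ ^ 2 := by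
  have hy2 := neg_one_lt_of_near hy (by linarith) hyd
  have hz2 := neg_one_lt_of_near hz (by linarith) hzd
  have hly := norm_lamInv hy hy2
  have hlz := norm_lamInv hz hz2
  have h1 := (lam_dist_sq (lamInv y) (lamInv z) (d := d) (by linarith) (by rw [hly]; exact hyd)
    (by rw [hlz]; exact hzd)).2
  rw [lam_lamInv hy hy2, lam_lamInv hz hz2] at h1
  have hn : ∀ w : E2, ‖w‖ ≤ d → ‖a • w‖ ≤ d := by
    intro w hw
    rw [norm_smul, Real.norm_of_nonneg ha0.le]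
    calc a * ‖w‖ ≤ 1 * ‖w‖ := by gcongr
      _ ≤ d := by rw [one_mul]; exact hw
  have h2 := (lam_dist_sq (a • lamInv y) (a • lamInv z) (d := d) (by linarith)
    (hn _ (by rw [hly]; exact hyd)) (hn _ (by rw [hlz]; exact hzd))).1
  rw [← smul_sub, norm_smul, Real.norm_of_nonneg ha0.le, mul_pow] at h2
  refine le_trans ?_ h2
  have h3 : 0 ≤ 1 - 2 * d ^ 2 := by nlinarith
  have h4 : (1 - 2 * d ^ 2) * (1 + d ^ 2) ≤ 1 - d ^ 2 / 2 := by nlinarith [sq_nonneg (d ^ 2)]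
  have h5 : 0 ≤ ‖lamInv y - lamInv z‖ ^ 2 := sq_nonneg _
  calc (1 - 2 * d ^ 2) * a ^ 2 * ‖y - z‖ ^ 2
      ≤ (1 - 2 * d ^ 2) * a ^ 2 * ((1 + d ^ 2) * ‖lamInv y - lamInv z‖ ^ 2) := by gcongr
    _ = ((1 - 2 * d ^ 2) * (1 + d ^ 2)) * (a ^ 2 * ‖lamInv y - lamInv z‖ ^ 2) := by ring
    _ ≤ (1 - d ^ 2 / 2) * (a ^ 2 * ‖lamInv y - lamInv z‖ ^ 2) := by gcongr

theorem norm_beta {a d : ℝ} (ha0 : 0 < a) (ha1 : a ≤ 1) (hd1 : d ≤ 1 / 2)
    {y : E3} (hy : ‖y‖ = 1) (hyd : ‖y - e3‖ ≤ d) : ‖beta a y‖ = 1 := by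
  have hy2 := neg_one_lt_of_near hy (by linarith) hyd
  have hly := norm_lamInv hy hy2
  apply norm_lam
  rw [norm_smul, Real.norm_of_nonneg ha0.le, hly]
  have := norm_nonneg (y - e3)
  nlinarith

/-- Scaling of `sigma` by `beta`. -/
theorem lintegral_beta {a d : ℝ} (ha0 : 0 < a) (ha1 : a ≤ 1) (hd0 : 0 < d) (hd1 : d ≤ 1 / 2)
    {F : E3 → ℝ≥0∞} (hF : Measurable F) :
    ∫⁻ y, {y | ‖y - e3‖ < d}.indicator (fun y => F (beta a y)) y ∂sigma =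
      ENNReal.ofReal ((a ^ 2)⁻¹) * ∫⁻ x, {x | ‖x - e3‖ < a * d}.indicator F x ∂sigma := by
  have hm1 : MeasurableSet {y : E3 | ‖y - e3‖ < d} := measurableSet_lt (by fun_prop) (by fun_prop)
  have hm2 : MeasurableSet {y : E3 | ‖y - e3‖ < a * d} :=
    measurableSet_lt (by fun_prop) (by fun_prop)
  have hFb : Measurable (fun y => F (beta a y)) := hF.comp (measurable_beta a)
  have had : a * d ≤ d := by nlinarith
  rw [lintegral_sigma (hFb.indicator hm1), lintegral_sigma (hF.indicator hm2)]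
  have h1 : ∫⁻ l in ball (0 : E2) 2, {y | ‖y - e3‖ < d}.indicator (fun y => F (beta a y)) (lam l) =
      ∫⁻ l, (ball (0 : E2) d).indicator (fun l => F (lam (a • l))) l := by
    rw [← lintegral_indicator measurableSet_ball]
    refine lintegral_congr fun l => ?_
    by_cases hl : l ∈ ball (0 : E2) 2
    · rw [indicator_of_mem hl]
      have hl2 : ‖l‖ < 2 := mem_ball_zero_iff.1 hl
      by_cases hl3 : ‖l‖ < d
      · rw [indicator_of_mem (mem_ball_zero_iff.2 hl3), indicator_of_mem]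
        · rw [beta, lamInv_lam hl2]
        · change ‖lam l - e3‖ < d
          rwa [norm_lam_sub_e3 hl2.le]
      · rw [indicator_of_notMem, indicator_of_notMem (by rwa [mem_ball_zero_iff])]
        change ¬ (‖lam l - e3‖ < d)
        rwa [norm_lam_sub_e3 hl2.le]
    · rw [indicator_of_notMem hl, indicator_of_notMem]
      rw [mem_ball_zero_iff] at hl ⊢
      intro h
      apply hl
      linarith
  have h2 : ∫⁻ l in ball (0 : E2) 2, {y | ‖y - e3‖ < a * d}.indicator F (lam l) =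
      ∫⁻ l, (ball (0 : E2) (a * d)).indicator (fun l => F (lam l)) l := by
    rw [← lintegral_indicator measurableSet_ball]
    refine lintegral_congr fun l => ?_
    by_cases hl : l ∈ ball (0 : E2) 2
    · rw [indicator_of_mem hl]
      have hl2 : ‖l‖ < 2 := mem_ball_zero_iff.1 hl
      by_cases hl3 : ‖l‖ < a * d
      · rw [indicator_of_mem (mem_ball_zero_iff.2 hl3), indicator_of_mem]
        change ‖lam l - e3‖ < a * d
        rwa [norm_lam_sub_e3 hl2.le]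
      · rw [indicator_of_notMem, indicator_of_notMem (by rwa [mem_ball_zero_iff])]
        change ¬ (‖lam l - e3‖ < a * d)
        rwa [norm_lam_sub_e3 hl2.le]
    · rw [indicator_of_notMem hl, indicator_of_notMem]
      rw [mem_ball_zero_iff] at hl ⊢
      intro h
      apply hl
      linarith
  rw [h1, h2]
  have hG : Measurable ((ball (0 : E2) (a * d)).indicator (fun l => F (lam l))) :=
    (hF.comp measurable_lam).indicator measurableSet_ball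
  have h3 : ∀ l : E2, (ball (0 : E2) d).indicator (fun l => F (lam (a • l))) l =
      (ball (0 : E2) (a * d)).indicator (fun l => F (lam l)) (a • l) := by
    intro l
    have h4 : a • l ∈ ball (0 : E2) (a * d) ↔ l ∈ ball (0 : E2) d := by
      rw [mem_ball_zero_iff, mem_ball_zero_iff, norm_smul, Real.norm_of_nonneg ha0.le]
      exact mul_lt_mul_iff_right₀ ha0
    by_cases hl : l ∈ ball (0 : E2) d
    · rw [indicator_of_mem hl, indicator_of_mem (h4.2 hl)]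
    · rw [indicator_of_notMem hl, indicator_of_notMem (fun h => hl (h4.1 h))]
  simp_rw [h3]
  have h5 : ∫⁻ l : E2, (ball (0 : E2) (a * d)).indicator (fun l => F (lam l)) (a • l) =
      ENNReal.ofReal ((a ^ 2)⁻¹) * ∫⁻ l : E2, (ball (0 : E2) (a * d)).indicator (fun l => F (lam l)) l := by
    rw [← lintegral_map (f := (ball (0 : E2) (a * d)).indicator (fun l => F (lam l)))
      (g := fun l : E2 => a • l) hG (by fun_prop)]
    rw [Measure.map_addHaar_smul volume ha0.ne', lintegral_smul_measure]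
    simp [abs_of_pos ha0]
  rw [h5]
  ring

end Pool.Agent.Lib.MP_b06be4_an.Lim
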