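import Mathlib

/-!
# MP_b06be4_an, existence of the limit: the minimal energy
-/

open Set

namespace Pool.Agent.Lib.MP_b06be4_an.Lim

/-- The minimal Riesz `2`-energy of `N` distinct points of the unit sphere. -/
noncomputable def emin (N : ℕ) : ℝ :=
  sInf {E : ℝ | ∃ x : Fin N → EuclideanSpace ℝ (Fin 3),
    Function.Injective x ∧ (∀ i, ‖x i‖ = 1) ∧
    E = ∑ i, ∑ j, if i = j then (0 : ℝ) else 1 / ‖x i - x j‖ ^ 2}

/-- The energy. -/
noncomputable def en {n : ℕ} (x : Fin n → EuclideanSpace ℝ (Fin 3)) : ℝ :=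
  ∑ i, ∑ j, if i = j then (0 : ℝ) else 1 / ‖x i - x j‖ ^ 2

theorem en_nonneg {n : ℕ} (x : Fin n → EuclideanSpace ℝ (Fin 3)) : 0 ≤ en x := by
  unfold en
  refine Finset.sum_nonneg fun i _ => Finset.sum_nonneg fun j _ => ?_
  split_ifs
  · exact le_rfl
  · positivity

theorem emin_le {n : ℕ} {x : Fin n → EuclideanSpace ℝ (Fin 3)} (hinj : Function.Injective x)
    (hx : ∀ i, ‖x i‖ = 1) : emin n ≤ en x := by
  apply csInf_le
  · refine ⟨0, ?_⟩
    rintro E ⟨y, -, -, rfl⟩
    exact en_nonneg y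
  · exact ⟨x, hinj, hx, rfl⟩

theorem emin_nonneg (n : ℕ) : 0 ≤ emin n := by
  apply Real.sInf_nonneg
  rintro E ⟨y, -, -, rfl⟩
  exact en_nonneg y

/-- sum over the configurations with one point removed -/
theorem sum_en_remove {n : ℕ} (x : Fin (n + 1) → EuclideanSpace ℝ (Fin 3)) :
    ∑ k : Fin (n + 1), en (fun i : Fin n => x (k.succAbove i)) = ((n : ℝ) - 1) * en x := by
  set e : Fin (n + 1) → Fin (n + 1) → ℝ :=
    fun i j => if i = j then (0 : ℝ) else 1 / ‖x i - x j‖ ^ 2 with he
  have hsymm : ∀ i j, e i j = e j i := by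
    intro i j
    simp only [he]
    by_cases h : i = j
    · simp [h]
    · rw [if_neg h, if_neg (Ne.symm h), norm_sub_rev]
  have hdiag : ∀ i, e i i = 0 := by
    intro i
    simp [he]
  have h1 : ∀ k, en (fun i => x (k.succAbove i)) =
      en x - 2 * ∑ j, e k j := by
    intro k
    have h2 : en x = ∑ i, ∑ j, e i j := rfl
    have h3 : en (fun i => x (k.succAbove i)) =
        ∑ i, ∑ j, e (k.succAbove i) (k.succAbove j) := by
      unfold en
      refine Finset.sum_congr rfl fun i _ => Finset.sum_congr rfl fun j _ => ?_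
      simp only [he]
      by_cases h : i = j
      · simp [h]
      · rw [if_neg h, if_neg (fun h' => h (Fin.succAbove_right_injective h'))]
    rw [h2, h3, Fin.sum_univ_succAbove _ k]
    have h4 : ∀ i, ∑ j, e (k.succAbove i) j =
        e (k.succAbove i) k + ∑ j, e (k.succAbove i) (k.succAbove j) := fun i =>
      Fin.sum_univ_succAbove _ k
    simp_rw [h4]
    rw [Finset.sum_add_distrib]
    have h5 : ∑ j, e k j = ∑ i, e (k.succAbove i) k := by
      rw [Fin.sum_univ_succAbove _ k, hdiag, zero_add]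
      exact Finset.sum_congr rfl fun i _ => hsymm _ _
    rw [h5]
    ring
  simp_rw [h1]
  rw [Finset.sum_sub_distrib, ← Finset.mul_sum]
  have h2 : ∑ k, ∑ j, e k j = en x := rfl
  rw [h2]
  simp
  ring

theorem en_ge {N : ℕ} (hN : 2 ≤ N) {n : ℕ} (hn : N ≤ n) (x : Fin n → EuclideanSpace ℝ (Fin 3))
    (hinj : Function.Injective x) (hx : ∀ i, ‖x i‖ = 1) :
    emin N / (N * (N - 1)) * (n * (n - 1)) ≤ en x := by
  induction n, hn using Nat.le_induction with
  | base =>
    have h1 : (2 : ℝ) ≤ N := by exact_mod_cast hN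
    have h2 : (N : ℝ) * (N - 1) ≠ 0 := by
      apply mul_ne_zero <;> linarith
    rw [div_mul_cancel₀ _ h2]
    exact emin_le hinj hx
  | succ n hn ih =>
    have h1 := sum_en_remove x
    have h2 : ∀ k : Fin (n + 1), emin N / (N * (N - 1)) * (n * (n - 1)) ≤
        en (fun i => x (k.succAbove i)) := fun k =>
      ih _ (hinj.comp Fin.succAbove_right_injective) fun i => hx _
    have h3 : ((n : ℝ) + 1) * (emin N / (N * (N - 1)) * (n * (n - 1))) ≤ (n - 1) * en x := by
      calc ((n : ℝ) + 1) * (emin N / (N * (N - 1)) * (n * (n - 1)))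
          = ∑ _k : Fin (n + 1), emin N / (N * (N - 1)) * (n * (n - 1)) := by
            rw [Finset.sum_const, Finset.card_univ, Fintype.card_fin, nsmul_eq_mul]
            push_cast
            ring
        _ ≤ ∑ k : Fin (n + 1), en (fun i : Fin n => x (k.succAbove i)) :=
            Finset.sum_le_sum fun k _ => h2 k
        _ = _ := h1
    have h4 : (2 : ℝ) ≤ n := by
      have : 2 ≤ n := hN.trans hn
      exact_mod_cast this
    have h5 : ((n : ℝ) - 1) * (emin N / (N * (N - 1)) * ((n + 1) * n)) ≤ (n - 1) * en x := by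
      refine le_trans (le_of_eq ?_) h3
      ring
    have h6 := le_of_mul_le_mul_left h5 (by linarith)
    push_cast
    refine le_trans (le_of_eq ?_) h6
    ring

/-- the version for finite index sets -/
theorem en_finset_ge {κ : Type*} [DecidableEq κ] {N : ℕ} (hN : 2 ≤ N) (s : Finset κ)
    (hs : N ≤ s.card) (x : κ → EuclideanSpace ℝ (Fin 3)) (hinj : Set.InjOn x s)
    (hx : ∀ i ∈ s, ‖x i‖ = 1) :
    emin N / (N * (N - 1)) * (s.card * (s.card - 1)) ≤
      ∑ i ∈ s, ∑ j ∈ s, if i = j then (0 : ℝ) else 1 / ‖x i - x j‖ ^ 2 := by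
  set e := s.equivFin with he
  have h1 := en_ge hN hs (fun i => x (e.symm i)) (by
    intro i j hij
    have := hinj (e.symm i).2 (e.symm j).2 hij
    exact e.symm.injective (Subtype.ext this)) fun i => hx _ (e.symm i).2
  refine h1.trans (le_of_eq ?_)
  unfold en
  rw [← Finset.sum_coe_sort s, ← e.symm.sum_comp]
  refine Finset.sum_congr rfl fun i _ => ?_
  rw [← Finset.sum_coe_sort s, ← e.symm.sum_comp]
  refine Finset.sum_congr rfl fun j _ => ?_
  by_cases h : i = j
  · simp [h]
  · rw [if_neg h, if_neg (fun h' => h (e.symm.injective (Subtype.ext h')))]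

end Pool.Agent.Lib.MP_b06be4_an.Lim
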