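import Pool.Agent.Lib.MP_b06be4_an.Lim.Transfer

/-!
# MP_b06be4_an, existence of the limit: asymptotics
-/

open MeasureTheory Set Filter Metric
open scoped Topology

namespace Pool.Agent.Lib.MP_b06be4_an.Lim

/-- The normalized minimal energy. -/
noncomputable def cc (N : ℕ) : ℝ := emin N / N ^ 2 - 1 / 4 * Real.log N

/-- The error of the transfer. -/
noncomputable def errT (M k : ℕ) (δ η : ℝ) : ℝ :=
  k / 4 * (η / 2 + 1 / (M * η)) + ((1 - 2 * δ ^ 2)⁻¹ - 1) *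
    (emin M / M ^ 2 + k / 4 * (η / 2 + 1 / (M * η))) +
    1 / 2 * Real.log ((1 + δ) / Real.sqrt (1 - 2 * δ ^ 2)) + 8 / (δ * k)

theorem step_fin {M N k : ℕ} (hM : 1 ≤ M) (hk : 1 ≤ k) (hN : 2 ≤ N) {δ η : ℝ} (hδ0 : 0 < δ)
    (hδ1 : δ ≤ 1 / 2) (hη : 0 < η) {N₁ : ℝ} (hN₁ : (N : ℝ) < N₁) (hMN : (M : ℝ) ≤ N₁) :
    emin N / (N * (N - 1)) * (1 - 1 / N₁ - (N : ℝ) ^ 2 / (N₁ - N) ^ 2 * (M / N₁)) ≤
      cc M + errT M k δ η + 1 / 4 * Real.log N₁ + 1 / 2 * Real.sqrt (M / N₁) := by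
  have hM0 : (0 : ℝ) < M := by exact_mod_cast hM
  have hk0 : (0 : ℝ) < k := by exact_mod_cast hk
  have hk1 : (1 : ℝ) ≤ k := by exact_mod_cast hk
  have hN₁0 : 0 < N₁ := lt_of_lt_of_le hM0 hMN
  have hc1 : 0 < 1 - 2 * δ ^ 2 := by nlinarith
  set s : ℝ := Real.sqrt (1 - 2 * δ ^ 2) with hs
  have hs0 : 0 < s := Real.sqrt_pos.2 hc1
  have hs1 : s ≤ 1 := by
    rw [hs, Real.sqrt_le_left zero_le_one]
    nlinarith [sq_nonneg δ]
  set a : ℝ := Real.sqrt (M / N₁) with ha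
  have hq0 : 0 < (M : ℝ) / N₁ := by positivity
  have ha0 : 0 < a := Real.sqrt_pos.2 hq0
  have ha1 : a ≤ 1 := by
    rw [ha, Real.sqrt_le_left zero_le_one, one_pow, div_le_one hN₁0]
    exact hMN
  set ρ : ℝ := (1 + δ) / s with hρ
  have hρ1 : 1 ≤ ρ := by
    rw [hρ, one_le_div hs0]
    linarith
  set K : ℕ := ⌈k * ρ / a⌉₊ with hKdef
  have hK1 : k * ρ / a ≤ K := Nat.le_ceil _
  have hK2 : (K : ℝ) < k * ρ / a + 1 := Nat.ceil_lt_add_one (by positivity)
  have hK : k * (1 + δ) ≤ K * (s * a) := by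
    rw [div_le_iff₀ ha0] at hK1
    calc (k : ℝ) * (1 + δ) = (k * ρ) * s := by
          rw [hρ]
          field_simp
      _ ≤ (K * a) * s := by gcongr
      _ = _ := by ring
  have hT := transfer hM hN hN₁ hMN hδ0 hδ1 hη hK
  have hkK : k ≤ K := by
    have h1 : (k : ℝ) ≤ k * ρ / a := by
      rw [le_div_iff₀ ha0]
      exact mul_le_mul (le_refl _) (ha1.trans hρ1) ha0.le hk0.le
    exact_mod_cast h1.trans hK1
  have hJ := JJ_sub_le hk hkK
  have hK0 : (0 : ℝ) < K := lt_of_lt_of_le hk0 (by exact_mod_cast hkK)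
  have hlog : Real.log (K / k) ≤ Real.log ρ + 1 / 2 * (Real.log N₁ - Real.log M) + a := by
    have h1 : (K : ℝ) / k ≤ ρ * a⁻¹ * (1 + a) := by
      rw [div_le_iff₀ hk0]
      have h2 : (1 : ℝ) ≤ k * ρ := by
        calc (1 : ℝ) = 1 * 1 := by ring
          _ ≤ k * ρ := mul_le_mul hk1 hρ1 zero_le_one hk0.le
      calc (K : ℝ) ≤ k * ρ / a + 1 := hK2.le
        _ ≤ k * ρ / a + k * ρ := by linarith
        _ = _ := by field_simp
    calc Real.log (K / k) ≤ Real.log (ρ * a⁻¹ * (1 + a)) :=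
          Real.log_le_log (by positivity) h1
      _ = Real.log ρ - Real.log a + Real.log (1 + a) := by
          rw [Real.log_mul (by positivity) (by positivity), Real.log_mul (by positivity)
            (by positivity), Real.log_inv]
          ring
      _ ≤ _ := by
          have h3 : Real.log a = 1 / 2 * (Real.log M - Real.log N₁) := by
            rw [ha, Real.log_sqrt hq0.le, Real.log_div hM0.ne' hN₁0.ne']
            ring
          have h4 := Real.log_le_sub_one_of_pos (show 0 < 1 + a by linarith)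
          rw [h3]
          linarith
  have h8 : 8 / (a * δ * (K + 1)) ≤ 8 / (δ * k) := by
    apply div_le_div_of_nonneg_left (by norm_num) (by positivity)
    have h1 : (k : ℝ) ≤ a * (K + 1) := by
      rw [div_le_iff₀ ha0] at hK1
      nlinarith
    calc δ * (k : ℝ) ≤ δ * (a * (K + 1)) := by gcongr
      _ = _ := by ring
  have hJk := JJ_nonneg k
  set X : ℝ := emin M / M ^ 2 + k / 4 * (η / 2 + 1 / (M * η)) with hX
  have hinv : 1 ≤ (1 - 2 * δ ^ 2)⁻¹ := by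
    rw [one_le_inv₀ hc1]
    nlinarith [sq_nonneg δ]
  have h9 : (1 - 2 * δ ^ 2)⁻¹ * (emin M / M ^ 2 - JJ k + k / 4 * (η / 2 + 1 / (M * η))) ≤
      X - JJ k + ((1 - 2 * δ ^ 2)⁻¹ - 1) * X := by
    have h10 : emin M / M ^ 2 - JJ k + k / 4 * (η / 2 + 1 / (M * η)) = X - JJ k := by
      rw [hX]
      ring
    rw [h10]
    nlinarith
  refine hT.trans ?_
  have h11 : cc M + errT M k δ η = X - 1 / 4 * Real.log M + ((1 - 2 * δ ^ 2)⁻¹ - 1) * X +
      1 / 2 * Real.log ρ + 8 / (δ * k) := by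
    rw [cc, errT, ← hX]
    rw [hX]
    ring
  rw [h11]
  linarith

theorem step {M k : ℕ} (hM : 1 ≤ M) (hk : 1 ≤ k) {δ η : ℝ} (hδ0 : 0 < δ)
    (hδ1 : δ ≤ 1 / 2) (hη : 0 < η) {B : ℝ} (hB0 : 0 ≤ B)
    (hB : ∀ N : ℕ, 1 ≤ N → emin N / N ^ 2 ≤ B + 1 / 4 * Real.log N) {ε : ℝ} (hε : 0 < ε) :
    ∀ᶠ N : ℕ in atTop, cc N ≤ cc M + errT M k δ η + ε := by
  have hM0 : (0 : ℝ) < M := by exact_mod_cast hM
  have hv : Tendsto (fun N : ℕ => (N : ℝ) ^ (1 / 4 : ℝ)) atTop atTop :=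
    (tendsto_rpow_atTop (by norm_num)).comp tendsto_natCast_atTop_atTop
  set A : ℝ := 1 / 4 + M / 2 + (1 + M) * B + 1 + M with hA
  have hA0 : 0 < A := by positivity
  filter_upwards [hv.eventually_ge_atTop (1 + M), hv.eventually_ge_atTop (A / ε),
    eventually_ge_atTop 2] with N h1 h2 hN
  set v : ℝ := (N : ℝ) ^ (1 / 4 : ℝ) with hvdef
  have hN0 : (0 : ℝ) < N := by
    have : 0 < N := by omega
    exact_mod_cast this
  have hv1 : 1 ≤ v := by linarith
  have hv0 : 0 < v := by linarith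
  have hNv : (N : ℝ) = v ^ 4 := by
    rw [hvdef, ← Real.rpow_natCast, ← Real.rpow_mul hN0.le]
    norm_num
  set N₁ : ℝ := v ^ 4 + v ^ 3 with hN₁
  have hN₁0 : 0 < N₁ := by positivity
  have hNN₁ : (N : ℝ) < N₁ := by
    rw [hNv, hN₁]
    have : 0 < v ^ 3 := by positivity
    linarith
  have hvM : (M : ℝ) ≤ v := by linarith
  have hv4 : v ≤ v ^ 4 := by
    have := pow_le_pow_right₀ hv1 (show 1 ≤ 4 by norm_num)
    simpa using this
  have hMN : (M : ℝ) ≤ N₁ := by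
    rw [← hNv] at hv4
    linarith
  have hT := step_fin (η := η) hM hk hN hδ0 hδ1 hη hNN₁ hMN
  -- error terms
  have hN2 : (2 : ℝ) ≤ N := by exact_mod_cast hN
  set e : ℝ := 1 / N₁ + (N : ℝ) ^ 2 / (N₁ - N) ^ 2 * (M / N₁) with he
  have he1 : e ≤ 1 / v ^ 4 + M / v ^ 2 := by
    have h3 : N₁ - N = v ^ 3 := by
      rw [hN₁, hNv]
      ring
    rw [he, h3, hNv]
    have h4 : 1 / N₁ ≤ 1 / v ^ 4 := by
      apply one_div_le_one_div_of_le (by positivity)
      rw [← hNv]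
      exact hNN₁.le
    have h5 : (v ^ 4) ^ 2 / (v ^ 3) ^ 2 * (M / N₁) ≤ M / v ^ 2 := by
      calc (v ^ 4) ^ 2 / (v ^ 3) ^ 2 * (M / N₁) ≤ (v ^ 4) ^ 2 / (v ^ 3) ^ 2 * (M / v ^ 4) := by
            apply mul_le_mul_of_nonneg_left _ (by positivity)
            apply div_le_div_of_nonneg_left hM0.le (by positivity)
            rw [← hNv]
            exact hNN₁.le
        _ = M / v ^ 2 := by field_simp
    linarith
  have he0 : 0 ≤ e := by positivity
  have he2 : e ≤ 1 := by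
    refine he1.trans ?_
    have h3 : M / v ^ 2 ≤ M / v := by
      apply div_le_div_of_nonneg_left hM0.le hv0
      nlinarith
    have h4 : 1 / v ^ 4 ≤ 1 / v := one_div_le_one_div_of_le hv0 hv4
    have h5 : 1 / v + M / v ≤ 1 := by
      rw [← add_div, div_le_one hv0]
      exact h1
    linarith
  have hlogN : 1 / 4 * Real.log N ≤ v := by
    rw [hNv, Real.log_pow]
    have := Real.log_le_sub_one_of_pos hv0
    push_cast
    linarith
  have hEN : emin N / N ^ 2 ≤ emin N / (N * (N - 1)) := by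
    apply div_le_div_of_nonneg_left (emin_nonneg N)
    · apply mul_pos hN0
      linarith
    · nlinarith
  have hEN0 : 0 ≤ emin N / N ^ 2 := div_nonneg (emin_nonneg N) (by positivity)
  have h3 : emin N / N ^ 2 * (1 - e) ≤
      cc M + errT M k δ η + 1 / 4 * Real.log N₁ + 1 / 2 * Real.sqrt (M / N₁) := by
    refine le_trans ?_ hT
    have h4 : (1 : ℝ) - 1 / N₁ - (N : ℝ) ^ 2 / (N₁ - N) ^ 2 * (M / N₁) = 1 - e := by
      rw [he]
      ring
    rw [h4]
    exact mul_le_mul_of_nonneg_right hEN (by linarith)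
  have h4 : e * (emin N / N ^ 2) ≤ (1 / v ^ 4 + M / v ^ 2) * (B + v) := by
    apply mul_le_mul he1 _ hEN0 (by positivity)
    have := hB N (by omega)
    linarith
  have h5 : 1 / 4 * Real.log N₁ - 1 / 4 * Real.log N ≤ 1 / 4 * (1 / v) := by
    have h6 : N₁ = N * (1 + 1 / v) := by
      rw [hNv, hN₁]
      field_simp
    rw [h6, Real.log_mul hN0.ne' (by positivity)]
    have := Real.log_le_sub_one_of_pos (show 0 < 1 + 1 / v by positivity)
    linarith
  have h6 : Real.sqrt (M / N₁) ≤ M / v := by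
    rw [Real.sqrt_le_left (by positivity), div_pow]
    have hM1 : (1 : ℝ) ≤ M := by exact_mod_cast hM
    apply div_le_div₀ (by positivity) (by nlinarith) (by positivity)
    calc v ^ 2 ≤ v ^ 4 := pow_le_pow_right₀ hv1 (by norm_num)
      _ = N := hNv.symm
      _ ≤ N₁ := hNN₁.le
  have h7 : (1 / v ^ 4 + M / v ^ 2) * (B + v) ≤ ((1 + M) * B + 1 + M) / v := by
    have e1 : (1 / v ^ 4 + M / v ^ 2) * (B + v) =
        (B / v ^ 4 + M * B / v ^ 2) + (1 / v ^ 3 + M / v) := by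
      field_simp
    rw [e1]
    have e2 : B / v ^ 4 ≤ B / v := div_le_div_of_nonneg_left hB0 hv0 hv4
    have hv2 : v ≤ v ^ 2 := by
      have := pow_le_pow_right₀ hv1 (show 1 ≤ 2 by norm_num)
      simpa using this
    have hv3 : v ≤ v ^ 3 := by
      have := pow_le_pow_right₀ hv1 (show 1 ≤ 3 by norm_num)
      simpa using this
    have e3 : M * B / v ^ 2 ≤ M * B / v := div_le_div_of_nonneg_left (by positivity) hv0 hv2
    have e4 : 1 / v ^ 3 ≤ 1 / v := one_div_le_one_div_of_le hv0 hv3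
    have e5 : ((1 + M) * B + 1 + M) / v = B / v + M * B / v + (1 / v + M / v) := by
      field_simp
      ring
    rw [e5]
    linarith
  have h8 : A / v ≤ ε := by
    rw [div_le_iff₀ hv0]
    rw [div_le_iff₀ hε] at h2
    linarith
  have h9 : A / v = 1 / 4 * (1 / v) + 1 / 2 * (M / v) + ((1 + M) * B + 1 + M) / v := by
    rw [hA]
    field_simp
    ring
  rw [cc]
  nlinarith

/-- Bound of the error for a suitable choice of the parameters. -/
theorem errT_le {M : ℕ} (hM : 1 ≤ M) {B : ℝ} (hB0 : 0 ≤ B)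
    (hB : ∀ N : ℕ, 1 ≤ N → emin N / N ^ 2 ≤ B + 1 / 4 * Real.log N) :
    ∃ k : ℕ, 1 ≤ k ∧ ∃ δ η : ℝ, 0 < δ ∧ δ ≤ 1 / 2 ∧ 0 < η ∧
      errT M k δ η ≤ (B + 21) * (M : ℝ) ^ (-(1 / 6) : ℝ) := by
  have hM0 : (0 : ℝ) < M := by exact_mod_cast hM
  set u : ℝ := (M : ℝ) ^ (1 / 6 : ℝ) with hu
  have hu1 : 1 ≤ u := Real.one_le_rpow (by exact_mod_cast hM) (by norm_num)
  have hu0 : 0 < u := by linarith
  have hMu : (M : ℝ) = u ^ 6 := by
    rw [hu, ← Real.rpow_natCast, ← Real.rpow_mul hM0.le]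
    norm_num
  have huinv : (M : ℝ) ^ (-(1 / 6) : ℝ) = 1 / u := by
    rw [Real.rpow_neg hM0.le, ← hu, one_div]
  set k : ℕ := ⌈u ^ 2⌉₊ with hk
  have hk1 : u ^ 2 ≤ k := Nat.le_ceil _
  have hk2 : (k : ℝ) < u ^ 2 + 1 := Nat.ceil_lt_add_one (by positivity)
  have hkpos : (0 : ℝ) < k := lt_of_lt_of_le (by positivity) hk1
  have hu2 : 1 ≤ u ^ 2 := one_le_pow₀ hu1
  refine ⟨k, ?_, 1 / (2 * u), 1 / u ^ 3, by positivity, ?_, by positivity, ?_⟩
  · have : (1 : ℝ) ≤ k := hu2.trans hk1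
    exact_mod_cast this
  · apply one_div_le_one_div_of_le (by norm_num)
    linarith
  rw [huinv, errT]
  set δ : ℝ := 1 / (2 * u) with hδ
  have hδ0 : 0 < δ := by positivity
  have hδ1 : δ ≤ 1 / 2 := by
    apply one_div_le_one_div_of_le (by norm_num)
    linarith
  -- the first term
  set T : ℝ := (k : ℝ) / 4 * (1 / u ^ 3 / 2 + 1 / (M * (1 / u ^ 3))) with hT
  have hT1 : T ≤ 3 / 4 / u := by
    have e1 : T = 3 / 8 * k / u ^ 3 := by
      rw [hT, hMu]
      field_simp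
      norm_num
    rw [e1]
    calc 3 / 8 * (k : ℝ) / u ^ 3 ≤ 3 / 8 * (u ^ 2 + u ^ 2) / u ^ 3 := by
          gcongr
          linarith
      _ = 3 / 4 / u := by
          field_simp
          norm_num
  have hT0 : 0 ≤ T := by positivity
  have hT2 : T ≤ 3 / 4 := by
    refine hT1.trans ?_
    rw [div_le_iff₀ hu0]
    linarith
  -- the second term
  have hd1 : 1 / 2 ≤ 1 - 2 * δ ^ 2 := by nlinarith
  have hd2 : (1 - 2 * δ ^ 2)⁻¹ - 1 ≤ 1 / u ^ 2 := by
    have e1 : (1 - 2 * δ ^ 2)⁻¹ - 1 = 2 * δ ^ 2 / (1 - 2 * δ ^ 2) := by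
      field_simp
      ring
    rw [e1, div_le_iff₀ (by linarith)]
    have e2 : 2 * δ ^ 2 = 1 / 2 * (1 / u ^ 2) := by
      rw [hδ]
      field_simp
    rw [e2] at hd1 ⊢
    have e3 : 0 ≤ 1 / u ^ 2 := by positivity
    nlinarith
  have hlogM : 1 / 4 * Real.log M ≤ 3 / 2 * u := by
    rw [hMu, Real.log_pow]
    have := Real.log_le_sub_one_of_pos hu0
    push_cast
    linarith
  have hE := hB M hM
  have hE0 : 0 ≤ emin M / (M : ℝ) ^ 2 := div_nonneg (emin_nonneg M) (by positivity)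
  have h2 : ((1 - 2 * δ ^ 2)⁻¹ - 1) * (emin M / M ^ 2 + T) ≤ (B + 9 / 4) / u := by
    calc ((1 - 2 * δ ^ 2)⁻¹ - 1) * (emin M / M ^ 2 + T)
        ≤ 1 / u ^ 2 * (B * u + 3 / 2 * u + 3 / 4 * u) := by
          apply mul_le_mul hd2 _ (by positivity) (by positivity)
          nlinarith
      _ = (B + 9 / 4) / u := by
          field_simp
          ring
  -- the third term
  have h3 : 1 / 2 * Real.log ((1 + δ) / Real.sqrt (1 - 2 * δ ^ 2)) ≤ 1 / u := by
    have hs : 0 < 1 - 2 * δ ^ 2 := by linarith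
    rw [Real.log_div (by positivity) (Real.sqrt_pos.2 hs).ne', Real.log_sqrt hs.le]
    have e1 := Real.log_le_sub_one_of_pos (show 0 < 1 + δ by linarith)
    have e2 := Real.one_sub_inv_le_log_of_pos hs
    have e3 : 1 / u ^ 2 ≤ 1 / u := by
      apply one_div_le_one_div_of_le hu0
      nlinarith
    have e4 : δ = 1 / 2 * (1 / u) := by
      rw [hδ]
      field_simp
    linarith
  -- the fourth term
  have h4 : 8 / (δ * k) ≤ 16 / u := by
    rw [div_le_div_iff₀ (by positivity) hu0]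
    have e1 : δ * k ≥ 1 / (2 * u) * u ^ 2 := by gcongr
    have e2 : 1 / (2 * u) * u ^ 2 = u / 2 := by
      field_simp
    rw [e2] at e1
    linarith
  have h5 : (B + 21) * (1 / u) = 3 / 4 / u + (B + 9 / 4) / u + 1 / u + 16 / u + 1 / u := by
    field_simp
    ring
  have h6 : 0 ≤ 1 / u := by positivity
  rw [h5]
  linarith

end Pool.Agent.Lib.MP_b06be4_an.Lim
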