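import Pool.Agent.Lib.MP_b06be4_an.Lim.Source

/-!
# MP_b06be4_an, existence of the limit: a randomly shifted grid
-/

open MeasureTheory Set Filter Metric
open scoped ENNReal NNReal Topology

namespace Pool.Agent.Lib.MP_b06be4_an.Lim

theorem integral_floor {d : ℝ} (hd : 0 < d) (a : ℝ) :
    IntervalIntegrable (fun τ : ℝ => (⌊(a + τ) / d⌋ : ℝ)) volume 0 d ∧
    ∫ τ in (0 : ℝ)..d, (⌊(a + τ) / d⌋ : ℝ) =
      a + (∫ τ in (0 : ℝ)..d, τ / d) - ∫ τ in (0 : ℝ)..d, Int.fract (τ / d) := by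
  have hfi : ∀ b c : ℝ, IntervalIntegrable (fun τ : ℝ => Int.fract (τ / d)) volume b c := by
    intro b c
    rw [intervalIntegrable_iff]
    refine Measure.integrableOn_of_bounded (M := 1) (by simp) ?_ (Eventually.of_forall fun x => ?_)
    · exact (measurable_fract.comp (measurable_id.div_const d)).aestronglyMeasurable
    · rw [Real.norm_eq_abs, abs_of_nonneg (Int.fract_nonneg _)]
      exact (Int.fract_lt_one _).le
  have hper : Function.Periodic (fun τ : ℝ => Int.fract (τ / d)) d := by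
    intro τ
    beta_reduce
    rw [add_div, div_self hd.ne', Int.fract_add_one]
  have h1 : ∫ τ in (0 : ℝ)..d, Int.fract ((a + τ) / d) = ∫ τ in (0 : ℝ)..d, Int.fract (τ / d) := by
    have h2 := intervalIntegral.integral_comp_add_left (a := 0) (b := d)
      (fun τ : ℝ => Int.fract (τ / d)) a
    rw [h2, add_zero, hper.intervalIntegral_add_eq a 0, zero_add]
  have hfa : IntervalIntegrable (fun τ : ℝ => Int.fract ((a + τ) / d)) volume 0 d := by
    have := (hfi (a + 0) (a + d)).comp_add_left a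
    simpa using this
  have hid : IntervalIntegrable (fun τ : ℝ => (a + τ) / d) volume 0 d := by
    apply Continuous.intervalIntegrable
    fun_prop
  have h3 : ∀ τ : ℝ, (⌊(a + τ) / d⌋ : ℝ) = (a + τ) / d - Int.fract ((a + τ) / d) := by
    intro τ
    rw [Int.self_sub_fract]
  simp_rw [h3]
  refine ⟨hid.sub hfa, ?_⟩
  rw [intervalIntegral.integral_sub hid hfa, h1]
  congr 1
  have h4 : ∀ τ : ℝ, (a + τ) / d = a / d + τ / d := fun τ => add_div _ _ _
  simp_rw [h4]
  rw [intervalIntegral.integral_add (by simp) (by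
    apply Continuous.intervalIntegrable
    fun_prop)]
  congr 1
  simp
  field_simp

/-- The set of shifts which separate `a` and `b`. -/
def sepShift (d a b : ℝ) : Set ℝ := {τ | ⌊(a + τ) / d⌋ ≠ ⌊(b + τ) / d⌋}

theorem measurableSet_sepShift (d a b : ℝ) : MeasurableSet (sepShift d a b) :=
  (measurableSet_eq_fun (by fun_prop) (by fun_prop)).compl

theorem volume_sepShift_le {d : ℝ} (hd : 0 < d) (a b : ℝ) :
    volume (sepShift d a b ∩ Ioc 0 d) ≤ ENNReal.ofReal |a - b| := by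
  wlog hab : a ≤ b generalizing a b with H
  · have := H b a (le_of_lt (not_le.1 hab))
    rw [abs_sub_comm]
    refine le_trans (measure_mono ?_) this
    intro τ hτ
    exact ⟨fun h => hτ.1 h.symm, hτ.2⟩
  obtain ⟨ia, ea⟩ := integral_floor hd a
  obtain ⟨ib, eb⟩ := integral_floor hd b
  have h1 : ∫ τ in (0 : ℝ)..d, ((⌊(b + τ) / d⌋ : ℝ) - ⌊(a + τ) / d⌋) = b - a := by
    rw [intervalIntegral.integral_sub ib ia, ea, eb]
    ring
  have hmono : ∀ τ : ℝ, ⌊(a + τ) / d⌋ ≤ ⌊(b + τ) / d⌋ := by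
    intro τ
    apply Int.floor_le_floor
    gcongr
  calc volume (sepShift d a b ∩ Ioc 0 d)
      = ∫⁻ τ in Ioc 0 d, (sepShift d a b).indicator 1 τ := by
        rw [lintegral_indicator_one (measurableSet_sepShift _ _ _),
          Measure.restrict_apply (measurableSet_sepShift _ _ _)]
    _ ≤ ∫⁻ τ in Ioc 0 d, ENNReal.ofReal ((⌊(b + τ) / d⌋ : ℝ) - ⌊(a + τ) / d⌋) := by
        apply lintegral_mono
        intro τ
        by_cases h : τ ∈ sepShift d a b
        · rw [indicator_of_mem h]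
          have h2 : ⌊(a + τ) / d⌋ + 1 ≤ ⌊(b + τ) / d⌋ := lt_of_le_of_ne (hmono τ) h
          have h3 : ((⌊(a + τ) / d⌋ : ℝ)) + 1 ≤ ⌊(b + τ) / d⌋ := by exact_mod_cast h2
          rw [Pi.one_apply, ← ENNReal.ofReal_one]
          apply ENNReal.ofReal_le_ofReal
          linarith
        · rw [indicator_of_notMem h]
          exact bot_le
    _ = ENNReal.ofReal (∫ τ in (0 : ℝ)..d, ((⌊(b + τ) / d⌋ : ℝ) - ⌊(a + τ) / d⌋)) := by
        rw [intervalIntegral.integral_of_le hd.le, ofReal_integral_eq_lintegral_ofReal]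
        · have := ib.sub ia
          rwa [intervalIntegrable_iff_integrableOn_Ioc_of_le hd.le] at this
        · refine Eventually.of_forall fun τ => ?_
          have h3 : ((⌊(a + τ) / d⌋ : ℝ)) ≤ ⌊(b + τ) / d⌋ := by exact_mod_cast hmono τ
          simp only [Pi.zero_apply]
          linarith
    _ = ENNReal.ofReal |a - b| := by
        rw [h1, abs_sub_comm, abs_of_nonneg (by linarith)]

/-- The grid label. -/
noncomputable def gl (d τ : ℝ) (m : ℕ) (x : E3) : Fin 3 → Fin (m + 1) :=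
  fun i => ⟨min m (⌊(x i + 1 + τ) / d⌋).toNat, by omega⟩

theorem measurable_gl (m : ℕ) (d : ℝ) :
    Measurable (fun p : ℝ × E3 => gl d p.1 m p.2) := by
  unfold gl
  apply measurable_pi_lambda
  intro i
  have h1 : Measurable (fun p : ℝ × E3 => ⌊(p.2 i + 1 + p.1) / d⌋) := by fun_prop
  exact (measurable_of_countable (fun n : ℤ => (⟨min m n.toNat, by omega⟩ : Fin (m + 1)))).comp h1

theorem abs_coord_le {x : E3} (hx : ‖x‖ = 1) (i : Fin 3) : |x i| ≤ 1 := by
  have h1 := norm_sq_E3 x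
  rw [hx] at h1
  apply abs_le_of_sq_le_sq _ zero_le_one
  fin_cases i
  · change x 0 ^ 2 ≤ 1 ^ 2
    nlinarith [sq_nonneg (x 0), sq_nonneg (x 1), sq_nonneg (x 2)]
  · change x 1 ^ 2 ≤ 1 ^ 2
    nlinarith [sq_nonneg (x 0), sq_nonneg (x 1), sq_nonneg (x 2)]
  · change x 2 ^ 2 ≤ 1 ^ 2
    nlinarith [sq_nonneg (x 0), sq_nonneg (x 1), sq_nonneg (x 2)]

/-- Points with the same grid label are close. -/
theorem norm_lt_of_gl_eq {d τ : ℝ} (hd : 0 < d) (hτ : τ ∈ Ioc (0 : ℝ) d) {m : ℕ}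
    (hm : (2 + d) / d < m) {x y : E3} (hx : ‖x‖ = 1) (hy : ‖y‖ = 1)
    (h : gl d τ m x = gl d τ m y) : ‖x - y‖ < 2 * d := by
  have hfl : ∀ z : E3, ‖z‖ = 1 → ∀ i, 0 ≤ ⌊(z i + 1 + τ) / d⌋ ∧ ⌊(z i + 1 + τ) / d⌋ < m := by
    intro z hz i
    have h1 := abs_le.1 (abs_coord_le hz i)
    have h2 := hτ.1
    have h3 := hτ.2
    constructor
    · apply Int.floor_nonneg.2
      apply div_nonneg (by linarith) hd.le
    · rw [Int.floor_lt]
      refine lt_of_le_of_lt ?_ (by exact_mod_cast hm)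
      gcongr
      linarith
  have hcoord : ∀ i, |x i - y i| < d := by
    intro i
    have h1 := hfl x hx i
    have h2 := hfl y hy i
    have h3 : min m (⌊(x i + 1 + τ) / d⌋).toNat = min m (⌊(y i + 1 + τ) / d⌋).toNat := by
      have := congrFun h i
      simpa [gl] using this
    have h4 : ⌊(x i + 1 + τ) / d⌋ = ⌊(y i + 1 + τ) / d⌋ := by omega
    have h5 := Int.abs_sub_lt_one_of_floor_eq_floor h4
    have h6 : (x i + 1 + τ) / d - (y i + 1 + τ) / d = (x i - y i) / d := by ring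
    rw [h6, abs_div, abs_of_pos hd, div_lt_one hd] at h5
    exact h5
  have h1 := norm_sq_E3 (x - y)
  have hs : ∀ i, (x i - y i) ^ 2 < d ^ 2 := by
    intro i
    rw [← sq_abs]
    have := hcoord i
    have := abs_nonneg (x i - y i)
    gcongr
  have e0 := hs 0
  have e1 := hs 1
  have e2 := hs 2
  simp only [PiLp.sub_apply] at h1
  have h2 : ‖x - y‖ ^ 2 < (2 * d) ^ 2 := by
    rw [h1]
    nlinarith
  exact lt_of_pow_lt_pow_left₀ 2 (by positivity) h2

theorem volume_gl_ne_le {d : ℝ} (hd : 0 < d) (m : ℕ) (x y : E3) :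
    volume ({τ | gl d τ m x ≠ gl d τ m y} ∩ Ioc 0 d) ≤ ENNReal.ofReal (2 * ‖x - y‖) := by
  have hsub : {τ | gl d τ m x ≠ gl d τ m y} ∩ Ioc 0 d ⊆
      ⋃ i : Fin 3, (sepShift d (x i + 1) (y i + 1) ∩ Ioc 0 d) := by
    rintro τ ⟨h1, h2⟩
    rw [mem_iUnion]
    by_contra h3
    push Not at h3
    apply h1
    funext i
    have h4 := h3 i
    have h5 : ⌊(x i + 1 + τ) / d⌋ = ⌊(y i + 1 + τ) / d⌋ := by
      by_contra h6
      exact h4 ⟨h6, h2⟩
    simp only [gl, h5]
  refine (measure_mono hsub).trans ((measure_iUnion_le _).trans ?_)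
  rw [tsum_fintype, Fin.sum_univ_three]
  have h1 : ∀ i, volume (sepShift d (x i + 1) (y i + 1) ∩ Ioc 0 d) ≤
      ENNReal.ofReal |x i - y i| := by
    intro i
    have := volume_sepShift_le hd (x i + 1) (y i + 1)
    rwa [add_sub_add_right_eq_sub] at this
  refine (add_le_add (add_le_add (h1 0) (h1 1)) (h1 2)).trans ?_
  rw [← ENNReal.ofReal_add (abs_nonneg _) (abs_nonneg _),
    ← ENNReal.ofReal_add (by positivity) (abs_nonneg _)]
  apply ENNReal.ofReal_le_ofReal
  have h2 := norm_sq_E3 (x - y)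
  simp only [PiLp.sub_apply] at h2
  apply le_of_sq_le_sq _ (by positivity)
  rw [mul_pow, h2]
  have e0 := sq_abs (x 0 - y 0)
  have e1 := sq_abs (x 1 - y 1)
  have e2 := sq_abs (x 2 - y 2)
  nlinarith [sq_nonneg (|x 0 - y 0| - |x 1 - y 1|), sq_nonneg (|x 1 - y 1| - |x 2 - y 2|),
    sq_nonneg (|x 0 - y 0| - |x 2 - y 2|), sq_nonneg (|x 0 - y 0|)]

end Pool.Agent.Lib.MP_b06be4_an.Lim
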