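import Pool.Agent.Lib.MP_b06be4_an.Lim.Radial

/-!
# MP_b06be4_an, existence of the limit: a random isometry

The Gram-Schmidt frame of three independent uniform points of the unit ball gives a random linear
isometry `gg v` of `ℝ³` such that `gg v y` is uniform on the sphere for every unit vector `y`.
-/

open MeasureTheory Set Filter Metric
open scoped ENNReal NNReal Topology InnerProductSpace

namespace Pool.Agent.Lib.MP_b06be4_an.Lim

/-- The uniform probability measure on the unit ball. -/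
noncomputable def muB : Measure E3 := (ENNReal.ofReal (4 * Real.pi / 3))⁻¹ • volume.restrict (ball (0 : E3) 1)

instance : IsProbabilityMeasure muB := by
  refine ⟨?_⟩
  rw [muB, Measure.smul_apply, Measure.restrict_apply_univ, vol_ball, smul_eq_mul]
  apply ENNReal.inv_mul_cancel
  · simp [Real.pi_pos]
  · simp

theorem muB_isometry (U : E3 ≃ₗᵢ[ℝ] E3) : MeasurePreserving U muB muB := by
  have h2 := (U.measurePreserving).restrict_preimage (s := ball (0 : E3) 1) measurableSet_ball
  have h3 : U ⁻¹' ball (0 : E3) 1 = ball 0 1 := by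
    ext x
    simp
  rw [h3] at h2
  refine ⟨U.continuous.measurable, ?_⟩
  rw [muB, Measure.map_smul, h2.map_eq]

theorem muB_null {s : Set E3} (h : volume s = 0) : muB s = 0 := by
  rw [muB, Measure.smul_apply, smul_eq_mul]
  have : volume.restrict (ball (0 : E3) 1) s = 0 :=
    le_antisymm ((Measure.restrict_apply_le _ _).trans h.le) bot_le
  rw [this, mul_zero]

theorem sigma_ae_norm : ∀ᵐ x ∂sigma, ‖x‖ = 1 := by
  have hm : MeasurableSet {x : E3 | ‖x‖ = 1} := measurableSet_eq_fun (by fun_prop) (by fun_prop)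
  rw [sigma]
  apply Measure.ae_smul_measure
  rw [ae_map_iff measurable_nrm.aemeasurable hm]
  apply ae_restrict_of_ae
  have : ∀ᵐ x : E3, x ≠ 0 := by
    rw [ae_iff]
    simp
  filter_upwards [this] with x hx
  exact norm_nrm hx

/-- Triples of vectors. -/
abbrev Tri : Type := E3 × E3 × E3

noncomputable def muT : Measure Tri := muB.prod (muB.prod muB)

instance : IsProbabilityMeasure muT := by
  unfold muT
  infer_instance

noncomputable def u1 (v : Tri) : E3 := nrm v.1
noncomputable def w2 (v : Tri) : E3 := v.2.1 - ⟪v.2.1, u1 v⟫_ℝ • u1 v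
noncomputable def u2 (v : Tri) : E3 := nrm (w2 v)
noncomputable def w3 (v : Tri) : E3 := v.2.2 - ⟪v.2.2, u1 v⟫_ℝ • u1 v - ⟪v.2.2, u2 v⟫_ℝ • u2 v
noncomputable def u3 (v : Tri) : E3 := nrm (w3 v)

theorem measurable_u1 : Measurable u1 := measurable_nrm.comp measurable_fst
theorem measurable_w2 : Measurable w2 := by
  have := measurable_u1
  unfold w2
  fun_prop
theorem measurable_u2 : Measurable u2 := measurable_nrm.comp measurable_w2
theorem measurable_w3 : Measurable w3 := by
  have := measurable_u1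
  have := measurable_u2
  unfold w3
  fun_prop
theorem measurable_u3 : Measurable u3 := measurable_nrm.comp measurable_w3

/-- The random isometry. -/
noncomputable def gg (v : Tri) (y : E3) : E3 := !₂[⟪u1 v, y⟫_ℝ, ⟪u2 v, y⟫_ℝ, ⟪u3 v, y⟫_ℝ]

theorem measurable_gg : Measurable (fun p : Tri × E3 => gg p.1 p.2) := by
  have := measurable_u1
  have := measurable_u2
  have := measurable_u3
  unfold gg
  fun_prop

theorem measurable_gg_left (z : E3) : Measurable (fun v : Tri => gg v z) := by
  have := measurable_u1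
  have := measurable_u2
  have := measurable_u3
  unfold gg
  fun_prop

theorem nrm_map (U : E3 ≃ₗᵢ[ℝ] E3) (x : E3) : nrm (U x) = U (nrm x) := by
  simp [nrm]

/-- `U` on triples -/
noncomputable def triMap (U : E3 ≃ₗᵢ[ℝ] E3) (v : Tri) : Tri := (U v.1, U v.2.1, U v.2.2)

theorem triMap_measurePreserving (U : E3 ≃ₗᵢ[ℝ] E3) : MeasurePreserving (triMap U) muT muT :=
  (muB_isometry U).prod ((muB_isometry U).prod (muB_isometry U))

theorem u1_map (U : E3 ≃ₗᵢ[ℝ] E3) (v : Tri) : u1 (triMap U v) = U (u1 v) := nrm_map U _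

theorem w2_map (U : E3 ≃ₗᵢ[ℝ] E3) (v : Tri) : w2 (triMap U v) = U (w2 v) := by
  rw [w2, w2, u1_map]
  simp [triMap]

theorem u2_map (U : E3 ≃ₗᵢ[ℝ] E3) (v : Tri) : u2 (triMap U v) = U (u2 v) := by
  rw [u2, u2, w2_map, nrm_map]

theorem w3_map (U : E3 ≃ₗᵢ[ℝ] E3) (v : Tri) : w3 (triMap U v) = U (w3 v) := by
  rw [w3, w3, u1_map, u2_map]
  simp [triMap]

theorem u3_map (U : E3 ≃ₗᵢ[ℝ] E3) (v : Tri) : u3 (triMap U v) = U (u3 v) := by
  rw [u3, u3, w3_map, nrm_map]

theorem gg_map (U : E3 ≃ₗᵢ[ℝ] E3) (v : Tri) (y : E3) : gg (triMap U v) (U y) = gg v y := by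
  rw [gg, gg, u1_map, u2_map, u3_map]
  simp

/-- good triples -/
def good (v : Tri) : Prop := v.1 ≠ 0 ∧ w2 v ≠ 0 ∧ w3 v ≠ 0

theorem exists_of_good {v : Tri} (hv : good v) : ∃ V : E3 ≃ₗᵢ[ℝ] E3, ∀ y, gg v y = V y := by
  obtain ⟨h1, h2, h3⟩ := hv
  have n1 : ‖u1 v‖ = 1 := norm_nrm h1
  have n2 : ‖u2 v‖ = 1 := norm_nrm h2
  have n3 : ‖u3 v‖ = 1 := norm_nrm h3
  have i11 : ⟪u1 v, u1 v⟫_ℝ = 1 := by rw [real_inner_self_eq_norm_sq, n1]; norm_num
  have i22 : ⟪u2 v, u2 v⟫_ℝ = 1 := by rw [real_inner_self_eq_norm_sq, n2]; norm_num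
  have i12' : ⟪u1 v, w2 v⟫_ℝ = 0 := by
    rw [w2, inner_sub_right, inner_smul_right, i11, real_inner_comm]
    ring
  have i12 : ⟪u1 v, u2 v⟫_ℝ = 0 := by
    rw [u2, nrm, inner_smul_right, i12', mul_zero]
  have i13' : ⟪u1 v, w3 v⟫_ℝ = 0 := by
    rw [w3, inner_sub_right, inner_sub_right, inner_smul_right, inner_smul_right, i11, i12,
      real_inner_comm]
    ring
  have i13 : ⟪u1 v, u3 v⟫_ℝ = 0 := by
    rw [u3, nrm, inner_smul_right, i13', mul_zero]
  have i23' : ⟪u2 v, w3 v⟫_ℝ = 0 := by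
    rw [w3, inner_sub_right, inner_sub_right, inner_smul_right, inner_smul_right, i22,
      real_inner_comm (u1 v) (u2 v), i12, real_inner_comm (u2 v)]
    ring
  have i23 : ⟪u2 v, u3 v⟫_ℝ = 0 := by
    rw [u3, nrm, inner_smul_right, i23', mul_zero]
  have hon : Orthonormal ℝ ![u1 v, u2 v, u3 v] := by
    constructor
    · intro i
      fin_cases i
      · exact n1
      · exact n2
      · exact n3
    · intro i j hij
      fin_cases i <;> fin_cases j
      · exact absurd rfl hij
      · exact i12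
      · exact i13
      · change ⟪u2 v, u1 v⟫_ℝ = 0
        rw [real_inner_comm]; exact i12
      · exact absurd rfl hij
      · exact i23
      · change ⟪u3 v, u1 v⟫_ℝ = 0
        rw [real_inner_comm]; exact i13
      · change ⟪u3 v, u2 v⟫_ℝ = 0
        rw [real_inner_comm]; exact i23
      · exact absurd rfl hij
  have hcard : Fintype.card (Fin 3) = Module.finrank ℝ E3 := by simp
  let B := (basisOfOrthonormalOfCardEqFinrank hon hcard)
  have hB : ⇑B = ![u1 v, u2 v, u3 v] := coe_basisOfOrthonormalOfCardEqFinrank hon hcard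
  let O := B.toOrthonormalBasis (by rw [hB]; exact hon)
  have hO : ⇑O = ![u1 v, u2 v, u3 v] := by
    rw [Module.Basis.coe_toOrthonormalBasis, hB]
  refine ⟨O.repr, fun y => ?_⟩
  ext i
  rw [OrthonormalBasis.repr_apply_apply, hO]
  fin_cases i <;> rfl

theorem ae_good : ∀ᵐ v ∂muT, good v := by
  have h1 : ∀ᵐ v ∂muT, v.1 ≠ 0 := by
    have : ∀ᵐ x ∂muB, x ≠ 0 := by
      rw [ae_iff]
      exact muB_null (by simp)
    exact Measure.quasiMeasurePreserving_fst.ae this
  have h2 : ∀ᵐ v ∂muT, w2 v ≠ 0 := by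
    have hm : MeasurableSet {v : Tri | w2 v ≠ 0} :=
      (measurableSet_eq_fun measurable_w2 measurable_const).compl
    refine (Measure.ae_prod_mem_iff_ae_ae_mem (μ := muB) (ν := muB.prod muB) hm).2
      (Eventually.of_forall fun x => ?_)
    have h3 : ∀ᵐ y ∂muB, y ∉ (ℝ ∙ nrm x : Submodule ℝ E3) := by
      rw [ae_iff]
      apply muB_null
      simp only [not_not]
      refine Measure.addHaar_submodule volume (ℝ ∙ nrm x : Submodule ℝ E3) ?_
      intro htop
      have h4 : Module.finrank ℝ (ℝ ∙ nrm x : Submodule ℝ E3) ≤ 1 := by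
        have := finrank_span_finset_le_card (R := ℝ) ({nrm x} : Finset E3)
        rw [Finset.coe_singleton, Finset.card_singleton] at this
        exact this
      rw [htop, finrank_top] at h4
      simp at h4
    filter_upwards [Measure.quasiMeasurePreserving_fst.ae h3] with p hp
    intro h0
    apply hp
    have : p.1 = ⟪p.1, nrm x⟫_ℝ • nrm x := sub_eq_zero.1 h0
    rw [this]
    exact Submodule.smul_mem _ _ (Submodule.mem_span_singleton_self _)
  have h3 : ∀ᵐ v ∂muT, w3 v ≠ 0 := by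
    have hm : MeasurableSet {v : Tri | w3 v ≠ 0} :=
      (measurableSet_eq_fun measurable_w3 measurable_const).compl
    refine (Measure.ae_prod_mem_iff_ae_ae_mem (μ := muB) (ν := muB.prod muB) hm).2
      (Eventually.of_forall fun x => ?_)
    have hm2 : MeasurableSet {p : E3 × E3 | w3 (x, p) ≠ 0} :=
      (measurable_prodMk_left : Measurable (Prod.mk x : E3 × E3 → Tri)) hm
    have h5 := (Measure.ae_prod_mem_iff_ae_ae_mem (μ := muB) (ν := muB) hm2).2
    refine h5 (Eventually.of_forall fun y => ?_)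
    set a : E3 := nrm x
    set b : E3 := nrm (y - ⟪y, a⟫_ℝ • a)
    have h6 : ∀ᵐ z ∂muB, z ∉ (Submodule.span ℝ {a, b} : Submodule ℝ E3) := by
      rw [ae_iff]
      apply muB_null
      simp only [not_not]
      refine Measure.addHaar_submodule volume (Submodule.span ℝ {a, b} : Submodule ℝ E3) ?_
      intro htop
      have h4 : Module.finrank ℝ (Submodule.span ℝ {a, b} : Submodule ℝ E3) ≤ 2 := by
        have := finrank_span_finset_le_card (R := ℝ) ({a, b} : Finset E3)
        rw [Finset.coe_pair] at this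
        exact this.trans Finset.card_le_two
      rw [htop, finrank_top] at h4
      simp at h4
    filter_upwards [h6] with z hz
    intro h0
    apply hz
    have : z = ⟪z, a⟫_ℝ • a + ⟪z, b⟫_ℝ • b := by
      have h7 : z - ⟪z, a⟫_ℝ • a - ⟪z, b⟫_ℝ • b = 0 := h0
      rw [sub_sub] at h7
      exact sub_eq_zero.1 h7
    rw [this]
    exact Submodule.add_mem _ (Submodule.smul_mem _ _ (Submodule.subset_span (by simp)))
      (Submodule.smul_mem _ _ (Submodule.subset_span (by simp)))
  filter_upwards [h1, h2, h3] with v a b c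
  exact ⟨a, b, c⟩

/-- The image of a unit vector under the random isometry is uniform on the sphere. -/
theorem lintegral_gg {F : E3 → ℝ≥0∞} (hF : Measurable F) {y : E3} (hy : ‖y‖ = 1) :
    ∫⁻ v, F (gg v y) ∂muT = ∫⁻ x, F x ∂sigma := by
  have hFg : Measurable (fun p : Tri × E3 => F (gg p.1 p.2)) := hF.comp measurable_gg
  have hFy : ∀ z : E3, Measurable (fun v : Tri => F (gg v z)) := fun z =>
    hF.comp (measurable_gg_left z)
  have hconst : ∀ z : E3, ‖z‖ = 1 → ∫⁻ v, F (gg v z) ∂muT = ∫⁻ v, F (gg v y) ∂muT := by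
    intro z hz
    obtain ⟨U, hU⟩ := exists_isometry (x := z) (y := y) (by rw [hy, hz])
    have hm : Measurable (fun v : Tri => F (gg v y)) := hFy y
    rw [← (triMap_measurePreserving U).lintegral_comp hm]
    refine lintegral_congr fun v => ?_
    rw [← hU, gg_map]
  have h1 : ∫⁻ z, ∫⁻ v, F (gg v z) ∂muT ∂sigma = ∫⁻ v, F (gg v y) ∂muT := by
    have : ∀ᵐ z ∂sigma, ∫⁻ v, F (gg v z) ∂muT = ∫⁻ v, F (gg v y) ∂muT := by
      filter_upwards [sigma_ae_norm] with z hz
      exact hconst z hz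
    rw [lintegral_congr_ae this]
    simp
  have h2 : ∫⁻ z, ∫⁻ v, F (gg v z) ∂muT ∂sigma = ∫⁻ v, ∫⁻ z, F (gg v z) ∂sigma ∂muT := by
    rw [lintegral_lintegral_swap]
    exact (hFg.comp measurable_swap).aemeasurable
  have h3 : ∫⁻ v, ∫⁻ z, F (gg v z) ∂sigma ∂muT = ∫⁻ x, F x ∂sigma := by
    have : ∀ᵐ v ∂muT, ∫⁻ z, F (gg v z) ∂sigma = ∫⁻ x, F x ∂sigma := by
      filter_upwards [ae_good] with v hv
      obtain ⟨V, hV⟩ := exists_of_good hv
      simp_rw [hV]
      exact (measurePreserving_isometry V).lintegral_comp hF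
    rw [lintegral_congr_ae this]
    simp
  rw [← h1, h2, h3]

end Pool.Agent.Lib.MP_b06be4_an.Lim
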