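import Pool.Agent.Lib.MP_b06be4_an.Lim.Chart
import Pool.Agent.Lib.MP_b06be4_an.Lim.Iso
import Pool.Agent.Lib.MP_b06be4_an.Lim.Emin

/-!
# MP_b06be4_an, existence of the limit: the random configuration

The sphere is cut into cells (labels `L y`), each of small diameter.  Each cell is filled with an
independent randomly rotated and rescaled copy of a given configuration.
-/

open MeasureTheory Set Filter Metric ProbabilityTheory
open scoped ENNReal NNReal Topology InnerProductSpace

namespace Pool.Agent.Lib.MP_b06be4_an.Lim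

/-- The inverse square kernel. -/
noncomputable def WW (y z : E3) : ℝ≥0∞ := ENNReal.ofReal (1 / ‖y - z‖ ^ 2)

theorem measurable_WW : Measurable (fun p : E3 × E3 => WW p.1 p.2) := by
  unfold WW
  fun_prop

theorem WW_comm (y z : E3) : WW y z = WW z y := by
  rw [WW, WW, norm_sub_rev]

/-- two coordinates of a product measure -/
theorem lintegral_pi_pair {ι : Type} [Fintype ι] {Ω : Type} [MeasurableSpace Ω] (μ : Measure Ω)
    [IsProbabilityMeasure μ] {s t : ι} (hst : s ≠ t) {G : Ω × Ω → ℝ≥0∞} (hG : Measurable G) :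
    ∫⁻ θ, G (θ s, θ t) ∂(Measure.pi fun _ : ι => μ) = ∫⁻ u, ∫⁻ v, G (u, v) ∂μ ∂μ := by
  classical
  have h1 : IndepFun (fun θ : ι → Ω => θ s) (fun θ : ι → Ω => θ t) (Measure.pi fun _ : ι => μ) :=
    (iIndepFun_pi (μ := fun _ : ι => μ) (X := fun _ => id)
      fun _ => aemeasurable_id).indepFun hst
  rw [indepFun_iff_map_prod_eq_prod_map_map (measurable_pi_apply s).aemeasurable
    (measurable_pi_apply t).aemeasurable] at h1
  have h2 : (Measure.pi fun _ : ι => μ).map (fun θ : ι → Ω => θ s) = μ :=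
    (measurePreserving_eval (fun _ : ι => μ) s).map_eq
  have h3 : (Measure.pi fun _ : ι => μ).map (fun θ : ι → Ω => θ t) = μ :=
    (measurePreserving_eval (fun _ : ι => μ) t).map_eq
  rw [h2, h3] at h1
  rw [← lintegral_map (f := G) (g := fun θ : ι → Ω => (θ s, θ t)) hG (by fun_prop), h1,
    lintegral_prod _ hG.aemeasurable]

section

variable {M : ℕ} (x : Fin M → E3) (a δ : ℝ) {ι : Type} (L : E3 → ι) (U : ι → E3 ≃ₗᵢ[ℝ] E3)

/-- The points of the patches. -/
noncomputable def pt (s : ι) (i : Fin M) (θ : Tri) : E3 := U s (beta a (gg θ (x i)))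

/-- The event that the point is used. -/
def ok (s : ι) (i : Fin M) : Set Tri :=
  {θ | ‖gg θ (x i) - e3‖ < δ ∧ L (pt x a U s i θ) = s}

theorem measurable_pt (s : ι) (i : Fin M) : Measurable (pt x a U s i) :=
  (U s).continuous.measurable.comp ((measurable_beta a).comp (measurable_gg_left (x i)))

variable [MeasurableSpace ι] [MeasurableSingletonClass ι]

theorem measurableSet_ok (hL : Measurable L) (s : ι) (i : Fin M) :
    MeasurableSet (ok x a δ L U s i) := by
  have h1 : MeasurableSet {θ : Tri | ‖gg θ (x i) - e3‖ < δ} := by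
    have := measurable_gg_left (x i)
    exact measurableSet_lt (by fun_prop) measurable_const
  have h2 : MeasurableSet ((fun θ => L (pt x a U s i θ)) ⁻¹' {s}) :=
    (hL.comp (measurable_pt x a U s i)) (measurableSet_singleton s)
  exact h1.inter h2

/-- The intensity of the points of a cell. -/
theorem lintegral_ok (hx : ∀ i, ‖x i‖ = 1) (ha0 : 0 < a) (ha1 : a ≤ 1) (hδ0 : 0 < δ)
    (hδ1 : δ ≤ 1 / 2) (hL : Measurable L) (hU : ∀ y, ‖y‖ = 1 → ‖y - U (L y) e3‖ < a * δ)
    (s : ι) (i : Fin M) {F : E3 → ℝ≥0∞} (hF : Measurable F) :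
    ∫⁻ θ, (ok x a δ L U s i).indicator (fun θ => F (pt x a U s i θ)) θ ∂muT =
      ENNReal.ofReal ((a ^ 2)⁻¹) * ∫⁻ y, (L ⁻¹' {s}).indicator F y ∂sigma := by
  have hset : MeasurableSet (L ⁻¹' {s}) := hL (measurableSet_singleton s)
  set G : E3 → ℝ≥0∞ := fun y => (L ⁻¹' {s}).indicator F (U s y) with hG
  have hGm : Measurable G := (hF.indicator hset).comp (U s).continuous.measurable
  have h1 : ∀ θ, (ok x a δ L U s i).indicator (fun θ => F (pt x a U s i θ)) θ =
      {y : E3 | ‖y - e3‖ < δ}.indicator (fun y => G (beta a y)) (gg θ (x i)) := by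
    intro θ
    by_cases h2 : ‖gg θ (x i) - e3‖ < δ
    · rw [indicator_of_mem (show gg θ (x i) ∈ {y : E3 | ‖y - e3‖ < δ} from h2)]
      by_cases h3 : L (pt x a U s i θ) = s
      · rw [indicator_of_mem (show θ ∈ ok x a δ L U s i from ⟨h2, h3⟩)]
        simp only [hG]
        rw [indicator_of_mem]
        · rfl
        · exact h3
      · rw [indicator_of_notMem (show θ ∉ ok x a δ L U s i from fun h => h3 h.2)]
        simp only [hG]
        rw [indicator_of_notMem]
        exact h3
    · rw [indicator_of_notMem (show θ ∉ ok x a δ L U s i from fun h => h2 h.1),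
        indicator_of_notMem (show gg θ (x i) ∉ {y : E3 | ‖y - e3‖ < δ} from h2)]
  simp_rw [h1]
  have hm1 : MeasurableSet {y : E3 | ‖y - e3‖ < δ} := measurableSet_lt (by fun_prop) (by fun_prop)
  have hm2 : MeasurableSet {y : E3 | ‖y - e3‖ < a * δ} :=
    measurableSet_lt (by fun_prop) (by fun_prop)
  rw [lintegral_gg (F := {y : E3 | ‖y - e3‖ < δ}.indicator (fun y => G (beta a y)))
    ((hGm.comp (measurable_beta a)).indicator hm1) (hx i), lintegral_beta ha0 ha1 hδ0 hδ1 hGm]
  congr 1
  -- rotation by `U s`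
  have h4 : ∀ y, {y : E3 | ‖y - e3‖ < a * δ}.indicator G y =
      {z : E3 | ‖z - U s e3‖ < a * δ}.indicator ((L ⁻¹' {s}).indicator F) (U s y) := by
    intro y
    have h5 : ‖U s y - U s e3‖ = ‖y - e3‖ := by
      rw [← map_sub, LinearIsometryEquiv.norm_map]
    by_cases h6 : ‖y - e3‖ < a * δ
    · rw [indicator_of_mem (show y ∈ {y : E3 | ‖y - e3‖ < a * δ} from h6), indicator_of_mem]
      change ‖U s y - U s e3‖ < a * δ
      rwa [h5]
    · rw [indicator_of_notMem (show y ∉ {y : E3 | ‖y - e3‖ < a * δ} from h6), indicator_of_notMem]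
      change ¬ (‖U s y - U s e3‖ < a * δ)
      rwa [h5]
  simp_rw [h4]
  have hm3 : MeasurableSet {z : E3 | ‖z - U s e3‖ < a * δ} :=
    measurableSet_lt (by fun_prop) (by fun_prop)
  rw [(measurePreserving_isometry (U s)).lintegral_comp ((hF.indicator hset).indicator hm3)]
  apply lintegral_congr_ae
  filter_upwards [sigma_ae_norm] with y hy
  by_cases h7 : L y = s
  · rw [indicator_of_mem]
    change ‖y - U s e3‖ < a * δ
    rw [← h7]
    exact hU y hy
  · have h8 : (L ⁻¹' {s}).indicator F y = 0 :=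
      indicator_of_notMem (show y ∉ L ⁻¹' {s} from h7) F
    rw [h8]
    by_cases h9 : y ∈ {z : E3 | ‖z - U s e3‖ < a * δ}
    · rw [indicator_of_mem h9, h8]
    · rw [indicator_of_notMem h9]

end

end Pool.Agent.Lib.MP_b06be4_an.Lim
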