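import Pool.Agent.Lib.MP_b06be4_an.Lim.Source
import Pool.Agent.Lib.MP_b06be4_an.Lim.Patch

/-!
# MP_b06be4_an, existence of the limit: integrals over pairs of points, and `JJ`
-/

open MeasureTheory Set Filter Metric
open scoped ENNReal NNReal Topology InnerProductSpace

namespace Pool.Agent.Lib.MP_b06be4_an.Lim

theorem lintegral_pair {f : ℝ → ℝ} (hf : Measurable f)
    (hf0 : ∀ r ∈ Ioo (0 : ℝ) 2, 0 ≤ f r)
    (hfi : IntervalIntegrable (fun r => r / 2 * f r) volume 0 2) :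
    ∫⁻ p, ENNReal.ofReal (f ‖p.1 - p.2‖) ∂(sigma.prod sigma) =
      ENNReal.ofReal (∫ r in (0 : ℝ)..2, r / 2 * f r) := by
  have hm : Measurable fun p : E3 × E3 => ENNReal.ofReal (f ‖p.1 - p.2‖) := by fun_prop
  rw [lintegral_prod _ hm.aemeasurable]
  have h1 : ∫⁻ y, ∫⁻ z, ENNReal.ofReal (f ‖y - z‖) ∂sigma ∂sigma =
      ∫⁻ _, ENNReal.ofReal (∫ r in (0 : ℝ)..2, r / 2 * f r) ∂sigma := by
    apply lintegral_congr_ae
    filter_upwards [sigma_ae_norm] with y hy
    exact lintegral_radial_ofReal hf hf0 hfi hy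
  rw [h1]
  simp

theorem lintegral_one_sub_pow (K : ℕ) :
    ∫⁻ p, ENNReal.ofReal (1 - tt p.1 p.2 ^ K) * WW p.1 p.2 ∂(sigma.prod sigma) =
      ENNReal.ofReal (JJ K) := by
  set f : ℝ → ℝ := fun r => (1 - (1 - r / 4) ^ K) * (1 / r ^ 2) with hf
  set g : ℝ → ℝ := fun r => ∑ j ∈ Finset.range K, (1 / 8) * (1 - r / 4) ^ j with hg
  have hfg : ∀ r ∈ uIoc (0 : ℝ) 2, r / 2 * f r = g r := by
    intro r hr
    rw [uIoc_of_le (by norm_num)] at hr
    have hr0 : r ≠ 0 := hr.1.ne'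
    have h5 := mul_neg_geom_sum (1 - r / 4) K
    simp only [hf, hg]
    rw [← h5, ← Finset.mul_sum]
    field_simp
    ring
  have hgi : IntervalIntegrable g volume 0 2 := by
    apply Continuous.intervalIntegrable
    simp only [hg]
    fun_prop
  have hfi : IntervalIntegrable (fun r => r / 2 * f r) volume 0 2 :=
    hgi.congr fun r hr => (hfg r hr).symm
  have hfm : Measurable f := by
    simp only [hf]
    fun_prop
  have hint : ∫ r in (0 : ℝ)..2, r / 2 * f r = JJ K := by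
    rw [intervalIntegral.integral_congr_ae (Eventually.of_forall hfg)]
    simp only [hg]
    rw [intervalIntegral.integral_finsetSum]
    · rw [JJ, Finset.mul_sum]
      refine Finset.sum_congr rfl fun j _ => ?_
      rw [intervalIntegral.integral_const_mul, integral_pow_one_sub]
      ring
    · intro j _
      apply Continuous.intervalIntegrable
      fun_prop
  have hf0 : ∀ r ∈ Ioo (0 : ℝ) 2, 0 ≤ f r := by
    intro r hr
    have h1 : (1 - r / 4) ^ K ≤ 1 := pow_le_one₀ (by linarith [hr.2]) (by linarith [hr.1])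
    simp only [hf]
    have : 0 ≤ 1 - (1 - r / 4) ^ K := by linarith
    positivity
  rw [← hint, ← lintegral_pair hfm hf0 hfi]
  apply lintegral_congr_ae
  have hae : ∀ᵐ p : E3 × E3 ∂(sigma.prod sigma), ‖p.1‖ = 1 ∧ ‖p.2‖ = 1 := by
    have h1 : ∀ᵐ p : E3 × E3 ∂(sigma.prod sigma), ‖p.1‖ = 1 :=
      Measure.quasiMeasurePreserving_fst.ae sigma_ae_norm
    have h2 : ∀ᵐ p : E3 × E3 ∂(sigma.prod sigma), ‖p.2‖ = 1 :=
      Measure.quasiMeasurePreserving_snd.ae sigma_ae_norm
    filter_upwards [h1, h2] with p hp1 hp2 using ⟨hp1, hp2⟩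
  filter_upwards [hae] with p hp
  have h2 := tt_mem hp.1 hp.2
  have h3 : tt p.1 p.2 ^ K ≤ 1 := pow_le_one₀ (by linarith) h2.2
  rw [WW, ← ENNReal.ofReal_mul (by linarith)]
  rfl

theorem lintegral_mul_pow_le (K : ℕ) :
    ∫⁻ p, ENNReal.ofReal ‖p.1 - p.2‖ * (ENNReal.ofReal (tt p.1 p.2 ^ K) * WW p.1 p.2)
      ∂(sigma.prod sigma) ≤ ENNReal.ofReal (2 / (K + 1)) := by
  set f : ℝ → ℝ := fun r => r * ((1 - r / 4) ^ K * (1 / r ^ 2)) with hf
  set g : ℝ → ℝ := fun r => (1 / 2) * (1 - r / 4) ^ K with hg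
  have hfg : ∀ r ∈ uIoc (0 : ℝ) 2, r / 2 * f r = g r := by
    intro r hr
    rw [uIoc_of_le (by norm_num)] at hr
    have hr0 : r ≠ 0 := hr.1.ne'
    simp only [hf, hg]
    field_simp
  have hgi : IntervalIntegrable g volume 0 2 := by
    apply Continuous.intervalIntegrable
    simp only [hg]
    fun_prop
  have hfi : IntervalIntegrable (fun r => r / 2 * f r) volume 0 2 :=
    hgi.congr fun r hr => (hfg r hr).symm
  have hfm : Measurable f := by
    simp only [hf]
    fun_prop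
  have hint : ∫ r in (0 : ℝ)..2, r / 2 * f r ≤ 2 / (K + 1) := by
    rw [intervalIntegral.integral_congr_ae (Eventually.of_forall hfg)]
    simp only [hg]
    rw [intervalIntegral.integral_const_mul, integral_pow_one_sub]
    have h1 : (0 : ℝ) ≤ (1 / 2 : ℝ) ^ (K + 1) := by positivity
    have h2 : (0 : ℝ) < (K : ℝ) + 1 := by positivity
    rw [← mul_div_assoc, div_le_div_iff_of_pos_right h2]
    linarith
  have hf0 : ∀ r ∈ Ioo (0 : ℝ) 2, 0 ≤ f r := by
    intro r hr
    have h1 : 0 ≤ 1 - r / 4 := by linarith [hr.2]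
    have h2 := hr.1
    simp only [hf]
    positivity
  refine le_trans (le_of_eq ?_) (ENNReal.ofReal_le_ofReal hint)
  rw [← lintegral_pair hfm hf0 hfi]
  apply lintegral_congr_ae
  have hae : ∀ᵐ p : E3 × E3 ∂(sigma.prod sigma), ‖p.1‖ = 1 ∧ ‖p.2‖ = 1 := by
    have h1 : ∀ᵐ p : E3 × E3 ∂(sigma.prod sigma), ‖p.1‖ = 1 :=
      Measure.quasiMeasurePreserving_fst.ae sigma_ae_norm
    have h2 : ∀ᵐ p : E3 × E3 ∂(sigma.prod sigma), ‖p.2‖ = 1 :=
      Measure.quasiMeasurePreserving_snd.ae sigma_ae_norm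
    filter_upwards [h1, h2] with p hp1 hp2 using ⟨hp1, hp2⟩
  filter_upwards [hae] with p hp
  have h2 := tt_mem hp.1 hp.2
  have h3 : 0 ≤ tt p.1 p.2 := by linarith
  rw [WW, ← ENNReal.ofReal_mul (by positivity), ← ENNReal.ofReal_mul (norm_nonneg _)]
  rfl

/-- growth of `JJ` -/
theorem JJ_sub_le {k K : ℕ} (hk : 1 ≤ k) (hkK : k ≤ K) :
    JJ K - JJ k ≤ (1 / 2) * Real.log (K / k) := by
  induction K, hkK using Nat.le_induction with
  | base =>
    have : (k : ℝ) ≠ 0 := by positivity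
    rw [div_self this]
    simp
  | succ K hkK ih =>
    have hK : 1 ≤ K := hk.trans hkK
    have hK0 : (0 : ℝ) < K := by exact_mod_cast hK
    have hk0 : (0 : ℝ) < k := by exact_mod_cast hk
    have h1 : JJ (K + 1) = JJ K + (1 / 2) * ((1 - (1 / 2 : ℝ) ^ (K + 1)) / (K + 1)) := by
      rw [JJ, JJ, Finset.sum_range_succ]
      ring
    have h2 : (1 - (1 / 2 : ℝ) ^ (K + 1)) / (K + 1) ≤ 1 / (K + 1) := by
      apply div_le_div_of_nonneg_right _ (by positivity)
      have : (0 : ℝ) ≤ (1 / 2 : ℝ) ^ (K + 1) := by positivity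
      linarith
    have h3 : 1 / ((K : ℝ) + 1) ≤ Real.log (((K + 1 : ℕ) : ℝ) / k) - Real.log (K / k) := by
      rw [← Real.log_div (by positivity) (by positivity)]
      have h4 : (((K + 1 : ℕ) : ℝ) / k) / (K / k) = (K + 1) / K := by
        push_cast
        field_simp
      rw [h4]
      have h5 := Real.one_sub_inv_le_log_of_pos (show (0 : ℝ) < (K + 1) / K by positivity)
      refine le_trans (le_of_eq ?_) h5
      field_simp
      ring
    rw [h1]
    linarith

theorem JJ_nonneg (k : ℕ) : 0 ≤ JJ k := by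
  rw [JJ]
  apply mul_nonneg (by norm_num)
  apply Finset.sum_nonneg
  intro j _
  apply div_nonneg _ (by positivity)
  have : (1 / 2 : ℝ) ^ (j + 1) ≤ 1 := pow_le_one₀ (by norm_num) (by norm_num)
  linarith

end Pool.Agent.Lib.MP_b06be4_an.Lim
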