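import Pool.Agent.Lib.MP_b06be4_an.Lim.Sigma

/-!
# MP_b06be4_an, existence of the limit: `sigma` in Lambert coordinates
-/

open MeasureTheory Set Filter Metric
open scoped ENNReal NNReal Topology

namespace Pool.Agent.Lib.MP_b06be4_an.Lim

/-- the square root factor -/
noncomputable def qq (w : Fin 3 → ℝ) : ℝ := Real.sqrt (1 - (w 0 ^ 2 + w 1 ^ 2) / 4)

/-- `(l, s) ↦ s • lam l`, in coordinates. -/
noncomputable def psi (w : Fin 3 → ℝ) : Fin 3 → ℝ :=
  ![w 2 * (qq w * w 0), w 2 * (qq w * w 1), w 2 * (1 - (w 0 ^ 2 + w 1 ^ 2) / 2)]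

/-- The Jacobian matrix of `psi`. -/
noncomputable def jac (w : Fin 3 → ℝ) : Matrix (Fin 3) (Fin 3) ℝ :=
  !![w 2 * (qq w - w 0 ^ 2 / (4 * qq w)), -(w 2 * (w 0 * w 1 / (4 * qq w))), qq w * w 0;
    -(w 2 * (w 0 * w 1 / (4 * qq w))), w 2 * (qq w - w 1 ^ 2 / (4 * qq w)), qq w * w 1;
    -(w 2 * w 0), -(w 2 * w 1), 1 - (w 0 ^ 2 + w 1 ^ 2) / 2]

/-- The domain. -/
def dom : Set (Fin 3 → ℝ) := {w | w 0 ^ 2 + w 1 ^ 2 < 4 ∧ 0 < w 2 ∧ w 2 < 1}

theorem qq_pos {w : Fin 3 → ℝ} (hw : w 0 ^ 2 + w 1 ^ 2 < 4) : 0 < qq w :=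
  Real.sqrt_pos.2 (by linarith)

theorem qq_sq {w : Fin 3 → ℝ} (hw : w 0 ^ 2 + w 1 ^ 2 < 4) :
    qq w ^ 2 = 1 - (w 0 ^ 2 + w 1 ^ 2) / 4 :=
  Real.sq_sqrt (by linarith)

theorem det_jac {w : Fin 3 → ℝ} (hw : w 0 ^ 2 + w 1 ^ 2 < 4) : (jac w).det = w 2 ^ 2 := by
  have h1 := qq_pos hw
  have h2 := qq_sq hw
  rw [jac, Matrix.det_fin_three]
  simp only [Matrix.of_apply, Matrix.cons_val', Matrix.cons_val_zero, Matrix.cons_val_one,
    Matrix.cons_val]
  generalize w 0 = a at *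
  generalize w 1 = b at *
  generalize w 2 = c at *
  generalize qq w = q at *
  have h3 : b ^ 2 = 4 - 4 * q ^ 2 - a ^ 2 := by linarith
  field_simp
  have h4 : b ^ 4 = (4 - 4 * q ^ 2 - a ^ 2) ^ 2 := by rw [← h3]; ring
  ring_nf
  rw [h4, h3]
  ring

theorem hasFDerivAt_qq {w : Fin 3 → ℝ} (hw : w 0 ^ 2 + w 1 ^ 2 < 4) :
    HasFDerivAt qq ((-(w 0 / (4 * qq w))) • (ContinuousLinearMap.proj 0 : (Fin 3 → ℝ) →L[ℝ] ℝ) +
      (-(w 1 / (4 * qq w))) • (ContinuousLinearMap.proj 1 : (Fin 3 → ℝ) →L[ℝ] ℝ)) w := by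
  have h0 : HasFDerivAt (fun w : Fin 3 → ℝ => w 0)
      (ContinuousLinearMap.proj 0 : (Fin 3 → ℝ) →L[ℝ] ℝ) w := hasFDerivAt_apply 0 w
  have h1 : HasFDerivAt (fun w : Fin 3 → ℝ => w 1)
      (ContinuousLinearMap.proj 1 : (Fin 3 → ℝ) →L[ℝ] ℝ) w := hasFDerivAt_apply 1 w
  have h2 := (((h0.pow 2).add (h1.pow 2)).mul_const (1 / 4)).const_sub 1
  have h3 := h2.sqrt (by simp only [Pi.add_apply]; linarith)
  have hq := qq_pos hw
  refine HasFDerivAt.congr_fderiv (h3.congr_of_eventuallyEq (Eventually.of_forall fun x => ?_)) ?_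
  · simp only [qq, Pi.add_apply]
    ring_nf
  · have e : Real.sqrt (1 - (((fun w : Fin 3 → ℝ => w 0) ^ 2 + (fun w : Fin 3 → ℝ => w 1) ^ 2) w *
        (1 / 4))) = qq w := by
      simp only [qq, Pi.add_apply, Pi.pow_apply]
      ring_nf
    have e' : Real.sqrt (1 - (w 0 ^ 2 + w 1 ^ 2) * 4⁻¹) = qq w := by
      rw [qq]
      ring_nf
    ext v
    simp
    rw [e']
    ring

theorem hasFDerivAt_psi {w : Fin 3 → ℝ} (hw : w ∈ dom) :
    HasFDerivAt psi (Matrix.toLin' (jac w)).toContinuousLinearMap w := by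
  have h0 : HasFDerivAt (fun w : Fin 3 → ℝ => w 0)
      (ContinuousLinearMap.proj 0 : (Fin 3 → ℝ) →L[ℝ] ℝ) w := hasFDerivAt_apply 0 w
  have h1 : HasFDerivAt (fun w : Fin 3 → ℝ => w 1)
      (ContinuousLinearMap.proj 1 : (Fin 3 → ℝ) →L[ℝ] ℝ) w := hasFDerivAt_apply 1 w
  have h2 : HasFDerivAt (fun w : Fin 3 → ℝ => w 2)
      (ContinuousLinearMap.proj 2 : (Fin 3 → ℝ) →L[ℝ] ℝ) w := hasFDerivAt_apply 2 w
  have hq := hasFDerivAt_qq hw.1
  rw [hasFDerivAt_pi']
  intro i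
  fin_cases i
  · refine HasFDerivAt.congr_fderiv (h2.mul (hq.mul h0)) ?_
    ext v
    simp [jac, Matrix.toLin'_apply, dotProduct, Fin.sum_univ_three]
    ring
  · refine HasFDerivAt.congr_fderiv (h2.mul (hq.mul h1)) ?_
    ext v
    simp [jac, Matrix.toLin'_apply, dotProduct, Fin.sum_univ_three]
    ring
  · have h3 := h2.mul ((((h0.pow 2).add (h1.pow 2)).mul_const (1 / 2)).const_sub 1)
    refine HasFDerivAt.congr_fderiv (h3.congr_of_eventuallyEq (Eventually.of_forall fun x => ?_)) ?_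
    · simp [psi]
      ring_nf
      simp
    · ext v
      simp [jac, Matrix.toLin'_apply, dotProduct, Fin.sum_univ_three]
      ring

theorem psi_zero (w : Fin 3 → ℝ) : psi w 0 = w 2 * (qq w * w 0) := rfl
theorem psi_one (w : Fin 3 → ℝ) : psi w 1 = w 2 * (qq w * w 1) := rfl
theorem psi_two (w : Fin 3 → ℝ) : psi w 2 = w 2 * (1 - (w 0 ^ 2 + w 1 ^ 2) / 2) := rfl

theorem psi_sq {w : Fin 3 → ℝ} (hw : w 0 ^ 2 + w 1 ^ 2 < 4) :
    psi w 0 ^ 2 + psi w 1 ^ 2 + psi w 2 ^ 2 = w 2 ^ 2 := by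
  rw [psi_zero, psi_one, psi_two]
  have h := qq_sq hw
  linear_combination (w 2 ^ 2 * (w 0 ^ 2 + w 1 ^ 2)) * h

theorem injOn_psi : InjOn psi dom := by
  intro v hv w hw h
  have hv1 := psi_sq hv.1
  have hw1 := psi_sq hw.1
  rw [h, hw1] at hv1
  have h2 : w 2 = v 2 := by
    have a := hv.2.1
    have b := hw.2.1
    nlinarith [sq_nonneg (w 2 - v 2), sq_nonneg (w 2 + v 2)]
  have hv2 := hv.2.1
  have hz : psi v 2 = psi w 2 := by rw [h]
  rw [psi_two, psi_two, h2] at hz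
  have h3 : v 0 ^ 2 + v 1 ^ 2 = w 0 ^ 2 + w 1 ^ 2 := by
    have := mul_left_cancel₀ hv2.ne' hz
    linarith
  have h4 : qq v = qq w := by
    rw [qq, qq, h3]
  have h5 := qq_pos hw.1
  have hx : psi v 0 = psi w 0 := by rw [h]
  have hy : psi v 1 = psi w 1 := by rw [h]
  rw [psi_zero, psi_zero, h2, h4] at hx
  rw [psi_one, psi_one, h2, h4] at hy
  have hx' := mul_left_cancel₀ h5.ne' (mul_left_cancel₀ hv2.ne' hx)
  have hy' := mul_left_cancel₀ h5.ne' (mul_left_cancel₀ hv2.ne' hy)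
  ext i
  fin_cases i
  · exact hx'
  · exact hy'
  · exact h2.symm

theorem measurableSet_dom : MeasurableSet dom := by
  have h : dom = {w : Fin 3 → ℝ | w 0 ^ 2 + w 1 ^ 2 < 4} ∩ ({w | 0 < w 2} ∩ {w | w 2 < 1}) := rfl
  rw [h]
  exact (measurableSet_lt (by fun_prop) (by fun_prop)).inter
    ((measurableSet_lt (by fun_prop) (by fun_prop)).inter
      (measurableSet_lt (by fun_prop) (by fun_prop)))

/-- the image of `psi`: the unit ball without the nonpositive vertical axis -/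
theorem image_psi : psi '' dom =
    {x : Fin 3 → ℝ | x 0 ^ 2 + x 1 ^ 2 + x 2 ^ 2 < 1 ∧ (x 0 ^ 2 + x 1 ^ 2 ≠ 0 ∨ 0 < x 2)} := by
  ext x
  constructor
  · rintro ⟨w, hw, rfl⟩
    have h1 := psi_sq hw.1
    have h5 := qq_pos hw.1
    refine ⟨?_, ?_⟩
    · rw [h1]
      have a := hw.2.1
      have b := hw.2.2
      nlinarith
    · by_cases h : w 0 ^ 2 + w 1 ^ 2 = 0
      · right
        rw [psi_two, h]
        have a := hw.2.1
        linarith
      · left
        rw [psi_zero, psi_one]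
        have : (w 2 * (qq w * w 0)) ^ 2 + (w 2 * (qq w * w 1)) ^ 2 =
            (w 2 * qq w) ^ 2 * (w 0 ^ 2 + w 1 ^ 2) := by ring
        rw [this]
        exact mul_ne_zero (pow_ne_zero 2 (mul_pos hw.2.1 h5).ne') h
  · rintro ⟨h1, h2⟩
    set s : ℝ := Real.sqrt (x 0 ^ 2 + x 1 ^ 2 + x 2 ^ 2) with hs
    have hpos : 0 < x 0 ^ 2 + x 1 ^ 2 + x 2 ^ 2 := by
      rcases h2 with h2 | h2
      · have : 0 < x 0 ^ 2 + x 1 ^ 2 := lt_of_le_of_ne (by positivity) (Ne.symm h2)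
        nlinarith [sq_nonneg (x 2)]
      · have : 0 < x 2 ^ 2 := by positivity
        nlinarith [sq_nonneg (x 0), sq_nonneg (x 1)]
    have hs0 : 0 < s := Real.sqrt_pos.2 hpos
    have hs2 : s ^ 2 = x 0 ^ 2 + x 1 ^ 2 + x 2 ^ 2 := Real.sq_sqrt hpos.le
    have hs1 : s < 1 := by
      by_contra hcon
      push Not at hcon
      nlinarith
    -- `u = (1 + x2/s)/2`
    have hxs : -s < x 2 := by
      rcases h2 with h2 | h2
      · have : 0 < x 0 ^ 2 + x 1 ^ 2 := lt_of_le_of_ne (by positivity) (Ne.symm h2)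
        by_contra hcon
        push Not at hcon
        nlinarith
      · linarith
    set u : ℝ := (1 + x 2 / s) / 2 with hu
    have hu0 : 0 < u := by
      rw [hu]
      have : -1 < x 2 / s := by
        rw [lt_div_iff₀ hs0]
        linarith
      linarith
    set r : ℝ := Real.sqrt u with hr
    have hr0 : 0 < r := Real.sqrt_pos.2 hu0
    have hr2 : r ^ 2 = u := Real.sq_sqrt hu0.le
    set w : Fin 3 → ℝ := ![x 0 / (s * r), x 1 / (s * r), s] with hwdef
    have w0 : w 0 = x 0 / (s * r) := rfl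
    have w1 : w 1 = x 1 / (s * r) := rfl
    have w2 : w 2 = s := rfl
    have hsum : w 0 ^ 2 + w 1 ^ 2 = 4 * (1 - u) := by
      rw [w0, w1, div_pow, div_pow, ← add_div, mul_pow, hr2, div_eq_iff (by positivity)]
      rw [hu]
      field_simp
      nlinarith [hs2]
    have hq : qq w = r := by
      rw [qq, hsum, hr]
      congr 1
      ring
    refine ⟨w, ⟨?_, ?_, ?_⟩, ?_⟩
    · rw [hsum]; linarith
    · rw [w2]; exact hs0
    · rw [w2]; exact hs1
    · ext i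
      fin_cases i
      · change psi w 0 = x 0
        rw [psi_zero, hq, w0, w2]
        field_simp
      · change psi w 1 = x 1
        rw [psi_one, hq, w1, w2]
        field_simp
      · change psi w 2 = x 2
        rw [psi_two, hsum, w2, hu]
        field_simp
        ring

theorem nrm_psi {w : Fin 3 → ℝ} (hw : w ∈ dom) :
    nrm (WithLp.toLp 2 (psi w)) = lam (WithLp.toLp 2 ![w 0, w 1]) := by
  have h1 : ‖(WithLp.toLp 2 (psi w) : E3)‖ = w 2 := by
    have h2 : ‖(WithLp.toLp 2 (psi w) : E3)‖ ^ 2 = (w 2) ^ 2 := by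
      rw [norm_sq_E3]
      exact psi_sq hw.1
    exact (pow_left_inj₀ (norm_nonneg _) hw.2.1.le two_ne_zero).1 h2
  have h3 : ‖(WithLp.toLp 2 ![w 0, w 1] : E2)‖ ^ 2 = w 0 ^ 2 + w 1 ^ 2 := by
    rw [norm_sq_E2]
    rfl
  have hw2 := hw.2.1
  ext i
  rw [nrm, h1]
  fin_cases i
  · change (w 2)⁻¹ * psi w 0 = lam (WithLp.toLp 2 ![w 0, w 1]) 0
    rw [psi_zero, lam_zero, h3, qq]
    change _ = _ * w 0
    field_simp
  · change (w 2)⁻¹ * psi w 1 = lam (WithLp.toLp 2 ![w 0, w 1]) 1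
    rw [psi_one, lam_one, h3, qq]
    change _ = _ * w 1
    field_simp
  · change (w 2)⁻¹ * psi w 2 = lam (WithLp.toLp 2 ![w 0, w 1]) 2
    rw [psi_two, lam_two, h3]
    field_simp

theorem axis_null : volume {x : Fin 3 → ℝ | x 0 = 0} = 0 := by
  have h : {x : Fin 3 → ℝ | x 0 = 0} = Set.pi univ (fun i => if i = 0 then {0} else univ) := by
    ext x
    simp only [mem_ofPred_eq, mem_univ_pi]
    constructor
    · intro h i
      split_ifs with hi
      · rw [hi]; exact h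
      · trivial
    · intro h
      simpa using h 0
  rw [h, volume_pi_pi]
  exact Finset.prod_eq_zero (Finset.mem_univ 0) (by simp)

theorem lintegral_ball_nrm {F : E3 → ℝ≥0∞} (hF : Measurable F) :
    ∫⁻ x in ball (0 : E3) 1, F (nrm x) =
      ∫⁻ w in dom, ENNReal.ofReal (w 2 ^ 2) * F (lam (WithLp.toLp 2 ![w 0, w 1])) := by
  have hG : Measurable (fun x : E3 => F (nrm x)) := hF.comp measurable_nrm
  have h1 := (PiLp.volume_preserving_toLp (Fin 3)).setLIntegral_comp_preimage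
    (s := ball (0 : E3) 1) measurableSet_ball hG
  rw [← h1]
  have h2 : ((WithLp.toLp 2 : (Fin 3 → ℝ) → E3) ⁻¹' ball 0 1) =ᵐ[volume] psi '' dom := by
    have h3 : ∀ᵐ x : Fin 3 → ℝ, x 0 ≠ 0 := by
      rw [ae_iff]
      simpa using axis_null
    filter_upwards [h3] with x hx
    apply propext
    change (WithLp.toLp 2 x : E3) ∈ ball (0 : E3) 1 ↔ x ∈ psi '' dom
    rw [image_psi, mem_ball_zero_iff]
    have h4 : ‖(WithLp.toLp 2 x : E3)‖ ^ 2 = x 0 ^ 2 + x 1 ^ 2 + x 2 ^ 2 := by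
      rw [norm_sq_E3]
    constructor
    · intro h
      refine ⟨?_, Or.inl ?_⟩
      · rw [← h4]
        nlinarith [norm_nonneg (WithLp.toLp 2 x : E3)]
      · have : 0 < x 0 ^ 2 := by positivity
        nlinarith [sq_nonneg (x 1)]
    · rintro ⟨h, -⟩
      rw [← h4] at h
      nlinarith [norm_nonneg (WithLp.toLp 2 x : E3)]
  rw [setLIntegral_congr h2, lintegral_image_eq_lintegral_abs_det_fderiv_mul volume
    measurableSet_dom (fun w hw => (hasFDerivAt_psi hw).hasFDerivWithinAt) injOn_psi]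
  refine setLIntegral_congr_fun measurableSet_dom fun w hw => ?_
  have h5 : (Matrix.toLin' (jac w)).toContinuousLinearMap.det = w 2 ^ 2 := by
    rw [ContinuousLinearMap.det]
    simp only [LinearMap.coe_toContinuousLinearMap]
    rw [LinearMap.det_toLin', det_jac hw.1]
  simp only
  rw [h5, abs_of_nonneg (sq_nonneg _), nrm_psi hw]

theorem lintegral_sq : ∫⁻ s in Ioo (0 : ℝ) 1, ENNReal.ofReal (s ^ 2) = ENNReal.ofReal (1 / 3) := by
  rw [← ofReal_integral_eq_lintegral_ofReal]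
  · congr 1
    rw [← integral_Ioc_eq_integral_Ioo, ← intervalIntegral.integral_of_le (by norm_num)]
    simp
    norm_num
  · have : IntegrableOn (fun s : ℝ => s ^ 2) (Icc 0 1) :=
      (by fun_prop : Continuous fun s : ℝ => s ^ 2).continuousOn.integrableOn_compact
        isCompact_Icc
    exact this.mono_set Ioo_subset_Icc_self
  · exact Eventually.of_forall fun s => sq_nonneg s

theorem lintegral_dom {G : (Fin 2 → ℝ) → ℝ≥0∞} (hG : Measurable G) :
    ∫⁻ w in dom, ENNReal.ofReal (w 2 ^ 2) * G ![w 0, w 1] =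
      ENNReal.ofReal (1 / 3) * ∫⁻ l in {l : Fin 2 → ℝ | l 0 ^ 2 + l 1 ^ 2 < 4}, G l := by
  set e := MeasurableEquiv.piFinSuccAbove (fun _ : Fin 3 => ℝ) 2 with he
  have hmp : MeasurePreserving e volume volume := volume_preserving_piFinSuccAbove _ 2
  set D2 : Set (Fin 2 → ℝ) := {l : Fin 2 → ℝ | l 0 ^ 2 + l 1 ^ 2 < 4} with hD2
  have hD2m : MeasurableSet D2 := measurableSet_lt (by fun_prop) (by fun_prop)
  have h1 : dom = e ⁻¹' (Ioo 0 1 ×ˢ D2) := by
    ext w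
    constructor
    · intro h
      exact ⟨⟨h.2.1, h.2.2⟩, h.1⟩
    · rintro ⟨⟨h1, h2⟩, h3⟩
      exact ⟨h3, h1, h2⟩
  have h2 : ∀ w : Fin 3 → ℝ, ENNReal.ofReal (w 2 ^ 2) * G ![w 0, w 1] =
      (fun p : ℝ × (Fin 2 → ℝ) => ENNReal.ofReal (p.1 ^ 2) * G p.2) (e w) := by
    intro w
    change _ = ENNReal.ofReal (w 2 ^ 2) * G _
    congr 2
    ext i
    fin_cases i <;> rfl
  have hm : Measurable (fun p : ℝ × (Fin 2 → ℝ) => ENNReal.ofReal (p.1 ^ 2) * G p.2) := by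
    fun_prop
  rw [h1]
  simp_rw [h2]
  rw [hmp.setLIntegral_comp_preimage (measurableSet_Ioo.prod hD2m) hm]
  rw [Measure.volume_eq_prod, ← Measure.prod_restrict]
  have h3 := lintegral_prod_mul (μ := (volume : Measure ℝ).restrict (Ioo 0 1))
    (ν := (volume : Measure (Fin 2 → ℝ)).restrict D2) (f := fun s : ℝ => ENNReal.ofReal (s ^ 2))
    (g := G) (by fun_prop) hG.aemeasurable
  rw [h3, lintegral_sq]

/-- `sigma` in Lambert coordinates. -/
theorem lintegral_sigma {F : E3 → ℝ≥0∞} (hF : Measurable F) :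
    ∫⁻ x, F x ∂sigma = ENNReal.ofReal (1 / (4 * Real.pi)) * ∫⁻ l in ball (0 : E2) 2, F (lam l) := by
  rw [sigma, lintegral_smul_measure, lintegral_map hF measurable_nrm, lintegral_ball_nrm hF]
  have hG : Measurable (fun l : Fin 2 → ℝ => F (lam (WithLp.toLp 2 l))) := by
    apply hF.comp
    apply measurable_lam.comp
    exact (PiLp.volume_preserving_toLp (Fin 2)).measurable
  rw [lintegral_dom hG]
  have h1 := (PiLp.volume_preserving_toLp (Fin 2)).setLIntegral_comp_preimage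
    (s := ball (0 : E2) 2) measurableSet_ball (hF.comp measurable_lam)
  have h2 : (WithLp.toLp 2 : (Fin 2 → ℝ) → E2) ⁻¹' ball 0 2 =
      {l : Fin 2 → ℝ | l 0 ^ 2 + l 1 ^ 2 < 4} := by
    ext l
    have h3 : ‖(WithLp.toLp 2 l : E2)‖ ^ 2 = l 0 ^ 2 + l 1 ^ 2 := by
      rw [norm_sq_E2]
    simp only [mem_preimage, mem_ball_zero_iff, mem_ofPred_eq]
    rw [← h3]
    constructor
    · intro h
      nlinarith [norm_nonneg (WithLp.toLp 2 l : E2)]
    · intro h
      nlinarith [norm_nonneg (WithLp.toLp 2 l : E2)]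
  rw [h2] at h1
  simp only [Function.comp_def] at h1
  rw [h1, smul_eq_mul, ← mul_assoc]
  congr 1
  rw [← ENNReal.ofReal_inv_of_pos (by positivity), ← ENNReal.ofReal_mul (by positivity)]
  congr 1
  field_simp

end Pool.Agent.Lib.MP_b06be4_an.Lim
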