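import Pool.Agent.Lib.MP_b06be4_an.Lim.Patch

/-!
# MP_b06be4_an, existence of the limit: expected energy of the random configuration
-/

open MeasureTheory Set Filter Metric ProbabilityTheory
open scoped ENNReal NNReal Topology InnerProductSpace

namespace Pool.Agent.Lib.MP_b06be4_an.Lim

theorem measurable_WW_comp {α : Type} [MeasurableSpace α] {f g : α → E3} (hf : Measurable f)
    (hg : Measurable g) : Measurable fun p => WW (f p) (g p) := by
  unfold WW
  fun_prop

theorem measurable_ind_comp {α : Type} [MeasurableSpace α] {β : Type} [MeasurableSpace β]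
    {f : α → β} (hf : Measurable f) {s : Set β} (hs : MeasurableSet s) :
    Measurable fun p => s.indicator (1 : β → ℝ≥0∞) (f p) :=
  (measurable_one.indicator hs).comp hf

section

variable {M : ℕ} (x : Fin M → E3) (a δ : ℝ) {ι : Type} (L : E3 → ι) (U : ι → E3 ≃ₗᵢ[ℝ] E3)

/-- The interaction of two points. -/
noncomputable def TT (s : ι) (i : Fin M) (t : ι) (j : Fin M) (p : Tri × Tri) : ℝ≥0∞ :=
  (ok x a δ L U s i).indicator 1 p.1 *
    ((ok x a δ L U t j).indicator 1 p.2 * WW (pt x a U s i p.1) (pt x a U t j p.2))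

/-- The cross integral -/
noncomputable def CC (s t : ι) : ℝ≥0∞ :=
  ∫⁻ y, ∫⁻ z, (L ⁻¹' {s}).indicator 1 y * ((L ⁻¹' {t}).indicator 1 z * WW y z) ∂sigma ∂sigma

variable [MeasurableSpace ι] [MeasurableSingletonClass ι]

theorem measurable_TT (hL : Measurable L) (s : ι) (i : Fin M) (t : ι) (j : Fin M) :
    Measurable (TT x a δ L U s i t j) := by
  have h1 : Measurable fun p : Tri × Tri => (ok x a δ L U s i).indicator (1 : Tri → ℝ≥0∞) p.1 :=
    measurable_ind_comp measurable_fst (measurableSet_ok x a δ L U hL s i)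
  have h2 : Measurable fun p : Tri × Tri => (ok x a δ L U t j).indicator (1 : Tri → ℝ≥0∞) p.2 :=
    measurable_ind_comp measurable_snd (measurableSet_ok x a δ L U hL t j)
  have h3 : Measurable fun p : Tri × Tri => WW (pt x a U s i p.1) (pt x a U t j p.2) :=
    measurable_WW_comp ((measurable_pt x a U s i).comp measurable_fst)
      ((measurable_pt x a U t j).comp measurable_snd)
  exact h1.mul (h2.mul h3)

theorem lintegral_cross [Fintype ι] (hx : ∀ i, ‖x i‖ = 1) (ha0 : 0 < a) (ha1 : a ≤ 1)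
    (hδ0 : 0 < δ) (hδ1 : δ ≤ 1 / 2) (hL : Measurable L)
    (hU : ∀ y, ‖y‖ = 1 → ‖y - U (L y) e3‖ < a * δ) {s t : ι} (hst : s ≠ t) (i j : Fin M) :
    ∫⁻ θ, TT x a δ L U s i t j (θ s, θ t) ∂(Measure.pi fun _ : ι => muT) =
      ENNReal.ofReal ((a ^ 2)⁻¹) * ENNReal.ofReal ((a ^ 2)⁻¹) * CC L s t := by
  rw [lintegral_pi_pair muT hst (measurable_TT x a δ L U hL s i t j)]
  have hset : MeasurableSet (L ⁻¹' {t}) := hL (measurableSet_singleton t)
  have hset' : MeasurableSet (L ⁻¹' {s}) := hL (measurableSet_singleton s)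
  have hW : ∀ y : E3, Measurable fun z => WW y z := fun y =>
    measurable_WW_comp measurable_const measurable_id
  have h1 : ∀ u, ∫⁻ v, TT x a δ L U s i t j (u, v) ∂muT =
      (ok x a δ L U s i).indicator (fun u => ENNReal.ofReal ((a ^ 2)⁻¹) *
        ∫⁻ z, (L ⁻¹' {t}).indicator (fun z => WW (pt x a U s i u) z) z ∂sigma) u := by
    intro u
    have hm : Measurable fun v => (ok x a δ L U t j).indicator (1 : Tri → ℝ≥0∞) v *
        WW (pt x a U s i u) (pt x a U t j v) :=
      (measurable_one.indicator (measurableSet_ok x a δ L U hL t j)).mul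
        ((hW _).comp (measurable_pt x a U t j))
    simp only [TT]
    rw [lintegral_const_mul _ hm]
    by_cases h2 : u ∈ ok x a δ L U s i
    · rw [indicator_of_mem h2, indicator_of_mem h2, Pi.one_apply, one_mul,
        ← lintegral_ok x a δ L U hx ha0 ha1 hδ0 hδ1 hL hU t j (hW (pt x a U s i u))]
      refine lintegral_congr fun v => ?_
      by_cases h3 : v ∈ ok x a δ L U t j
      · rw [indicator_of_mem h3, indicator_of_mem h3, Pi.one_apply, one_mul]
      · rw [indicator_of_notMem h3, indicator_of_notMem h3, zero_mul]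
    · rw [indicator_of_notMem h2, indicator_of_notMem h2, zero_mul]
  simp_rw [h1]
  have hmF : Measurable fun y : E3 => ∫⁻ z, (L ⁻¹' {t}).indicator (fun z => WW y z) z ∂sigma := by
    have h2 : Measurable fun p : E3 × E3 => (L ⁻¹' {t}).indicator (fun z => WW p.1 z) p.2 := by
      have h3 : (fun p : E3 × E3 => (L ⁻¹' {t}).indicator (fun z => WW p.1 z) p.2) =
          (Prod.snd ⁻¹' (L ⁻¹' {t})).indicator fun p : E3 × E3 => WW p.1 p.2 := by
        funext p
        by_cases h4 : p.2 ∈ L ⁻¹' {t}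
        · rw [indicator_of_mem h4, indicator_of_mem (show p ∈ Prod.snd ⁻¹' (L ⁻¹' {t}) from h4)]
        · rw [indicator_of_notMem h4,
            indicator_of_notMem (show p ∉ Prod.snd ⁻¹' (L ⁻¹' {t}) from h4)]
      rw [h3]
      exact measurable_WW.indicator (measurable_snd hset)
    exact h2.lintegral_prod_right'
  rw [lintegral_ok x a δ L U hx ha0 ha1 hδ0 hδ1 hL hU s i
    (F := fun y => ENNReal.ofReal ((a ^ 2)⁻¹) *
      ∫⁻ z, (L ⁻¹' {t}).indicator (fun z => WW y z) z ∂sigma) (hmF.const_mul _)]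
  rw [mul_assoc]
  congr 1
  have h5 : ∀ y, (L ⁻¹' {s}).indicator (fun y => ENNReal.ofReal ((a ^ 2)⁻¹) *
      ∫⁻ z, (L ⁻¹' {t}).indicator (fun z => WW y z) z ∂sigma) y =
      ENNReal.ofReal ((a ^ 2)⁻¹) * (L ⁻¹' {s}).indicator (fun y =>
      ∫⁻ z, (L ⁻¹' {t}).indicator (fun z => WW y z) z ∂sigma) y := by
    intro y
    by_cases h6 : y ∈ L ⁻¹' {s}
    · rw [indicator_of_mem h6, indicator_of_mem h6]
    · rw [indicator_of_notMem h6, indicator_of_notMem h6, mul_zero]
  simp_rw [h5]
  rw [lintegral_const_mul _ (hmF.indicator hset'), CC]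
  congr 1
  refine lintegral_congr fun y => ?_
  have hm2 : Measurable fun z => (L ⁻¹' {t}).indicator (1 : E3 → ℝ≥0∞) z * WW y z :=
    (measurable_one.indicator hset).mul (hW y)
  rw [lintegral_const_mul _ hm2]
  by_cases h6 : y ∈ L ⁻¹' {s}
  · rw [indicator_of_mem h6, indicator_of_mem h6, Pi.one_apply, one_mul]
    refine lintegral_congr fun z => ?_
    by_cases h7 : z ∈ L ⁻¹' {t}
    · rw [indicator_of_mem h7, indicator_of_mem h7, Pi.one_apply, one_mul]
    · rw [indicator_of_notMem h7, indicator_of_notMem h7, zero_mul]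
  · rw [indicator_of_notMem h6, indicator_of_notMem h6, zero_mul]

omit [MeasurableSpace ι] [MeasurableSingletonClass ι] in
/-- Points of a patch are well separated. -/
theorem pt_dist (hx : ∀ i, ‖x i‖ = 1) (ha0 : 0 < a) (ha1 : a ≤ 1) (hδ0 : 0 < δ)
    (hδ1 : δ ≤ 1 / 2) {s : ι} {i j : Fin M} {v : Tri} (hv : good v)
    (hi : v ∈ ok x a δ L U s i) (hj : v ∈ ok x a δ L U s j) :
    (1 - 2 * δ ^ 2) * a ^ 2 * ‖x i - x j‖ ^ 2 ≤ ‖pt x a U s i v - pt x a U s j v‖ ^ 2 := by
  obtain ⟨V, hV⟩ := exists_of_good hv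
  have h1 : ‖gg v (x i)‖ = 1 := by rw [hV, LinearIsometryEquiv.norm_map, hx]
  have h2 : ‖gg v (x j)‖ = 1 := by rw [hV, LinearIsometryEquiv.norm_map, hx]
  have h3 := beta_dist_sq ha0 ha1 hδ0.le hδ1 h1 h2 hi.1.le hj.1.le
  have h4 : ‖gg v (x i) - gg v (x j)‖ = ‖x i - x j‖ := by
    rw [hV, hV, ← map_sub, LinearIsometryEquiv.norm_map]
  rw [h4] at h3
  rw [pt, pt, ← map_sub, LinearIsometryEquiv.norm_map]
  exact h3

omit [MeasurableSpace ι] [MeasurableSingletonClass ι] in
theorem pt_norm (hx : ∀ i, ‖x i‖ = 1) (ha0 : 0 < a) (ha1 : a ≤ 1)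
    (hδ1 : δ ≤ 1 / 2) {s : ι} {i : Fin M} {v : Tri} (hv : good v)
    (hi : v ∈ ok x a δ L U s i) : ‖pt x a U s i v‖ = 1 := by
  obtain ⟨V, hV⟩ := exists_of_good hv
  have h1 : ‖gg v (x i)‖ = 1 := by rw [hV, LinearIsometryEquiv.norm_map, hx]
  rw [pt, LinearIsometryEquiv.norm_map]
  exact norm_beta ha0 ha1 hδ1 h1 hi.1.le

theorem lintegral_self_le [Fintype ι] (hx : ∀ i, ‖x i‖ = 1) (hinj : Function.Injective x)
    (ha0 : 0 < a) (ha1 : a ≤ 1)
    (hδ0 : 0 < δ) (hδ1 : δ ≤ 1 / 2) (hL : Measurable L) (s : ι) {i j : Fin M} (hij : i ≠ j) :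
    ∫⁻ θ, TT x a δ L U s i s j (θ s, θ s) ∂(Measure.pi fun _ : ι => muT) ≤
      ENNReal.ofReal (((1 - 2 * δ ^ 2) * a ^ 2)⁻¹) * WW (x i) (x j) *
        muT (ok x a δ L U s i ∩ ok x a δ L U s j) := by
  have h0 : Measurable fun v : Tri => TT x a δ L U s i s j (v, v) :=
    (measurable_TT x a δ L U hL s i s j).comp (measurable_id.prodMk measurable_id)
  rw [(measurePreserving_eval (fun _ : ι => muT) s).lintegral_comp h0]
  have hmi := measurableSet_ok x a δ L U hL s i
  have hmj := measurableSet_ok x a δ L U hL s j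
  calc ∫⁻ v, TT x a δ L U s i s j (v, v) ∂muT
      ≤ ∫⁻ v, (ENNReal.ofReal (((1 - 2 * δ ^ 2) * a ^ 2)⁻¹) * WW (x i) (x j)) *
          (ok x a δ L U s i ∩ ok x a δ L U s j).indicator 1 v ∂muT := by
        apply lintegral_mono_ae
        filter_upwards [ae_good] with v hv
        simp only [TT]
        by_cases h1 : v ∈ ok x a δ L U s i
        · by_cases h2 : v ∈ ok x a δ L U s j
          · rw [indicator_of_mem h1, indicator_of_mem h2, indicator_of_mem (mem_inter h1 h2)]
            simp only [Pi.one_apply, one_mul, mul_one]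
            have h3 := pt_dist x a δ L U hx ha0 ha1 hδ0 hδ1 hv h1 h2
            have h4 : 0 < ‖x i - x j‖ ^ 2 := by
              have : 0 < ‖x i - x j‖ := norm_pos_iff.2 (sub_ne_zero.2 fun h => hij (hinj h))
              positivity
            have h5 : 0 < (1 - 2 * δ ^ 2) * a ^ 2 := by
              have : 0 < 1 - 2 * δ ^ 2 := by nlinarith
              positivity
            rw [WW, WW, ← ENNReal.ofReal_mul (by positivity)]
            apply ENNReal.ofReal_le_ofReal
            rw [← one_div, one_div_mul_one_div]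
            exact one_div_le_one_div_of_le (by positivity) h3
          · rw [indicator_of_notMem h2]
            simp
        · rw [indicator_of_notMem h1]
          simp
    _ = _ := by
        rw [lintegral_const_mul _ (measurable_one.indicator (hmi.inter hmj)),
          lintegral_indicator_one (hmi.inter hmj)]

/-- The energy of the random configuration. -/
noncomputable def En [Fintype ι] [DecidableEq ι] (θ : ι → Tri) : ℝ≥0∞ :=
  ∑ p : ι × Fin M, ∑ q : ι × Fin M,
    if p = q then 0 else TT x a δ L U p.1 p.2 q.1 q.2 (θ p.1, θ q.1)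

theorem lintegral_En_le [Fintype ι] [DecidableEq ι] (hx : ∀ i, ‖x i‖ = 1)
    (hinj : Function.Injective x) (ha0 : 0 < a) (ha1 : a ≤ 1)
    (hδ0 : 0 < δ) (hδ1 : δ ≤ 1 / 2) (hL : Measurable L)
    (hU : ∀ y, ‖y‖ = 1 → ‖y - U (L y) e3‖ < a * δ) :
    ∫⁻ θ, En x a δ L U θ ∂(Measure.pi fun _ : ι => muT) ≤
      (∑ i, ∑ j, if i = j then 0 else ENNReal.ofReal (((1 - 2 * δ ^ 2) * a ^ 2)⁻¹) *
        WW (x i) (x j) * ∑ s, muT (ok x a δ L U s i ∩ ok x a δ L U s j)) +
      ENNReal.ofReal ((M * (a ^ 2)⁻¹) ^ 2) *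
        ∫⁻ p, {p : E3 × E3 | L p.1 ≠ L p.2}.indicator (fun p => WW p.1 p.2) p
          ∂(sigma.prod sigma) := by
  have hterm : ∀ p q : ι × Fin M, Measurable fun θ : ι → Tri =>
      if p = q then 0 else TT x a δ L U p.1 p.2 q.1 q.2 (θ p.1, θ q.1) := by
    intro p q
    split_ifs
    · exact measurable_const
    · exact (measurable_TT x a δ L U hL _ _ _ _).comp
        ((measurable_pi_apply _).prodMk (measurable_pi_apply _))
  have h1 : ∫⁻ θ, En x a δ L U θ ∂(Measure.pi fun _ : ι => muT) =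
      ∑ p : ι × Fin M, ∑ q : ι × Fin M, ∫⁻ θ, (if p = q then 0 else
        TT x a δ L U p.1 p.2 q.1 q.2 (θ p.1, θ q.1)) ∂(Measure.pi fun _ : ι => muT) := by
    unfold En
    rw [lintegral_finsetSum _ fun p _ => Finset.measurable_sum _ fun q _ => hterm p q]
    refine Finset.sum_congr rfl fun p _ => ?_
    rw [lintegral_finsetSum _ fun q _ => hterm p q]
  rw [h1]
  set A : ι → Fin M → Fin M → ℝ≥0∞ := fun s i j => if i = j then 0 else
    ENNReal.ofReal (((1 - 2 * δ ^ 2) * a ^ 2)⁻¹) * WW (x i) (x j) *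
      muT (ok x a δ L U s i ∩ ok x a δ L U s j) with hA
  set B : ι → ι → ℝ≥0∞ := fun s t => if s = t then 0 else
    ENNReal.ofReal ((a ^ 2)⁻¹) * ENNReal.ofReal ((a ^ 2)⁻¹) * CC L s t with hB
  have h2 : ∀ p q : ι × Fin M, ∫⁻ θ, (if p = q then 0 else
        TT x a δ L U p.1 p.2 q.1 q.2 (θ p.1, θ q.1)) ∂(Measure.pi fun _ : ι => muT) ≤
      (if p.1 = q.1 then A p.1 p.2 q.2 else 0) + B p.1 q.1 := by
    rintro ⟨s, i⟩ ⟨t, j⟩
    simp only [Prod.mk.injEq]
    by_cases hst : s = t
    · subst hst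
      by_cases hij : i = j
      · simp [hij]
      · simp only [true_and, hij, if_false, if_true, hA, hB, add_zero]
        exact lintegral_self_le x a δ L U hx hinj ha0 ha1 hδ0 hδ1 hL s hij
    · simp only [hst, false_and, if_false, zero_add, hB]
      exact (lintegral_cross x a δ L U hx ha0 ha1 hδ0 hδ1 hL hU hst i j).le
  refine (Finset.sum_le_sum fun p _ => Finset.sum_le_sum fun q _ => h2 p q).trans ?_
  simp only [Finset.sum_add_distrib]
  apply add_le_add
  · -- diagonal part
    apply le_of_eq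
    rw [Fintype.sum_prod_type]
    have h3 : ∀ s : ι, ∑ i : Fin M, ∑ q : ι × Fin M,
        (if ((s, i) : ι × Fin M).1 = q.1 then A ((s, i) : ι × Fin M).1 ((s, i) : ι × Fin M).2 q.2
          else 0) = ∑ i, ∑ j, A s i j := by
      intro s
      refine Finset.sum_congr rfl fun i _ => ?_
      rw [Fintype.sum_prod_type]
      simp only
      rw [Finset.sum_eq_single s]
      · simp
      · intro t _ hts
        simp [Ne.symm hts]
      · intro h
        exact absurd (Finset.mem_univ s) h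
    rw [Finset.sum_congr rfl fun s _ => h3 s, Finset.sum_comm]
    refine Finset.sum_congr rfl fun i _ => ?_
    rw [Finset.sum_comm]
    refine Finset.sum_congr rfl fun j _ => ?_
    by_cases hij : i = j
    · simp [hA, hij]
    · simp only [hA, hij, if_false]
      rw [Finset.mul_sum]
  · -- cross part
    have hW : Measurable fun p : E3 × E3 => WW p.1 p.2 := measurable_WW
    have hset : ∀ s : ι, MeasurableSet (L ⁻¹' {s}) := fun s => hL (measurableSet_singleton s)
    have hm : ∀ s t : ι, Measurable fun p : E3 × E3 => (L ⁻¹' {s}).indicator (1 : E3 → ℝ≥0∞) p.1 *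
        ((L ⁻¹' {t}).indicator (1 : E3 → ℝ≥0∞) p.2 * WW p.1 p.2) := fun s t =>
      ((measurable_one.indicator (hset s)).comp measurable_fst).mul
        (((measurable_one.indicator (hset t)).comp measurable_snd).mul hW)
    have h3 : ∀ s t, CC L s t = ∫⁻ p, (L ⁻¹' {s}).indicator (1 : E3 → ℝ≥0∞) p.1 *
        ((L ⁻¹' {t}).indicator (1 : E3 → ℝ≥0∞) p.2 * WW p.1 p.2) ∂(sigma.prod sigma) := by
      intro s t
      rw [CC, lintegral_prod _ (hm s t).aemeasurable]
    have h4 : ∑ p : ι × Fin M, ∑ q : ι × Fin M, B p.1 q.1 =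
        ENNReal.ofReal ((M * (a ^ 2)⁻¹) ^ 2) * ∑ s, ∑ t, if s = t then 0 else CC L s t := by
      have h5 : ∀ s t, B s t = ENNReal.ofReal ((a ^ 2)⁻¹) * ENNReal.ofReal ((a ^ 2)⁻¹) *
          (if s = t then 0 else CC L s t) := by
        intro s t
        by_cases hst : s = t
        · simp [hB, hst]
        · simp only [hB, hst, if_false]
      rw [Fintype.sum_prod_type]
      simp only [Fintype.sum_prod_type, Finset.sum_const, Finset.card_univ, Fintype.card_fin]
      simp only [nsmul_eq_mul, h5]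
      rw [mul_pow, ENNReal.ofReal_mul (by positivity), ENNReal.ofReal_pow (by positivity),
        ENNReal.ofReal_pow (by positivity), ENNReal.ofReal_natCast, Finset.mul_sum]
      refine Finset.sum_congr rfl fun s _ => ?_
      rw [Finset.mul_sum, Finset.mul_sum]
      refine Finset.sum_congr rfl fun t _ => ?_
      ring
    rw [h4]
    gcongr
    apply le_of_eq
    have h6 : ∀ s t, (if s = t then 0 else CC L s t) = ∫⁻ p, (if s = t then 0 else
        (L ⁻¹' {s}).indicator (1 : E3 → ℝ≥0∞) p.1 *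
        ((L ⁻¹' {t}).indicator (1 : E3 → ℝ≥0∞) p.2 * WW p.1 p.2)) ∂(sigma.prod sigma) := by
      intro s t
      split_ifs
      · simp
      · exact h3 s t
    have hm' : ∀ s t : ι, Measurable fun p : E3 × E3 => (if s = t then 0 else
        (L ⁻¹' {s}).indicator (1 : E3 → ℝ≥0∞) p.1 *
        ((L ⁻¹' {t}).indicator (1 : E3 → ℝ≥0∞) p.2 * WW p.1 p.2)) := by
      intro s t
      split_ifs
      · exact measurable_const
      · exact hm s t
    simp_rw [h6]
    have h7 : ∑ s, ∑ t, ∫⁻ p, (if s = t then 0 else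
        (L ⁻¹' {s}).indicator (1 : E3 → ℝ≥0∞) p.1 *
        ((L ⁻¹' {t}).indicator (1 : E3 → ℝ≥0∞) p.2 * WW p.1 p.2)) ∂(sigma.prod sigma) =
        ∫⁻ p, ∑ s, ∑ t, (if s = t then 0 else
        (L ⁻¹' {s}).indicator (1 : E3 → ℝ≥0∞) p.1 *
        ((L ⁻¹' {t}).indicator (1 : E3 → ℝ≥0∞) p.2 * WW p.1 p.2)) ∂(sigma.prod sigma) := by
      rw [lintegral_finsetSum _ fun s _ => Finset.measurable_sum _ fun t _ => hm' s t]
      refine Finset.sum_congr rfl fun s _ => ?_
      rw [lintegral_finsetSum _ fun t _ => hm' s t]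
    rw [h7]
    refine lintegral_congr fun p => ?_
    rw [Finset.sum_eq_single (L p.1)]
    · rw [Finset.sum_eq_single (L p.2)]
      · have e1 : p.1 ∈ L ⁻¹' {L p.1} := rfl
        have e2 : p.2 ∈ L ⁻¹' {L p.2} := rfl
        by_cases hL' : L p.1 = L p.2
        · rw [if_pos hL', indicator_of_notMem]
          simpa using hL'
        · rw [if_neg hL', indicator_of_mem e1, indicator_of_mem e2, indicator_of_mem
            (show p ∈ {p : E3 × E3 | L p.1 ≠ L p.2} from hL')]
          simp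
      · intro t _ ht
        have e2 : p.2 ∉ L ⁻¹' {t} := fun h => ht h.symm
        rw [indicator_of_notMem e2]
        simp
      · intro h
        exact absurd (Finset.mem_univ _) h
    · intro s _ hs
      have e1 : p.1 ∉ L ⁻¹' {s} := fun h => hs h.symm
      apply Finset.sum_eq_zero
      intro t _
      rw [indicator_of_notMem e1]
      simp
    · intro h
      exact absurd (Finset.mem_univ _) h

end

end Pool.Agent.Lib.MP_b06be4_an.Lim
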