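import Pool.Agent.Lib.MP_b06be4_an.Lim.PatchE

/-!
# MP_b06be4_an, existence of the limit: the number of points of the random configuration
-/

open MeasureTheory Set Filter Metric ProbabilityTheory
open scoped ENNReal NNReal Topology InnerProductSpace

namespace Pool.Agent.Lib.MP_b06be4_an.Lim

section

variable {M : ℕ} (x : Fin M → E3) (a δ : ℝ) {ι : Type} (L : E3 → ι) (U : ι → E3 ≃ₗᵢ[ℝ] E3)

/-- The number of points in a cell. -/
noncomputable def XX (s : ι) (v : Tri) : ℝ := ∑ i : Fin M, (ok x a δ L U s i).indicator 1 v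

theorem XX_nonneg (s : ι) (v : Tri) : 0 ≤ XX x a δ L U s v :=
  Finset.sum_nonneg fun _ _ => indicator_nonneg (fun _ _ => zero_le_one) _

theorem XX_le (s : ι) (v : Tri) : XX x a δ L U s v ≤ M := by
  calc XX x a δ L U s v ≤ ∑ i : Fin M, (1 : ℝ) :=
        Finset.sum_le_sum fun i _ => indicator_le' (fun _ _ => le_rfl) (fun _ _ => zero_le_one) _
    _ = M := by simp

variable [MeasurableSpace ι] [MeasurableSingletonClass ι]

theorem measurable_XX (hL : Measurable L) (s : ι) : Measurable (XX x a δ L U s) := by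
  unfold XX
  exact Finset.measurable_sum _ fun i _ =>
    measurable_one.indicator (measurableSet_ok x a δ L U hL s i)

theorem memLp_XX (hL : Measurable L) (s : ι) : MemLp (XX x a δ L U s) 2 muT := by
  refine MemLp.of_bound (measurable_XX x a δ L U hL s).aestronglyMeasurable M
    (Eventually.of_forall fun v => ?_)
  rw [Real.norm_of_nonneg (XX_nonneg x a δ L U s v)]
  exact XX_le x a δ L U s v

theorem muT_ok (hx : ∀ i, ‖x i‖ = 1) (ha0 : 0 < a) (ha1 : a ≤ 1) (hδ0 : 0 < δ)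
    (hδ1 : δ ≤ 1 / 2) (hL : Measurable L) (hU : ∀ y, ‖y‖ = 1 → ‖y - U (L y) e3‖ < a * δ)
    (s : ι) (i : Fin M) :
    muT (ok x a δ L U s i) = ENNReal.ofReal ((a ^ 2)⁻¹) * sigma (L ⁻¹' {s}) := by
  have h1 := lintegral_ok x a δ L U hx ha0 ha1 hδ0 hδ1 hL hU s i (F := 1) measurable_one
  have h2 : ∫⁻ y, (L ⁻¹' {s}).indicator (1 : E3 → ℝ≥0∞) y ∂sigma = sigma (L ⁻¹' {s}) :=
    lintegral_indicator_one (hL (measurableSet_singleton s))
  have h3 : ∫⁻ θ, (ok x a δ L U s i).indicator (fun θ => (1 : E3 → ℝ≥0∞) (pt x a U s i θ)) θ ∂muT =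
      muT (ok x a δ L U s i) :=
    lintegral_indicator_one (measurableSet_ok x a δ L U hL s i)
  rw [h2, h3] at h1
  exact h1

theorem integral_XX (hx : ∀ i, ‖x i‖ = 1) (ha0 : 0 < a) (ha1 : a ≤ 1) (hδ0 : 0 < δ)
    (hδ1 : δ ≤ 1 / 2) (hL : Measurable L) (hU : ∀ y, ‖y‖ = 1 → ‖y - U (L y) e3‖ < a * δ)
    (s : ι) : ∫ v, XX x a δ L U s v ∂muT = M * (a ^ 2)⁻¹ * (sigma (L ⁻¹' {s})).toReal := by
  unfold XX
  rw [integral_finsetSum]
  · have h1 : ∀ i : Fin M, ∫ v, (ok x a δ L U s i).indicator (1 : Tri → ℝ) v ∂muT =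
        (a ^ 2)⁻¹ * (sigma (L ⁻¹' {s})).toReal := by
      intro i
      rw [integral_indicator_one (measurableSet_ok x a δ L U hL s i), measureReal_def,
        muT_ok x a δ L U hx ha0 ha1 hδ0 hδ1 hL hU s i, ENNReal.toReal_mul,
        ENNReal.toReal_ofReal (by positivity)]
    rw [Finset.sum_congr rfl fun i _ => h1 i]
    simp
    ring
  · intro i _
    exact (integrable_const (1 : ℝ)).indicator (measurableSet_ok x a δ L U hL s i)

variable [Fintype ι]

theorem sum_sigma (hL : Measurable L) : ∑ s, (sigma (L ⁻¹' {s})).toReal = 1 := by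
  rw [← ENNReal.toReal_sum fun s _ => measure_ne_top _ _,
    sum_measure_preimage_singleton _ fun s _ => hL (measurableSet_singleton s)]
  simp

/-- The number of points. -/
noncomputable def NN (θ : ι → Tri) : ℝ := ∑ s, XX x a δ L U s (θ s)

theorem memLp_NN (hL : Measurable L) :
    MemLp (NN x a δ L U) 2 (Measure.pi fun _ : ι => muT) := by
  have h1 : NN x a δ L U = fun θ => ∑ s, XX x a δ L U s (θ s) := rfl
  rw [h1]
  apply memLp_finsetSum
  intro s _
  exact (memLp_XX x a δ L U hL s).comp_measurePreserving (measurePreserving_eval _ s)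

theorem integral_NN (hx : ∀ i, ‖x i‖ = 1) (ha0 : 0 < a) (ha1 : a ≤ 1) (hδ0 : 0 < δ)
    (hδ1 : δ ≤ 1 / 2) (hL : Measurable L) (hU : ∀ y, ‖y‖ = 1 → ‖y - U (L y) e3‖ < a * δ) :
    ∫ θ, NN x a δ L U θ ∂(Measure.pi fun _ : ι => muT) = M * (a ^ 2)⁻¹ := by
  unfold NN
  rw [integral_finsetSum]
  · have h1 : ∀ s : ι, ∫ θ : ι → Tri, XX x a δ L U s (θ s) ∂(Measure.pi fun _ : ι => muT) =
        M * (a ^ 2)⁻¹ * (sigma (L ⁻¹' {s})).toReal := by
      intro s
      rw [integral_comp_eval (measurable_XX x a δ L U hL s).aestronglyMeasurable]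
      exact integral_XX x a δ L U hx ha0 ha1 hδ0 hδ1 hL hU s
    rw [Finset.sum_congr rfl fun s _ => h1 s, ← Finset.mul_sum, sum_sigma L hL, mul_one]
  · intro s _
    exact ((memLp_XX x a δ L U hL s).comp_measurePreserving
      (measurePreserving_eval _ s)).integrable (by norm_num)

theorem variance_NN_le (hx : ∀ i, ‖x i‖ = 1) (ha0 : 0 < a) (ha1 : a ≤ 1) (hδ0 : 0 < δ)
    (hδ1 : δ ≤ 1 / 2) (hL : Measurable L) (hU : ∀ y, ‖y‖ = 1 → ‖y - U (L y) e3‖ < a * δ) :
    variance (NN x a δ L U) (Measure.pi fun _ : ι => muT) ≤ M * (M * (a ^ 2)⁻¹) := by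
  have h0 : NN x a δ L U = ∑ s, fun θ : ι → Tri => XX x a δ L U s (θ s) := by
    funext θ
    simp [NN]
  rw [h0, variance_sum_pi fun s => memLp_XX x a δ L U hL s]
  have h1 : ∀ s, variance (XX x a δ L U s) muT ≤
      M * (M * (a ^ 2)⁻¹ * (sigma (L ⁻¹' {s})).toReal) := by
    intro s
    refine (variance_le_expectation_sq
      (measurable_XX x a δ L U hL s).aestronglyMeasurable).trans ?_
    rw [← integral_XX x a δ L U hx ha0 ha1 hδ0 hδ1 hL hU s, ← integral_const_mul]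
    apply integral_mono
    · exact (memLp_XX x a δ L U hL s).integrable_sq
    · exact ((memLp_XX x a δ L U hL s).integrable (by norm_num)).const_mul _
    · intro v
      simp only [Pi.pow_apply]
      rw [sq]
      exact mul_le_mul_of_nonneg_right (XX_le x a δ L U s v) (XX_nonneg x a δ L U s v)
  refine (Finset.sum_le_sum fun s _ => h1 s).trans (le_of_eq ?_)
  rw [← Finset.mul_sum, ← Finset.mul_sum, sum_sigma L hL, mul_one]

omit [MeasurableSpace ι] [MeasurableSingletonClass ι] in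
/-- Pointwise lower bound of the energy. -/
theorem En_ge [DecidableEq ι] (hx : ∀ i, ‖x i‖ = 1) (hinj : Function.Injective x) (ha0 : 0 < a)
    (ha1 : a ≤ 1) (hδ0 : 0 < δ) (hδ1 : δ ≤ 1 / 2) {θ : ι → Tri} (hθ : ∀ s, good (θ s))
    {N : ℕ} (hN : 2 ≤ N) {N₁ : ℝ} (hN₁ : (N : ℝ) < N₁) :
    ENNReal.ofReal (emin N / (N * (N - 1)) * (NN x a δ L U θ ^ 2 - NN x a δ L U θ -
      (N : ℝ) ^ 2 / (N₁ - N) ^ 2 * (NN x a δ L U θ - N₁) ^ 2)) ≤ En x a δ L U θ := by
  classical
  have hN2 : (2 : ℝ) ≤ N := by exact_mod_cast hN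
  have hAA : 0 ≤ emin N / (N * (N - 1)) := by
    apply div_nonneg (emin_nonneg N)
    apply mul_nonneg <;> linarith
  set S : Finset (ι × Fin M) := Finset.univ.filter fun p => θ p.1 ∈ ok x a δ L U p.1 p.2 with hS
  have hmem : ∀ p, p ∈ S ↔ θ p.1 ∈ ok x a δ L U p.1 p.2 := by
    intro p
    simp [hS]
  have hcard : NN x a δ L U θ = S.card := by
    have h1 : NN x a δ L U θ =
        ∑ p : ι × Fin M, (ok x a δ L U p.1 p.2).indicator (1 : Tri → ℝ) (θ p.1) := by
      rw [Fintype.sum_prod_type]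
      rfl
    rw [h1, hS, Finset.card_filter]
    push_cast
    refine Finset.sum_congr rfl fun p _ => ?_
    by_cases h2 : θ p.1 ∈ ok x a δ L U p.1 p.2
    · rw [indicator_of_mem h2, if_pos h2]
      rfl
    · rw [indicator_of_notMem h2, if_neg h2]
  rw [hcard]
  by_cases hSN : N ≤ S.card
  · -- many points
    have hdist : InjOn (fun p : ι × Fin M => pt x a U p.1 p.2 (θ p.1)) (S : Set (ι × Fin M)) := by
      rintro ⟨s, i⟩ hp ⟨t, j⟩ hq hpq
      have hp' := (hmem _).1 (Finset.mem_coe.1 hp)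
      have hq' := (hmem _).1 (Finset.mem_coe.1 hq)
      simp only at hp' hq' hpq
      have hst : s = t := by
        rw [← hp'.2, ← hq'.2, hpq]
      subst hst
      have h1 := pt_dist x a δ L U hx ha0 ha1 hδ0 hδ1 (hθ s) hp' hq'
      rw [hpq, sub_self, norm_zero] at h1
      have h2 : 0 < (1 - 2 * δ ^ 2) * a ^ 2 := by
        have : 0 < 1 - 2 * δ ^ 2 := by nlinarith
        positivity
      have h3 : ‖x i - x j‖ ^ 2 ≤ 0 := by
        by_contra h
        push Not at h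
        have := mul_pos h2 h
        norm_num at h1
        linarith
      have h4 : ‖x i - x j‖ = 0 := by
        have := norm_nonneg (x i - x j)
        nlinarith
      rw [norm_eq_zero, sub_eq_zero] at h4
      rw [hinj h4]
    have hnorm : ∀ p ∈ S, ‖pt x a U p.1 p.2 (θ p.1)‖ = 1 := fun p hp =>
      pt_norm x a δ L U hx ha0 ha1 hδ1 (hθ _) ((hmem p).1 hp)
    have h1 := en_finset_ge hN S hSN (fun p => pt x a U p.1 p.2 (θ p.1)) hdist hnorm
    have h2 : emin N / (N * (N - 1)) * ((S.card : ℝ) ^ 2 - S.card -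
        (N : ℝ) ^ 2 / (N₁ - N) ^ 2 * ((S.card : ℝ) - N₁) ^ 2) ≤
        emin N / (N * (N - 1)) * (S.card * (S.card - 1)) := by
      apply mul_le_mul_of_nonneg_left _ hAA
      have : 0 ≤ (N : ℝ) ^ 2 / (N₁ - N) ^ 2 * ((S.card : ℝ) - N₁) ^ 2 := by positivity
      nlinarith
    refine (ENNReal.ofReal_le_ofReal (h2.trans h1)).trans (le_of_eq ?_)
    have hnn : ∀ p q : ι × Fin M, 0 ≤ if p = q then (0 : ℝ) else
        1 / ‖pt x a U p.1 p.2 (θ p.1) - pt x a U q.1 q.2 (θ q.1)‖ ^ 2 := by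
      intro p q
      split_ifs
      · exact le_rfl
      · positivity
    rw [ENNReal.ofReal_sum_of_nonneg fun p _ => Finset.sum_nonneg fun q _ => hnn p q, En,
      hS, Finset.sum_filter]
    refine Finset.sum_congr rfl fun p _ => ?_
    by_cases hp : θ p.1 ∈ ok x a δ L U p.1 p.2
    · rw [if_pos hp, ENNReal.ofReal_sum_of_nonneg fun q _ => hnn p q, Finset.sum_filter]
      refine Finset.sum_congr rfl fun q _ => ?_
      by_cases hq : θ q.1 ∈ ok x a δ L U q.1 q.2
      · rw [if_pos hq]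
        by_cases hpq : p = q
        · simp [hpq]
        · rw [if_neg hpq, if_neg hpq]
          simp only [TT]
          rw [indicator_of_mem hp, indicator_of_mem hq]
          simp [WW]
      · rw [if_neg hq]
        by_cases hpq : p = q
        · simp [hpq]
        · rw [if_neg hpq]
          simp only [TT]
          rw [indicator_of_notMem hq]
          simp
    · rw [if_neg hp]
      symm
      apply Finset.sum_eq_zero
      intro q _
      by_cases hpq : p = q
      · simp [hpq]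
      · rw [if_neg hpq]
        simp only [TT]
        rw [indicator_of_notMem hp]
        simp
  · -- few points
    push Not at hSN
    have h1 : (S.card : ℝ) ≤ N := by exact_mod_cast hSN.le
    have h2 : 0 ≤ (S.card : ℝ) := by positivity
    have h3 : 0 < N₁ - N := by linarith
    have h4 : (S.card : ℝ) ^ 2 ≤ (N : ℝ) ^ 2 / (N₁ - N) ^ 2 * ((S.card : ℝ) - N₁) ^ 2 := by
      rw [div_mul_eq_mul_div, le_div_iff₀ (by positivity)]
      have h5 : (N₁ - N) ^ 2 ≤ ((S.card : ℝ) - N₁) ^ 2 := by nlinarith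
      have h6 : (S.card : ℝ) ^ 2 ≤ (N : ℝ) ^ 2 := by nlinarith
      exact mul_le_mul h6 h5 (by positivity) (by positivity)
    have h5 : (S.card : ℝ) ^ 2 - S.card -
        (N : ℝ) ^ 2 / (N₁ - N) ^ 2 * ((S.card : ℝ) - N₁) ^ 2 ≤ 0 := by linarith
    have h6 : emin N / (N * (N - 1)) * ((S.card : ℝ) ^ 2 - S.card -
        (N : ℝ) ^ 2 / (N₁ - N) ^ 2 * ((S.card : ℝ) - N₁) ^ 2) ≤ 0 :=
      mul_nonpos_of_nonneg_of_nonpos hAA h5
    rw [ENNReal.ofReal_of_nonpos h6]
    exact bot_le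

/-- Lower bound of the expected energy. -/
theorem lintegral_En_ge [DecidableEq ι] (hx : ∀ i, ‖x i‖ = 1) (hinj : Function.Injective x)
    (ha0 : 0 < a) (ha1 : a ≤ 1) (hδ0 : 0 < δ) (hδ1 : δ ≤ 1 / 2) (hL : Measurable L)
    (hU : ∀ y, ‖y‖ = 1 → ‖y - U (L y) e3‖ < a * δ)
    {N : ℕ} (hN : 2 ≤ N) {N₁ : ℝ} (hN₁ : (N : ℝ) < N₁) (hN₁' : N₁ = M * (a ^ 2)⁻¹) :
    ENNReal.ofReal (emin N / (N * (N - 1)) * (N₁ ^ 2 - N₁ -
      (N : ℝ) ^ 2 / (N₁ - N) ^ 2 * (M * N₁))) ≤
      ∫⁻ θ, En x a δ L U θ ∂(Measure.pi fun _ : ι => muT) := by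
  have hN2 : (2 : ℝ) ≤ N := by exact_mod_cast hN
  have hAA : 0 ≤ emin N / (N * (N - 1)) := by
    apply div_nonneg (emin_nonneg N)
    apply mul_nonneg <;> linarith
  set P : Measure (ι → Tri) := Measure.pi fun _ : ι => muT with hP
  set n : (ι → Tri) → ℝ := NN x a δ L U with hn
  have hLp : MemLp n 2 P := memLp_NN x a δ L U hL
  have hmean : ∫ θ, n θ ∂P = N₁ := by
    rw [hN₁']
    exact integral_NN x a δ L U hx ha0 ha1 hδ0 hδ1 hL hU
  have hvar : ∫ θ, (n θ - N₁) ^ 2 ∂P ≤ M * N₁ := by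
    have h1 := variance_NN_le x a δ L U hx ha0 ha1 hδ0 hδ1 hL hU
    rw [variance_eq_integral hLp.aestronglyMeasurable.aemeasurable] at h1
    rw [← hmean]
    refine h1.trans (le_of_eq ?_)
    rw [hmean, hN₁']
  have hint1 : Integrable n P := hLp.integrable (by norm_num)
  have hint2 : Integrable (fun θ => n θ ^ 2) P := hLp.integrable_sq
  have hint3 : Integrable (fun θ => (n θ - N₁) ^ 2) P :=
    (hLp.sub (memLp_const N₁)).integrable_sq
  have hsq : N₁ ^ 2 ≤ ∫ θ, n θ ^ 2 ∂P := by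
    have h1 : 0 ≤ ∫ θ, (n θ - N₁) ^ 2 ∂P := integral_nonneg fun θ => sq_nonneg _
    have h2 : ∫ θ, (n θ - N₁) ^ 2 ∂P = ∫ θ, n θ ^ 2 ∂P - N₁ ^ 2 := by
      have h3 : ∀ θ, (n θ - N₁) ^ 2 = n θ ^ 2 - 2 * N₁ * n θ + N₁ ^ 2 := fun θ => by ring
      simp_rw [h3]
      have hA : Integrable (fun θ => n θ ^ 2 - 2 * N₁ * n θ) P := hint2.sub (hint1.const_mul _)
      rw [integral_add hA (integrable_const _),
        integral_sub hint2 (hint1.const_mul _), integral_const_mul, hmean]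
      simp
      ring
    linarith
  set c : ℝ := (N : ℝ) ^ 2 / (N₁ - N) ^ 2 with hc
  have hc0 : 0 ≤ c := by positivity
  have hintF : Integrable (fun θ => emin N / (N * (N - 1)) *
      (n θ ^ 2 - n θ - c * (n θ - N₁) ^ 2)) P :=
    ((hint2.sub hint1).sub (hint3.const_mul c)).const_mul _
  have h1 : emin N / (N * (N - 1)) * (N₁ ^ 2 - N₁ - c * (M * N₁)) ≤
      ∫ θ, emin N / (N * (N - 1)) * (n θ ^ 2 - n θ - c * (n θ - N₁) ^ 2) ∂P := by
    rw [integral_const_mul]
    apply mul_le_mul_of_nonneg_left _ hAA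
    have hB : Integrable (fun θ => n θ ^ 2 - n θ) P := hint2.sub hint1
    rw [integral_sub hB (hint3.const_mul c), integral_sub hint2 hint1,
      integral_const_mul, hmean]
    have := mul_le_mul_of_nonneg_left hvar hc0
    linarith
  have h2 : ENNReal.ofReal (∫ θ, emin N / (N * (N - 1)) *
      (n θ ^ 2 - n θ - c * (n θ - N₁) ^ 2) ∂P) ≤
      ∫⁻ θ, ENNReal.ofReal (emin N / (N * (N - 1)) *
      (n θ ^ 2 - n θ - c * (n θ - N₁) ^ 2)) ∂P := by
    have h3 : ∫ θ, emin N / (N * (N - 1)) * (n θ ^ 2 - n θ - c * (n θ - N₁) ^ 2) ∂P ≤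
        ∫ θ, max (emin N / (N * (N - 1)) * (n θ ^ 2 - n θ - c * (n θ - N₁) ^ 2)) 0 ∂P :=
      integral_mono hintF hintF.pos_part fun θ => le_max_left _ _
    refine (ENNReal.ofReal_le_ofReal h3).trans ?_
    rw [ofReal_integral_eq_lintegral_ofReal hintF.pos_part
      (Eventually.of_forall fun θ => le_max_right _ _)]
    apply le_of_eq
    refine lintegral_congr fun θ => ?_
    rw [ENNReal.ofReal_max]
    simp
  refine (ENNReal.ofReal_le_ofReal h1).trans (h2.trans ?_)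
  apply lintegral_mono_ae
  have hgood : ∀ᵐ θ ∂P, ∀ s, good (θ s) := by
    rw [ae_all_iff]
    intro s
    exact (measurePreserving_eval (fun _ : ι => muT) s).quasiMeasurePreserving.ae ae_good
  filter_upwards [hgood] with θ hθ
  exact En_ge x a δ L U hx hinj ha0 ha1 hδ0 hδ1 hθ hN hN₁

end

end Pool.Agent.Lib.MP_b06be4_an.Lim
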