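import Pool.Agent.Lib.MP_b06be4_an.Lim.Plane

/-!
# MP_b06be4_an, existence of the limit: positive definite kernels
-/

open MeasureTheory Set Filter Metric
open scoped ENNReal NNReal Topology InnerProductSpace

namespace Pool.Agent.Lib.MP_b06be4_an.Lim

/-- Positive definite kernels on the unit sphere. -/
def PD (K : E3 → E3 → ℝ) : Prop :=
  ∀ (ι : Type) [Fintype ι] (x : ι → E3) (c : ι → ℝ), (∀ i, ‖x i‖ = 1) →
    0 ≤ ∑ i, ∑ j, c i * c j * K (x i) (x j)

theorem PD.congr {K L : E3 → E3 → ℝ} (hK : PD K)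
    (h : ∀ x y : E3, ‖x‖ = 1 → ‖y‖ = 1 → K x y = L x y) : PD L := by
  intro ι _ x c hx
  have := hK ι x c hx
  refine this.trans_eq (Finset.sum_congr rfl fun i _ => Finset.sum_congr rfl fun j _ => ?_)
  rw [h _ _ (hx i) (hx j)]

theorem PD.const {a : ℝ} (ha : 0 ≤ a) : PD (fun _ _ => a) := by
  intro ι _ x c _
  have : ∑ i, ∑ j, c i * c j * a = a * (∑ i, c i) ^ 2 := by
    rw [sq, Finset.sum_mul_sum, Finset.mul_sum]
    refine Finset.sum_congr rfl fun i _ => ?_
    rw [Finset.mul_sum]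
    refine Finset.sum_congr rfl fun j _ => ?_
    ring
  rw [this]
  positivity

theorem PD.add {K L : E3 → E3 → ℝ} (hK : PD K) (hL : PD L) : PD (fun x y => K x y + L x y) := by
  intro ι _ x c hx
  have h1 := hK ι x c hx
  have h2 := hL ι x c hx
  have : ∑ i, ∑ j, c i * c j * (K (x i) (x j) + L (x i) (x j)) =
      ∑ i, ∑ j, c i * c j * K (x i) (x j) + ∑ i, ∑ j, c i * c j * L (x i) (x j) := by
    rw [← Finset.sum_add_distrib]
    refine Finset.sum_congr rfl fun i _ => ?_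
    rw [← Finset.sum_add_distrib]
    refine Finset.sum_congr rfl fun j _ => ?_
    ring
  rw [this]
  linarith

theorem PD.smul {K : E3 → E3 → ℝ} (hK : PD K) {a : ℝ} (ha : 0 ≤ a) :
    PD (fun x y => a * K x y) := by
  intro ι _ x c hx
  have h1 := hK ι x c hx
  have : ∑ i, ∑ j, c i * c j * (a * K (x i) (x j)) =
      a * ∑ i, ∑ j, c i * c j * K (x i) (x j) := by
    rw [Finset.mul_sum]
    refine Finset.sum_congr rfl fun i _ => ?_
    rw [Finset.mul_sum]
    refine Finset.sum_congr rfl fun j _ => ?_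
    ring
  rw [this]
  positivity

theorem PD.sum {α : Type*} (s : Finset α) {K : α → E3 → E3 → ℝ} (hK : ∀ a, PD (K a)) :
    PD (fun x y => ∑ a ∈ s, K a x y) := by
  classical
  induction s using Finset.induction_on with
  | empty => simpa using PD.const le_rfl
  | insert a s ha ih =>
    refine ((hK a).add ih).congr fun x y _ _ => ?_
    rw [Finset.sum_insert ha]

/-- multiplication by a rank one kernel -/
theorem PD.mul_rank_one {K : E3 → E3 → ℝ} (hK : PD K) (f : E3 → ℝ) :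
    PD (fun x y => f x * f y * K x y) := by
  intro ι _ x c hx
  have h1 := hK ι x (fun i => c i * f (x i)) hx
  refine h1.trans_eq (Finset.sum_congr rfl fun i _ => Finset.sum_congr rfl fun j _ => ?_)
  ring

theorem PD.mul_inner {K : E3 → E3 → ℝ} (hK : PD K) : PD (fun x y => ⟪x, y⟫_ℝ * K x y) := by
  refine (((hK.mul_rank_one fun x => x 0).add (hK.mul_rank_one fun x => x 1)).add
    (hK.mul_rank_one fun x => x 2)).congr fun x y _ _ => ?_
  have : ⟪x, y⟫_ℝ = x 0 * y 0 + x 1 * y 1 + x 2 * y 2 := by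
    rw [PiLp.inner_apply, Fin.sum_univ_three]
    simp [mul_comm]
  rw [this]
  ring

theorem PD.inner_pow (m : ℕ) : PD (fun x y => ⟪x, y⟫_ℝ ^ m) := by
  induction m with
  | zero => simpa using PD.const zero_le_one
  | succ m ih =>
    refine ih.mul_inner.congr fun x y _ _ => ?_
    rw [pow_succ']

/-- pointwise limits -/
theorem PD.limit {K : ℕ → E3 → E3 → ℝ} {L : E3 → E3 → ℝ} (hK : ∀ n, PD (K n))
    (h : ∀ x y : E3, ‖x‖ = 1 → ‖y‖ = 1 → Tendsto (fun n => K n x y) atTop (𝓝 (L x y))) : PD L := by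
  intro ι _ x c hx
  have h1 : Tendsto (fun n => ∑ i, ∑ j, c i * c j * K n (x i) (x j)) atTop
      (𝓝 (∑ i, ∑ j, c i * c j * L (x i) (x j))) := by
    refine tendsto_finsetSum _ fun i _ => tendsto_finsetSum _ fun j _ => ?_
    exact (h _ _ (hx i) (hx j)).const_mul _
  exact ge_of_tendsto' h1 fun n => hK n ι x c hx

theorem PD.inv_sub_inner {B : ℝ} (hB : 1 < B) : PD (fun x y => (B - ⟪x, y⟫_ℝ)⁻¹) := by
  have hB0 : 0 < B := by linarith
  refine PD.limit (K := fun n x y => ∑ m ∈ Finset.range n, (B⁻¹) ^ (m + 1) * ⟪x, y⟫_ℝ ^ m)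
    (fun n => PD.sum _ fun m => (PD.inner_pow m).smul (by positivity)) fun x y hx hy => ?_
  have h1 : |⟪x, y⟫_ℝ| ≤ 1 := by
    have := abs_real_inner_le_norm x y
    rwa [hx, hy, one_mul] at this
  have h2 : |⟪x, y⟫_ℝ / B| < 1 := by
    rw [abs_div, abs_of_pos hB0, div_lt_one hB0]
    linarith
  have h3 := (hasSum_geometric_of_abs_lt_one h2).tendsto_sum_nat.const_mul B⁻¹
  have h4 : B⁻¹ * (1 - ⟪x, y⟫_ℝ / B)⁻¹ = (B - ⟪x, y⟫_ℝ)⁻¹ := by
    rw [← mul_inv]
    congr 1
    field_simp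
  rw [h4] at h3
  refine h3.congr fun n => ?_
  rw [Finset.mul_sum]
  refine Finset.sum_congr rfl fun m _ => ?_
  rw [div_pow, pow_succ, inv_pow]
  field_simp

/-- The regularized Coulomb kernel. -/
noncomputable def coul (η : ℝ) (x y : E3) : ℝ := (Real.sqrt (‖x - y‖ ^ 2 + η ^ 2))⁻¹

theorem integral_inv_add_sq {A : ℝ} (hA : 0 < A) :
    Integrable (fun v : ℝ => (A + v ^ 2)⁻¹) ∧ ∫ v : ℝ, (A + v ^ 2)⁻¹ = Real.pi * (Real.sqrt A)⁻¹ := by
  have hs : 0 < Real.sqrt A := Real.sqrt_pos.2 hA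
  have hs2 : Real.sqrt A ^ 2 = A := Real.sq_sqrt hA.le
  have h1 : ∀ v : ℝ, (A + v ^ 2)⁻¹ = A⁻¹ * (1 + ((Real.sqrt A)⁻¹ * v) ^ 2)⁻¹ := by
    intro v
    rw [← mul_inv]
    congr 1
    rw [mul_pow, inv_pow, hs2]
    field_simp
  have h2 : Integrable (fun v : ℝ => (1 + ((Real.sqrt A)⁻¹ * v) ^ 2)⁻¹) :=
    integrable_inv_one_add_sq.comp_mul_left' (inv_ne_zero hs.ne')
  constructor
  · simp_rw [h1]
    exact h2.const_mul _
  · simp_rw [h1]
    rw [integral_const_mul, Measure.integral_comp_mul_left (fun v : ℝ => (1 + v ^ 2)⁻¹),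
      integral_univ_inv_one_add_sq, inv_inv, abs_of_pos hs, smul_eq_mul]
    rw [← hs2]
    rw [Real.sqrt_sq hs.le]
    field_simp

theorem PD.coul {η : ℝ} (hη : 0 < η) : PD (coul η) := by
  intro ι _ x c hx
  have hpos : ∀ x y : E3, 0 < ‖x - y‖ ^ 2 + η ^ 2 := fun x y => by positivity
  have h1 : ∀ i j, c i * c j * Lim.coul η (x i) (x j) =
      Real.pi⁻¹ * ∫ v : ℝ, c i * c j * (‖x i - x j‖ ^ 2 + η ^ 2 + v ^ 2)⁻¹ := by
    intro i j
    rw [integral_const_mul, (integral_inv_add_sq (hpos (x i) (x j))).2, Lim.coul]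
    field_simp
  simp_rw [h1, ← Finset.mul_sum]
  have hint : ∀ i j, Integrable (fun v : ℝ => c i * c j * (‖x i - x j‖ ^ 2 + η ^ 2 + v ^ 2)⁻¹) :=
    fun i j => (integral_inv_add_sq (hpos (x i) (x j))).1.const_mul _
  have h2 : ∑ i, ∑ j, ∫ v : ℝ, c i * c j * (‖x i - x j‖ ^ 2 + η ^ 2 + v ^ 2)⁻¹ =
      ∫ v : ℝ, ∑ i, ∑ j, c i * c j * (‖x i - x j‖ ^ 2 + η ^ 2 + v ^ 2)⁻¹ := by
    rw [integral_finsetSum _ fun i _ => integrable_finsetSum _ fun j _ => hint i j]
    refine Finset.sum_congr rfl fun i _ => ?_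
    rw [integral_finsetSum _ fun j _ => hint i j]
  rw [h2]
  apply mul_nonneg (by positivity)
  apply integral_nonneg
  intro v
  have hB : 1 < (2 + η ^ 2 + v ^ 2) / 2 := by
    have : 0 < η ^ 2 := by positivity
    nlinarith [sq_nonneg v]
  have h3 := (PD.inv_sub_inner hB).smul (show (0 : ℝ) ≤ 1 / 2 by norm_num) ι x c hx
  refine h3.trans_eq (Finset.sum_congr rfl fun i _ => Finset.sum_congr rfl fun j _ => ?_)
  congr 1
  rw [norm_sub_sq_real, hx i, hx j, one_div]
  beta_reduce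
  rw [← mul_inv]
  congr 1
  ring

/-- Multiplication by the probability of non separation. -/
theorem PD.mul_tt {K : E3 → E3 → ℝ} (hK : PD K) : PD (fun x y => tt x y * K x y) := by
  intro ι _ x c hx
  have h1 : ∀ i j, tt (x i) (x j) = ∫ π, ((neg (x i)).indicator 1 π * (neg (x j)).indicator 1 π +
      (neg (x i))ᶜ.indicator 1 π * (neg (x j))ᶜ.indicator 1 π : ℝ) ∂muP := by
    intro i j
    have h2 : ∀ π, ((neg (x i)).indicator 1 π * (neg (x j)).indicator 1 π +
      (neg (x i))ᶜ.indicator 1 π * (neg (x j))ᶜ.indicator 1 π : ℝ) =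
        (same (x i) (x j)).indicator 1 π := by
      intro π
      by_cases hi : π ∈ neg (x i) <;> by_cases hj : π ∈ neg (x j) <;>
        simp [same, indicator, hi, hj]
    simp_rw [h2]
    rw [integral_indicator_one (measurableSet_same _ _), measureReal_def, muP_same (hx i) (hx j),
      ENNReal.toReal_ofReal]
    linarith [(tt_mem (hx i) (hx j)).1]
  have hm : ∀ i, Measurable ((neg (x i)).indicator (1 : Pl → ℝ)) := fun i =>
    measurable_one.indicator (measurableSet_neg _)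
  have hmc : ∀ i, Measurable ((neg (x i))ᶜ.indicator (1 : Pl → ℝ)) := fun i =>
    measurable_one.indicator (measurableSet_neg _).compl
  have hb : ∀ (s : Set Pl) (π : Pl), |s.indicator (1 : Pl → ℝ) π| ≤ 1 := by
    intro s π
    by_cases h : π ∈ s <;> simp [h]
  have hint : ∀ i j, Integrable (fun π : Pl => c i * c j * (((neg (x i)).indicator 1 π *
      (neg (x j)).indicator 1 π + (neg (x i))ᶜ.indicator 1 π * (neg (x j))ᶜ.indicator 1 π : ℝ) *
        K (x i) (x j))) muP := by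
    intro i j
    refine (Integrable.mul_const ?_ _).const_mul _
    refine Integrable.of_bound (C := 2) ?_ (Eventually.of_forall fun π => ?_)
    · exact (((hm i).mul (hm j)).add ((hmc i).mul (hmc j))).aestronglyMeasurable
    · rw [Real.norm_eq_abs]
      refine (abs_add_le _ _).trans ?_
      rw [abs_mul, abs_mul]
      have a1 := hb (neg (x i)) π
      have a2 := hb (neg (x j)) π
      have a3 := hb (neg (x i))ᶜ π
      have a4 := hb (neg (x j))ᶜ π
      nlinarith [abs_nonneg ((neg (x i)).indicator (1 : Pl → ℝ) π),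
        abs_nonneg ((neg (x j)).indicator (1 : Pl → ℝ) π),
        abs_nonneg ((neg (x i))ᶜ.indicator (1 : Pl → ℝ) π),
        abs_nonneg ((neg (x j))ᶜ.indicator (1 : Pl → ℝ) π)]
  have h3 : ∑ i, ∑ j, c i * c j * (tt (x i) (x j) * K (x i) (x j)) =
      ∫ π, ∑ i, ∑ j, c i * c j * (((neg (x i)).indicator 1 π *
      (neg (x j)).indicator 1 π + (neg (x i))ᶜ.indicator 1 π * (neg (x j))ᶜ.indicator 1 π : ℝ) *
        K (x i) (x j)) ∂muP := by
    rw [integral_finsetSum _ fun i _ => integrable_finsetSum _ fun j _ => hint i j]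
    refine Finset.sum_congr rfl fun i _ => ?_
    rw [integral_finsetSum _ fun j _ => hint i j]
    refine Finset.sum_congr rfl fun j _ => ?_
    rw [integral_const_mul, integral_mul_const, ← h1 i j]
  rw [h3]
  apply integral_nonneg
  intro π
  have h4 := ((hK.mul_rank_one fun x => (neg x).indicator 1 π).add
    (hK.mul_rank_one fun x => (neg x)ᶜ.indicator 1 π)) ι x c hx
  refine h4.trans_eq (Finset.sum_congr rfl fun i _ => Finset.sum_congr rfl fun j _ => ?_)
  ring

theorem PD.mul_tt_pow {K : E3 → E3 → ℝ} (hK : PD K) (j : ℕ) : PD (fun x y => tt x y ^ j * K x y) := by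
  induction j with
  | zero => simpa using hK
  | succ j ih =>
    refine ih.mul_tt.congr fun x y _ _ => ?_
    ring

/-- A positive definite kernel which depends on the distance only: comparison of a configuration
with a rotated copy. -/
theorem PD.rotate {k : ℝ → ℝ} (hK : PD (fun x y => k ‖x - y‖)) {n : ℕ} (x : Fin n → E3)
    (hx : ∀ i, ‖x i‖ = 1) (V : E3 ≃ₗᵢ[ℝ] E3) :
    ∑ i, ∑ j, k ‖x i - V (x j)‖ ≤ ∑ i, ∑ j, k ‖x i - x j‖ := by
  have h := hK (Fin n ⊕ Fin n) (Sum.elim x fun i => V (x i)) (Sum.elim (fun _ => 1) fun _ => -1)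
    (by
      rintro (i | i)
      · exact hx i
      · simpa using hx i)
  simp only [Fintype.sum_sum_type, Sum.elim_inl, Sum.elim_inr, Finset.sum_add_distrib] at h
  have h1 : ∑ i, ∑ j, (-1 : ℝ) * -1 * k ‖V (x i) - V (x j)‖ = ∑ i, ∑ j, k ‖x i - x j‖ := by
    refine Finset.sum_congr rfl fun i _ => Finset.sum_congr rfl fun j _ => ?_
    rw [← map_sub, LinearIsometryEquiv.norm_map]
    ring
  have h2 : ∑ i, ∑ j, (-1 : ℝ) * 1 * k ‖V (x i) - x j‖ = -∑ i, ∑ j, k ‖x i - V (x j)‖ := by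
    rw [Finset.sum_comm, ← Finset.sum_neg_distrib]
    refine Finset.sum_congr rfl fun i _ => ?_
    rw [← Finset.sum_neg_distrib]
    refine Finset.sum_congr rfl fun j _ => ?_
    rw [norm_sub_rev]
    ring
  have h3 : ∑ i, ∑ j, (1 : ℝ) * -1 * k ‖x i - V (x j)‖ = -∑ i, ∑ j, k ‖x i - V (x j)‖ := by
    rw [← Finset.sum_neg_distrib]
    refine Finset.sum_congr rfl fun i _ => ?_
    rw [← Finset.sum_neg_distrib]
    refine Finset.sum_congr rfl fun j _ => ?_
    ring
  have h4 : ∑ i, ∑ j, (1 : ℝ) * 1 * k ‖x i - x j‖ = ∑ i, ∑ j, k ‖x i - x j‖ := by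
    refine Finset.sum_congr rfl fun i _ => Finset.sum_congr rfl fun j _ => ?_
    ring
  rw [h1, h2, h3, h4] at h
  linarith

end Pool.Agent.Lib.MP_b06be4_an.Lim
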