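import Pool.Agent.Lib.MP_b06be4_an.Lim.Lambert

/-!
# MP_b06be4_an, existence of the limit: radial integrals on the sphere
-/

open MeasureTheory Set Filter Metric
open scoped ENNReal NNReal Topology

namespace Pool.Agent.Lib.MP_b06be4_an.Lim

/-- Isometries act transitively on the unit sphere. -/
theorem exists_isometry {x y : E3} (h : ‖x‖ = ‖y‖) : ∃ U : E3 ≃ₗᵢ[ℝ] E3, U x = y :=
  ⟨_, Submodule.reflection_sub h⟩

theorem radial_E2 {f : ℝ → ℝ≥0∞} (hf : Measurable f) :
    ∫⁻ l in ball (0 : E2) 2, f ‖l‖ =
      ∫⁻ r in Ioo (0 : ℝ) 2, ENNReal.ofReal (2 * Real.pi * r) * f r := by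
  set ν1 : Measure ℝ := (volume.restrict (ball (0 : E2) 2)).map norm with hν1
  set ν2 : Measure ℝ := (volume.restrict (Ioo (0 : ℝ) 2)).withDensity
    (fun r => ENNReal.ofReal (2 * Real.pi * r)) with hν2
  have hfin : IsFiniteMeasure ν1 := by
    have : IsFiniteMeasure (volume.restrict (ball (0 : E2) 2)) :=
      ⟨by rw [Measure.restrict_apply_univ]; exact measure_ball_lt_top⟩
    infer_instance
  have hint : ∀ a : ℝ, 0 ≤ a → ∫⁻ r in Ioc (0 : ℝ) a, ENNReal.ofReal (2 * Real.pi * r) =
      ENNReal.ofReal (Real.pi * a ^ 2) := by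
    intro a ha
    rw [← ofReal_integral_eq_lintegral_ofReal]
    · congr 1
      rw [← intervalIntegral.integral_of_le ha, intervalIntegral.integral_const_mul, integral_id]
      ring
    · have : IntegrableOn (fun s : ℝ => 2 * Real.pi * s) (Icc 0 a) :=
        (by fun_prop : Continuous fun s : ℝ => 2 * Real.pi * s).continuousOn.integrableOn_compact
          isCompact_Icc
      exact this.mono_set Ioc_subset_Icc_self
    · rw [EventuallyLE, ae_restrict_iff' measurableSet_Ioc]
      refine Eventually.of_forall fun s hs => ?_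
      have := hs.1
      simp only [Pi.zero_apply]
      positivity
  have heq : ν1 = ν2 := by
    apply Measure.ext_of_Iic
    intro a
    rw [hν1, hν2, Measure.map_apply measurable_norm measurableSet_Iic,
      withDensity_apply _ measurableSet_Iic, Measure.restrict_restrict measurableSet_Iic,
      Measure.restrict_apply (measurable_norm measurableSet_Iic)]
    rcases lt_trichotomy a 0 with ha | ha | ha
    · have h1 : (norm ⁻¹' Iic a ∩ ball (0 : E2) 2) = ∅ := by
        ext x
        simp only [mem_inter_iff, mem_preimage, mem_Iic, mem_empty_iff_false, iff_false, not_and]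
        intro h
        exact absurd (norm_nonneg x) (by linarith)
      have h2 : Iic a ∩ Ioo (0 : ℝ) 2 = ∅ := by
        ext x
        simp only [mem_inter_iff, mem_Iic, mem_Ioo, mem_empty_iff_false, iff_false, not_and]
        intro h1 h2
        linarith
      rw [h1, h2]
      simp
    · subst ha
      have h1 : (norm ⁻¹' Iic (0 : ℝ) ∩ ball (0 : E2) 2) ⊆ {0} := by
        rintro x ⟨hx, -⟩
        have hx : ‖x‖ ≤ 0 := hx
        simpa using hx
      have h2 : Iic (0 : ℝ) ∩ Ioo (0 : ℝ) 2 = ∅ := by
        ext x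
        simp only [mem_inter_iff, mem_Iic, mem_Ioo, mem_empty_iff_false, iff_false, not_and]
        intro h1 h2
        linarith
      rw [h2, measure_mono_null h1 (by simp)]
      simp
    · rcases lt_or_ge a 2 with ha2 | ha2
      · have h1 : (norm ⁻¹' Iic a ∩ ball (0 : E2) 2) = closedBall 0 a := by
          ext x
          simp only [mem_inter_iff, mem_preimage, mem_Iic, mem_ball_zero_iff,
            mem_closedBall_zero_iff, and_iff_left_iff_imp]
          intro h
          linarith
        have h2 : Iic a ∩ Ioo (0 : ℝ) 2 = Ioc 0 a := by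
          ext x
          simp only [mem_inter_iff, mem_Iic, mem_Ioo, mem_Ioc]
          constructor
          · rintro ⟨h1, h2, h3⟩
            exact ⟨h2, h1⟩
          · rintro ⟨h1, h2⟩
            exact ⟨h2, h1, by linarith⟩
        rw [h1, h2, hint a ha.le, EuclideanSpace.volume_closedBall_fin_two]
        rw [← ENNReal.ofReal_pow ha.le, mul_comm, ← NNReal.coe_real_pi,
          ENNReal.ofReal_mul (NNReal.coe_nonneg _)]
      · have h1 : (norm ⁻¹' Iic a ∩ ball (0 : E2) 2) = ball 0 2 := by
          ext x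
          simp only [mem_inter_iff, mem_preimage, mem_Iic, mem_ball_zero_iff,
            and_iff_right_iff_imp]
          intro h
          linarith
        have h2 : Iic a ∩ Ioo (0 : ℝ) 2 = Ioo 0 2 := by
          ext x
          simp only [mem_inter_iff, mem_Iic, mem_Ioo, and_iff_right_iff_imp]
          rintro ⟨h1, h2⟩
          linarith
        rw [h1, h2, restrict_Ioo_eq_restrict_Ioc, hint 2 (by norm_num),
          EuclideanSpace.volume_ball_fin_two]
        rw [← ENNReal.ofReal_pow (by norm_num), mul_comm, ← NNReal.coe_real_pi,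
          ENNReal.ofReal_mul (NNReal.coe_nonneg _)]
  calc ∫⁻ l in ball (0 : E2) 2, f ‖l‖ = ∫⁻ r, f r ∂ν1 := (lintegral_map hf measurable_norm).symm
    _ = ∫⁻ r, f r ∂ν2 := by rw [heq]
    _ = _ := by
      rw [hν2, lintegral_withDensity_eq_lintegral_mul _ (by fun_prop) hf]
      rfl

/-- Radial integrals on the sphere: `‖x - p‖` has density `r / 2` on `(0, 2)`. -/
theorem lintegral_sigma_radial {f : ℝ → ℝ≥0∞} (hf : Measurable f) {p : E3} (hp : ‖p‖ = 1) :
    ∫⁻ x, f ‖x - p‖ ∂sigma = ∫⁻ r in Ioo (0 : ℝ) 2, ENNReal.ofReal (r / 2) * f r := by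
  obtain ⟨U, hU⟩ := exists_isometry (x := p) (y := e3) (by rw [hp, norm_e3])
  have h1 : ∫⁻ x, f ‖x - p‖ ∂sigma = ∫⁻ x, f ‖x - e3‖ ∂sigma := by
    have hm : Measurable (fun x : E3 => f ‖x - e3‖) := by fun_prop
    rw [← (measurePreserving_isometry U).lintegral_comp hm]
    refine lintegral_congr fun x => ?_
    rw [← hU, ← map_sub, LinearIsometryEquiv.norm_map]
  rw [h1, lintegral_sigma (by fun_prop)]
  have h2 : ∫⁻ l in ball (0 : E2) 2, f ‖lam l - e3‖ = ∫⁻ l in ball (0 : E2) 2, f ‖l‖ := by
    refine setLIntegral_congr_fun measurableSet_ball fun l hl => ?_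
    rw [norm_lam_sub_e3 (by simpa using (mem_ball_zero_iff.1 hl).le)]
  rw [h2, radial_E2 hf, ← lintegral_const_mul _ (by fun_prop)]
  refine lintegral_congr fun r => ?_
  rw [← mul_assoc, ← ENNReal.ofReal_mul (by positivity)]
  congr 2
  field_simp
  ring

end Pool.Agent.Lib.MP_b06be4_an.Lim
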