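import Pool.Agent.Lib.MP_b06be4_an.Lim.Grid

/-!
# MP_b06be4_an, existence of the limit: choice of the shift of the grid
-/

open MeasureTheory Set Filter Metric
open scoped ENNReal NNReal Topology

namespace Pool.Agent.Lib.MP_b06be4_an.Lim

theorem measurable_gl1 (m : ℕ) (d : ℝ) :
    Measurable (fun q : ℝ × E3 × E3 => gl d q.1 m q.2.1) := by
  unfold gl
  apply measurable_pi_lambda
  intro i
  have h1 : Measurable (fun p : ℝ × E3 × E3 => ⌊(p.2.1 i + 1 + p.1) / d⌋) := by fun_prop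
  exact (measurable_of_countable (fun n : ℤ => (⟨min m n.toNat, by omega⟩ : Fin (m + 1)))).comp h1

theorem measurable_gl2 (m : ℕ) (d : ℝ) :
    Measurable (fun q : ℝ × E3 × E3 => gl d q.1 m q.2.2) := by
  unfold gl
  apply measurable_pi_lambda
  intro i
  have h1 : Measurable (fun p : ℝ × E3 × E3 => ⌊(p.2.2 i + 1 + p.1) / d⌋) := by fun_prop
  exact (measurable_of_countable (fun n : ℤ => (⟨min m n.toNat, by omega⟩ : Fin (m + 1)))).comp h1

theorem exists_shift {d : ℝ} (hd : 0 < d) (m : ℕ) {w : E3 × E3 → ℝ≥0∞} (hw : Measurable w) :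
    ∃ τ ∈ Ioc (0 : ℝ) d,
      ∫⁻ p, {p : E3 × E3 | gl d τ m p.1 ≠ gl d τ m p.2}.indicator w p ∂(sigma.prod sigma) ≤
        ENNReal.ofReal (2 / d) * ∫⁻ p, ENNReal.ofReal ‖p.1 - p.2‖ * w p ∂(sigma.prod sigma) := by
  set μD : Measure ℝ := (ENNReal.ofReal d)⁻¹ • volume.restrict (Ioc 0 d) with hμD
  have hd0 : ENNReal.ofReal d ≠ 0 := by simpa using hd
  have hprob : IsProbabilityMeasure μD := by
    refine ⟨?_⟩
    rw [hμD, Measure.smul_apply, Measure.restrict_apply_univ, Real.volume_Ioc, smul_eq_mul,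
      sub_zero]
    exact ENNReal.inv_mul_cancel hd0 (by simp)
  have hnull : μD (Ioc 0 d)ᶜ = 0 := by
    rw [hμD, Measure.smul_apply, Measure.restrict_apply measurableSet_Ioc.compl, compl_inter_self]
    simp
  set f : ℝ → ℝ≥0∞ := fun τ => ∫⁻ p, {p : E3 × E3 | gl d τ m p.1 ≠ gl d τ m p.2}.indicator w p
    ∂(sigma.prod sigma) with hf
  have hset : MeasurableSet {q : ℝ × E3 × E3 | gl d q.1 m q.2.1 ≠ gl d q.1 m q.2.2} :=
    (measurableSet_eq_fun (measurable_gl1 m d) (measurable_gl2 m d)).compl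
  have hjoint : Measurable fun q : ℝ × E3 × E3 =>
      {q : ℝ × E3 × E3 | gl d q.1 m q.2.1 ≠ gl d q.1 m q.2.2}.indicator (fun q => w q.2) q :=
    (hw.comp measurable_snd).indicator hset
  have hfm : Measurable f := by
    exact hjoint.lintegral_prod_right'
  obtain ⟨τ, hτ1, hτ2⟩ := exists_notMem_null_le_lintegral hfm.aemeasurable hnull
  refine ⟨τ, by simpa using hτ1, hτ2.trans ?_⟩
  rw [hμD, lintegral_smul_measure]
  have hswap : ∫⁻ τ in Ioc 0 d, f τ = ∫⁻ p, (∫⁻ τ in Ioc 0 d,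
      {p : E3 × E3 | gl d τ m p.1 ≠ gl d τ m p.2}.indicator w p) ∂(sigma.prod sigma) := by
    simp only [hf]
    rw [lintegral_lintegral_swap]
    exact hjoint.aemeasurable
  rw [hswap]
  have hin : ∀ p : E3 × E3, ∫⁻ τ in Ioc 0 d,
      {p : E3 × E3 | gl d τ m p.1 ≠ gl d τ m p.2}.indicator w p ≤
      2 * (ENNReal.ofReal ‖p.1 - p.2‖ * w p) := by
    intro p
    have h1 : ∀ τ, {p : E3 × E3 | gl d τ m p.1 ≠ gl d τ m p.2}.indicator w p =
        {τ | gl d τ m p.1 ≠ gl d τ m p.2}.indicator (fun _ => w p) τ := by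
      intro τ
      by_cases h : gl d τ m p.1 ≠ gl d τ m p.2
      · rw [indicator_of_mem (show p ∈ {p : E3 × E3 | gl d τ m p.1 ≠ gl d τ m p.2} from h),
          indicator_of_mem (show τ ∈ {τ | gl d τ m p.1 ≠ gl d τ m p.2} from h)]
      · rw [indicator_of_notMem (show p ∉ {p : E3 × E3 | gl d τ m p.1 ≠ gl d τ m p.2} from h),
          indicator_of_notMem (show τ ∉ {τ | gl d τ m p.1 ≠ gl d τ m p.2} from h)]
    simp_rw [h1]
    have hm : MeasurableSet {τ | gl d τ m p.1 ≠ gl d τ m p.2} := by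
      have : Measurable fun τ : ℝ => ((τ, p) : ℝ × E3 × E3) := measurable_id.prodMk measurable_const
      exact this hset
    rw [lintegral_indicator_const hm, Measure.restrict_apply hm]
    have h2 := volume_gl_ne_le hd m p.1 p.2
    calc w p * volume ({τ | gl d τ m p.1 ≠ gl d τ m p.2} ∩ Ioc 0 d)
        ≤ w p * ENNReal.ofReal (2 * ‖p.1 - p.2‖) := by gcongr
      _ = _ := by
        rw [ENNReal.ofReal_mul (by norm_num)]
        simp
        ring
  calc (ENNReal.ofReal d)⁻¹ • ∫⁻ p, (∫⁻ τ in Ioc 0 d,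
      {p : E3 × E3 | gl d τ m p.1 ≠ gl d τ m p.2}.indicator w p) ∂(sigma.prod sigma)
      ≤ (ENNReal.ofReal d)⁻¹ • ∫⁻ p, 2 * (ENNReal.ofReal ‖p.1 - p.2‖ * w p)
          ∂(sigma.prod sigma) := by
        gcongr with p
        exact hin p
    _ = _ := by
        rw [lintegral_const_mul _ (by fun_prop), smul_eq_mul, ← mul_assoc]
        congr 1
        rw [← ENNReal.ofReal_inv_of_pos hd, div_eq_mul_inv, ENNReal.ofReal_mul (by norm_num)]
        simp [mul_comm]

end Pool.Agent.Lib.MP_b06be4_an.Lim
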