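import Mathlib

/-!
# MP_b06be4_an, existence of the limit: the uniform measure on the sphere

`sigma` is the uniform probability measure on the unit sphere of `ℝ³` (a measure on `ℝ³`),
`lam` is the inverse of the Lambert equal-area projection.
-/

open MeasureTheory Set Filter Metric
open scoped ENNReal NNReal Topology

namespace Pool.Agent.Lib.MP_b06be4_an.Lim

abbrev E3 : Type := EuclideanSpace ℝ (Fin 3)
abbrev E2 : Type := EuclideanSpace ℝ (Fin 2)

/-- The north pole. -/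
noncomputable def e3 : E3 := !₂[0, 0, 1]

theorem norm_e3 : ‖e3‖ = 1 := by
  simp [e3, EuclideanSpace.norm_eq, Fin.sum_univ_three]

/-- Inverse of the Lambert projection about the north pole. -/
noncomputable def lam (l : E2) : E3 :=
  !₂[Real.sqrt (1 - ‖l‖ ^ 2 / 4) * l 0, Real.sqrt (1 - ‖l‖ ^ 2 / 4) * l 1, 1 - ‖l‖ ^ 2 / 2]

/-- normalization -/
noncomputable def nrm (x : E3) : E3 := ‖x‖⁻¹ • x

theorem norm_nrm {x : E3} (hx : x ≠ 0) : ‖nrm x‖ = 1 := by
  rw [nrm, norm_smul, norm_inv, norm_norm, inv_mul_cancel₀ (norm_ne_zero_iff.2 hx)]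

theorem measurable_nrm : Measurable nrm := by
  unfold nrm
  fun_prop

theorem measurable_lam : Measurable lam := by
  unfold lam
  fun_prop

theorem norm_sq_E2 (l : E2) : ‖l‖ ^ 2 = l 0 ^ 2 + l 1 ^ 2 := by
  rw [EuclideanSpace.norm_sq_eq, Fin.sum_univ_two]
  simp

theorem norm_sq_E3 (x : E3) : ‖x‖ ^ 2 = x 0 ^ 2 + x 1 ^ 2 + x 2 ^ 2 := by
  rw [EuclideanSpace.norm_sq_eq, Fin.sum_univ_three]
  simp

theorem lam_zero (l : E2) : lam l 0 = Real.sqrt (1 - ‖l‖ ^ 2 / 4) * l 0 := rfl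
theorem lam_one (l : E2) : lam l 1 = Real.sqrt (1 - ‖l‖ ^ 2 / 4) * l 1 := rfl
theorem lam_two (l : E2) : lam l 2 = 1 - ‖l‖ ^ 2 / 2 := rfl

theorem norm_lam {l : E2} (hl : ‖l‖ ≤ 2) : ‖lam l‖ = 1 := by
  have h0 : 0 ≤ 1 - ‖l‖ ^ 2 / 4 := by nlinarith [norm_nonneg l]
  have h1 : ‖lam l‖ ^ 2 = 1 := by
    rw [norm_sq_E3, lam_zero, lam_one, lam_two, mul_pow, mul_pow, Real.sq_sqrt h0]
    have := norm_sq_E2 l
    linear_combination (1 - ‖l‖ ^ 2 / 4) * (-this)
  have h2 := norm_nonneg (lam l)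
  nlinarith

theorem norm_lam_sub_e3 {l : E2} (hl : ‖l‖ ≤ 2) : ‖lam l - e3‖ = ‖l‖ := by
  have h0 : 0 ≤ 1 - ‖l‖ ^ 2 / 4 := by nlinarith [norm_nonneg l]
  have h1 : ‖lam l - e3‖ ^ 2 = ‖l‖ ^ 2 := by
    rw [norm_sq_E3]
    have e0 : (lam l - e3) 0 = Real.sqrt (1 - ‖l‖ ^ 2 / 4) * l 0 := by
      simp [lam_zero, e3]
    have e1 : (lam l - e3) 1 = Real.sqrt (1 - ‖l‖ ^ 2 / 4) * l 1 := by
      simp [lam_one, e3]
    have e2 : (lam l - e3) 2 = - (‖l‖ ^ 2 / 2) := by
      simp [lam_two, e3]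
    rw [e0, e1, e2, mul_pow, mul_pow, Real.sq_sqrt h0]
    have := norm_sq_E2 l
    linear_combination (1 - ‖l‖ ^ 2 / 4) * (-this)
  have h2 := norm_nonneg (lam l - e3)
  have h3 := norm_nonneg l
  exact (pow_left_inj₀ h2 h3 two_ne_zero).1 h1

/-- The uniform probability measure on the unit sphere, as a measure on `ℝ³`. -/
noncomputable def sigma : Measure E3 :=
  (ENNReal.ofReal (4 * Real.pi / 3))⁻¹ • (volume.restrict (ball (0 : E3) 1)).map nrm

theorem vol_ball : volume (ball (0 : E3) 1) = ENNReal.ofReal (4 * Real.pi / 3) := by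
  rw [EuclideanSpace.volume_ball_fin_three]
  simp
  ring_nf

instance : IsProbabilityMeasure sigma := by
  refine ⟨?_⟩
  rw [sigma, Measure.smul_apply, Measure.map_apply measurable_nrm MeasurableSet.univ,
    preimage_univ, Measure.restrict_apply_univ, vol_ball, smul_eq_mul]
  apply ENNReal.inv_mul_cancel
  · simp [Real.pi_pos]
  · simp

/-- `sigma` is rotation invariant. -/
theorem measurePreserving_isometry (U : E3 ≃ₗᵢ[ℝ] E3) : MeasurePreserving U sigma sigma := by
  refine ⟨U.continuous.measurable, ?_⟩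
  have h1 : (volume.restrict (ball (0 : E3) 1)).map U = volume.restrict (ball (0 : E3) 1) := by
    have h2 := (U.measurePreserving).restrict_preimage (s := ball (0 : E3) 1) measurableSet_ball
    have h3 : U ⁻¹' ball (0 : E3) 1 = ball 0 1 := by
      ext x
      simp
    rw [h3] at h2
    exact h2.map_eq
  rw [sigma, Measure.map_smul, Measure.map_map U.continuous.measurable measurable_nrm]
  have h4 : U ∘ nrm = nrm ∘ U := by
    ext1 x
    simp [nrm]
  rw [h4, ← Measure.map_map measurable_nrm U.continuous.measurable, h1]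

end Pool.Agent.Lib.MP_b06be4_an.Lim
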