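import Pool.Agent.Lib.MP_b06be4_an.Lim.PosDef

/-!
# MP_b06be4_an, existence of the limit: the inequality for a given configuration
-/

open MeasureTheory Set Filter Metric
open scoped ENNReal NNReal Topology InnerProductSpace

namespace Pool.Agent.Lib.MP_b06be4_an.Lim

/-- The mean of `(1 - t ^ k) / r ^ 2` over the sphere. -/
noncomputable def JJ (k : ℕ) : ℝ := (1 / 2) * ∑ j ∈ Finset.range k, (1 - (1 / 2 : ℝ) ^ (j + 1)) / (j + 1)

/-- integrals over the sphere of real radial functions -/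
theorem lintegral_radial_ofReal {f : ℝ → ℝ} (hf : Measurable f)
    (hf0 : ∀ r ∈ Ioo (0 : ℝ) 2, 0 ≤ f r) (hfi : IntervalIntegrable (fun r => r / 2 * f r) volume 0 2)
    {p : E3} (hp : ‖p‖ = 1) :
    ∫⁻ x, ENNReal.ofReal (f ‖p - x‖) ∂sigma = ENNReal.ofReal (∫ r in (0 : ℝ)..2, r / 2 * f r) := by
  have h1 : ∫⁻ x, ENNReal.ofReal (f ‖p - x‖) ∂sigma = ∫⁻ x, ENNReal.ofReal (f ‖x - p‖) ∂sigma := by
    refine lintegral_congr fun x => ?_
    rw [norm_sub_rev]
  rw [h1, lintegral_sigma_radial (f := fun r => ENNReal.ofReal (f r)) (by fun_prop) hp]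
  have h2 : ∫⁻ r in Ioo (0 : ℝ) 2, ENNReal.ofReal (r / 2) * ENNReal.ofReal (f r) =
      ∫⁻ r in Ioo (0 : ℝ) 2, ENNReal.ofReal (r / 2 * f r) := by
    refine setLIntegral_congr_fun measurableSet_Ioo fun r hr => ?_
    rw [ENNReal.ofReal_mul (by linarith [hr.1])]
  rw [h2, ← ofReal_integral_eq_lintegral_ofReal]
  · rw [← integral_Ioc_eq_integral_Ioo, ← intervalIntegral.integral_of_le (by norm_num)]
  · rw [intervalIntegrable_iff_integrableOn_Ioo_of_le (by norm_num)] at hfi
    exact hfi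
  · rw [EventuallyLE, ae_restrict_iff' measurableSet_Ioo]
    refine Eventually.of_forall fun s hs => ?_
    have := hf0 s hs
    have := hs.1
    simp only [Pi.zero_apply]
    positivity

/-- the mean of `t ^ j` times the regularized Coulomb kernel -/
noncomputable def kap (j : ℕ) (η : ℝ) : ℝ :=
  ∫ r in (0 : ℝ)..2, r / 2 * ((1 - r / 4) ^ j * (Real.sqrt (r ^ 2 + η ^ 2))⁻¹)

theorem continuous_invsqrt {η : ℝ} (hη : 0 < η) :
    Continuous fun r : ℝ => (Real.sqrt (r ^ 2 + η ^ 2))⁻¹ := by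
  apply Continuous.inv₀ (by fun_prop)
  intro r
  exact (Real.sqrt_pos.2 (by positivity)).ne'

theorem lintegral_kernel (j : ℕ) {η : ℝ} (hη : 0 < η) {p : E3} (hp : ‖p‖ = 1) :
    ∫⁻ y, ENNReal.ofReal (tt p y ^ j * coul η p y) ∂sigma = ENNReal.ofReal (kap j η) := by
  have hc := continuous_invsqrt hη
  refine lintegral_radial_ofReal (f := fun r => (1 - r / 4) ^ j * (Real.sqrt (r ^ 2 + η ^ 2))⁻¹)
    (by fun_prop) (fun r hr => ?_) ?_ hp
  · have : 0 ≤ 1 - r / 4 := by linarith [hr.2]
    positivity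
  · apply Continuous.intervalIntegrable
    fun_prop

theorem integral_pow_one_sub (j : ℕ) :
    ∫ r in (0 : ℝ)..2, (1 - r / 4) ^ j = 4 * (1 - (1 / 2 : ℝ) ^ (j + 1)) / (j + 1) := by
  have hj : (j : ℝ) + 1 ≠ 0 := by positivity
  rw [intervalIntegral.integral_eq_sub_of_hasDerivAt
    (f := fun r => -(4 / ((j : ℝ) + 1)) * (1 - r / 4) ^ (j + 1))]
  · norm_num
    field_simp
    ring
  · intro x _
    have h1 : HasDerivAt (fun r : ℝ => 1 - r / 4) (-(1 / 4)) x :=
      ((hasDerivAt_id x).div_const 4).const_sub 1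
    have h2 := (h1.pow (j + 1)).const_mul (-(4 / ((j : ℝ) + 1)))
    refine h2.congr_deriv ?_
    push_cast
    field_simp
  · apply Continuous.intervalIntegrable
    fun_prop

theorem kap_ge (j : ℕ) {η : ℝ} (hη : 0 < η) :
    2 * (1 - (1 / 2 : ℝ) ^ (j + 1)) / (j + 1) - η / 2 ≤ kap j η := by
  have hc := continuous_invsqrt hη
  have h1 : ∫ r in (0 : ℝ)..2, r * (Real.sqrt (r ^ 2 + η ^ 2))⁻¹ = Real.sqrt (4 + η ^ 2) - η := by
    rw [intervalIntegral.integral_eq_sub_of_hasDerivAt
      (f := fun r => Real.sqrt (r ^ 2 + η ^ 2))]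
    · norm_num
      rw [Real.sqrt_sq hη.le]
    · intro x _
      have hx : x ^ 2 + η ^ 2 ≠ 0 := by positivity
      have h2 := ((hasDerivAt_pow 2 x).add_const (η ^ 2)).sqrt hx
      refine h2.congr_deriv ?_
      have : Real.sqrt (x ^ 2 + η ^ 2) ≠ 0 := (Real.sqrt_pos.2 (by positivity)).ne'
      field_simp
      norm_num
    · apply Continuous.intervalIntegrable
      fun_prop
  have h2 : ∫ r in (0 : ℝ)..2, ((1 - r / 4) ^ j / 2 - (1 - r * (Real.sqrt (r ^ 2 + η ^ 2))⁻¹) / 2) ≤
      kap j η := by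
    apply intervalIntegral.integral_mono_on (by norm_num)
    · apply Continuous.intervalIntegrable
      fun_prop
    · apply Continuous.intervalIntegrable
      fun_prop
    · intro r hr
      have hq : r * (Real.sqrt (r ^ 2 + η ^ 2))⁻¹ ≤ 1 := by
        have h3 : r ≤ Real.sqrt (r ^ 2 + η ^ 2) := by
          apply Real.le_sqrt_of_sq_le
          nlinarith [sq_nonneg η]
        have h4 : 0 < Real.sqrt (r ^ 2 + η ^ 2) := Real.sqrt_pos.2 (by positivity)
        rw [← div_eq_mul_inv, div_le_one h4]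
        exact h3
      have ht0 : 0 ≤ (1 - r / 4) ^ j := by
        have : 0 ≤ 1 - r / 4 := by linarith [hr.2]
        positivity
      have ht1 : (1 - r / 4) ^ j ≤ 1 := by
        apply pow_le_one₀
        · linarith [hr.2]
        · linarith [hr.1]
      nlinarith [mul_nonneg (sub_nonneg.2 hq) (sub_nonneg.2 ht1)]
  refine le_trans ?_ h2
  rw [intervalIntegral.integral_sub, intervalIntegral.integral_div,
    intervalIntegral.integral_div, integral_pow_one_sub, intervalIntegral.integral_sub, h1]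
  · have h3 : 2 ≤ Real.sqrt (4 + η ^ 2) := by
      apply Real.le_sqrt_of_sq_le
      nlinarith [sq_nonneg η]
    have h4 : 2 * (1 - (1 / 2 : ℝ) ^ (j + 1)) / (j + 1) =
      4 * (1 - (1 / 2 : ℝ) ^ (j + 1)) / (j + 1) / 2 := by ring
    rw [h4, intervalIntegral.integral_const]
    norm_num
    linarith
  · simp
  · apply Continuous.intervalIntegrable
    fun_prop
  · apply Continuous.intervalIntegrable
    fun_prop
  · apply Continuous.intervalIntegrable
    fun_prop

/-- Comparison of the energy of a configuration for a positive definite kernel with the mean. -/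
theorem sum_kernel_ge (j : ℕ) {η : ℝ} (hη : 0 < η) {M : ℕ} (x : Fin M → E3) (hx : ∀ i, ‖x i‖ = 1) :
    (M : ℝ) ^ 2 * kap j η ≤ ∑ a, ∑ b, tt (x a) (x b) ^ j * coul η (x a) (x b) := by
  set k : ℝ → ℝ := fun r => (1 - r / 4) ^ j * (Real.sqrt (r ^ 2 + η ^ 2))⁻¹ with hk
  have hPD : PD (fun x y => k ‖x - y‖) := (PD.coul hη).mul_tt_pow j
  have hk0 : ∀ x y : E3, ‖x‖ = 1 → ‖y‖ = 1 → 0 ≤ k ‖x - y‖ := by
    intro x y hx hy
    have h1 : 0 ≤ 1 - ‖x - y‖ / 4 := by
      have := (tt_mem hx hy).1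
      rw [tt] at this
      linarith
    simp only [hk]
    positivity
  have h1 : ENNReal.ofReal ((M : ℝ) ^ 2 * kap j η) ≤
      ENNReal.ofReal (∑ a, ∑ b, k ‖x a - x b‖) := by
    calc ENNReal.ofReal ((M : ℝ) ^ 2 * kap j η)
        = ∑ a : Fin M, ∑ b : Fin M, ENNReal.ofReal (kap j η) := by
          simp only [Finset.sum_const, Finset.card_univ, Fintype.card_fin, nsmul_eq_mul]
          rw [ENNReal.ofReal_mul (by positivity), ENNReal.ofReal_pow (by positivity),
            ENNReal.ofReal_natCast]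
          ring
      _ = ∑ a, ∑ b, ∫⁻ v, ENNReal.ofReal (k ‖x a - gg v (x b)‖) ∂muT := by
          refine Finset.sum_congr rfl fun a _ => Finset.sum_congr rfl fun b _ => ?_
          have hF : Measurable fun y : E3 => ENNReal.ofReal (k ‖x a - y‖) := by
            have := continuous_invsqrt hη
            simp only [hk]
            fun_prop
          rw [lintegral_gg hF (hx b)]
          exact (lintegral_kernel j hη (hx a)).symm
      _ = ∫⁻ v, ∑ a, ∑ b, ENNReal.ofReal (k ‖x a - gg v (x b)‖) ∂muT := by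
          have hm : ∀ a b, Measurable fun v => ENNReal.ofReal (k ‖x a - gg v (x b)‖) := by
            intro a b
            have := continuous_invsqrt hη
            have := measurable_gg_left (x b)
            simp only [hk]
            fun_prop
          rw [lintegral_finsetSum _ fun a _ => Finset.measurable_sum _ fun b _ => hm a b]
          refine Finset.sum_congr rfl fun a _ => ?_
          rw [lintegral_finsetSum _ fun b _ => hm a b]
      _ ≤ ∫⁻ _, ENNReal.ofReal (∑ a, ∑ b, k ‖x a - x b‖) ∂muT := by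
          apply lintegral_mono_ae
          filter_upwards [ae_good] with v hv
          obtain ⟨V, hV⟩ := exists_of_good hv
          simp_rw [hV]
          have h2 := hPD.rotate x hx V
          refine le_trans (le_of_eq ?_) (ENNReal.ofReal_le_ofReal h2)
          have hV1 : ∀ b, ‖V (x b)‖ = 1 := fun b => by simpa using hx b
          rw [ENNReal.ofReal_sum_of_nonneg fun a _ => Finset.sum_nonneg fun b _ =>
            hk0 _ _ (hx a) (hV1 b)]
          refine Finset.sum_congr rfl fun a _ => ?_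
          rw [ENNReal.ofReal_sum_of_nonneg fun b _ => hk0 _ _ (hx a) (hV1 b)]
      _ = _ := by simp
  have h3 : 0 ≤ ∑ a, ∑ b, k ‖x a - x b‖ :=
    Finset.sum_nonneg fun a _ => Finset.sum_nonneg fun b _ => hk0 _ _ (hx a) (hx b)
  exact (ENNReal.ofReal_le_ofReal_iff h3).1 h1

theorem JJ_eq (k : ℕ) : JJ k = (1 / 4) * ∑ j ∈ Finset.range k,
    2 * (1 - (1 / 2 : ℝ) ^ (j + 1)) / (j + 1) := by
  rw [JJ, Finset.mul_sum, Finset.mul_sum]
  refine Finset.sum_congr rfl fun j _ => ?_
  ring

/-- **Source inequality.** -/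
theorem source (k : ℕ) {η : ℝ} (hη : 0 < η) {M : ℕ} (x : Fin M → E3) (hx : ∀ i, ‖x i‖ = 1)
    (hinj : Function.Injective x) :
    (M : ℝ) ^ 2 * JJ k - k / 4 * ((M : ℝ) ^ 2 * (η / 2) + M / η) ≤
      ∑ a, ∑ b, if a = b then (0 : ℝ) else (1 - tt (x a) (x b) ^ k) / ‖x a - x b‖ ^ 2 := by
  have h1 : ∀ a b, (∑ j ∈ Finset.range k, (1 / 4) * (tt (x a) (x b) ^ j * coul η (x a) (x b))) -
      (if a = b then k / (4 * η) else 0) ≤
      if a = b then (0 : ℝ) else (1 - tt (x a) (x b) ^ k) / ‖x a - x b‖ ^ 2 := by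
    intro a b
    by_cases hab : a = b
    · subst hab
      simp only [if_true]
      have h2 : tt (x a) (x a) = 1 := by simp [tt]
      have h3 : coul η (x a) (x a) = η⁻¹ := by
        simp [coul, Real.sqrt_sq hη.le]
      rw [h2, h3]
      simp
      apply le_of_eq
      field_simp
    · simp only [hab, if_false, sub_zero]
      set r : ℝ := ‖x a - x b‖ with hr
      have hr0 : 0 < r := by
        rw [hr, norm_pos_iff, sub_ne_zero]
        exact fun h => hab (hinj h)
      have ht : tt (x a) (x b) = 1 - r / 4 := rfl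
      have ht0 : 0 ≤ tt (x a) (x b) := by linarith [(tt_mem (hx a) (hx b)).1]
      have h4 : (1 - tt (x a) (x b) ^ k) / r ^ 2 =
          ∑ j ∈ Finset.range k, (1 / 4) * (tt (x a) (x b) ^ j * r⁻¹) := by
        have h5 := mul_neg_geom_sum (tt (x a) (x b)) k
        rw [← h5, ht]
        rw [← Finset.mul_sum, ← Finset.sum_mul]
        field_simp
        ring
      rw [h4]
      apply Finset.sum_le_sum
      intro j _
      have h6 : coul η (x a) (x b) ≤ r⁻¹ := by
        rw [coul]
        apply inv_anti₀ hr0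
        apply Real.le_sqrt_of_sq_le
        nlinarith [sq_nonneg η]
      gcongr
  have h2 : ∑ a, ∑ b, ((∑ j ∈ Finset.range k, (1 / 4) * (tt (x a) (x b) ^ j * coul η (x a) (x b))) -
      (if a = b then (k : ℝ) / (4 * η) else 0)) =
      ∑ j ∈ Finset.range k, (1 / 4) * ∑ a, ∑ b, tt (x a) (x b) ^ j * coul η (x a) (x b) -
        M * (k / (4 * η)) := by
    simp only [Finset.sum_sub_distrib, Finset.sum_ite_eq, Finset.mem_univ, if_true,
      Finset.sum_const, Finset.card_univ, Fintype.card_fin, nsmul_eq_mul]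
    congr 1
    simp only [Finset.mul_sum]
    refine (Finset.sum_congr rfl fun a _ => Finset.sum_comm).trans ?_
    rw [Finset.sum_comm]
  have h3 : ∑ j ∈ Finset.range k, (1 / 4) * ((M : ℝ) ^ 2 *
      (2 * (1 - (1 / 2 : ℝ) ^ (j + 1)) / (j + 1) - η / 2)) ≤
      ∑ j ∈ Finset.range k, (1 / 4) * ∑ a, ∑ b, tt (x a) (x b) ^ j * coul η (x a) (x b) := by
    apply Finset.sum_le_sum
    intro j _
    have h4 := kap_ge j hη
    have h5 := sum_kernel_ge j hη x hx
    have h6 : (M : ℝ) ^ 2 * (2 * (1 - (1 / 2 : ℝ) ^ (j + 1)) / (j + 1) - η / 2) ≤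
      (M : ℝ) ^ 2 * kap j η := by gcongr
    linarith
  have h4 : ∑ j ∈ Finset.range k, (1 / 4) * ((M : ℝ) ^ 2 *
      (2 * (1 - (1 / 2 : ℝ) ^ (j + 1)) / (j + 1) - η / 2)) =
      (M : ℝ) ^ 2 * JJ k - k / 4 * ((M : ℝ) ^ 2 * (η / 2)) := by
    rw [JJ_eq]
    simp only [mul_sub, Finset.sum_sub_distrib, Finset.sum_const, Finset.card_range, nsmul_eq_mul]
    rw [Finset.mul_sum, Finset.mul_sum]
    congr 1
    · refine Finset.sum_congr rfl fun j _ => ?_
      ring
    · ring
  calc (M : ℝ) ^ 2 * JJ k - k / 4 * ((M : ℝ) ^ 2 * (η / 2) + M / η)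
      = ((M : ℝ) ^ 2 * JJ k - k / 4 * ((M : ℝ) ^ 2 * (η / 2))) - M * (k / (4 * η)) := by
        field_simp
        ring
    _ ≤ _ := by
        rw [← h4]
        exact sub_le_sub_right h3 _
    _ = _ := h2.symm
    _ ≤ _ := Finset.sum_le_sum fun a _ => Finset.sum_le_sum fun b _ => h1 a b

end Pool.Agent.Lib.MP_b06be4_an.Lim
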