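import Pool.Agent.Lib.MP_b06be4_an.Lim.Avg
import Pool.Agent.Lib.MP_b06be4_an.Lim.JInt
import Pool.Agent.Lib.MP_b06be4_an.Lim.Shift

/-!
# MP_b06be4_an, existence of the limit: the transfer inequality
-/

open MeasureTheory Set Filter Metric
open scoped ENNReal NNReal Topology InnerProductSpace

namespace Pool.Agent.Lib.MP_b06be4_an.Lim

section

variable {M : ℕ} (x : Fin M → E3) (a δ : ℝ) {ι : Type} (Lg : E3 → ι) (U : ι → E3 ≃ₗᵢ[ℝ] E3)
  {K : ℕ} [MeasurableSpace ι] [MeasurableSingletonClass ι]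

theorem measurable_ok_LL (hL : Measurable Lg) (s : ι × (Fin K → Bool)) (i j : Fin M) :
    Measurable fun π : Fin K → Pl => muT (ok x a δ (LL Lg π) (fun s => U s.1) s i ∩
      ok x a δ (LL Lg π) (fun s => U s.1) s j) := by
  obtain ⟨l, σ⟩ := s
  have hmi := measurableSet_ok x a δ Lg U hL l i
  have hmj := measurableSet_ok x a δ Lg U hL l j
  have hJm : MeasurableSet (({q : (Fin K → Pl) × Tri | q.2 ∈ ok x a δ Lg U l i} ∩
      {q | sd q.1 (pt x a U l i q.2) = σ}) ∩ ({q : (Fin K → Pl) × Tri | q.2 ∈ ok x a δ Lg U l j} ∩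
      {q | sd q.1 (pt x a U l j q.2) = σ})) := by
    apply MeasurableSet.inter
    · apply MeasurableSet.inter
      · exact measurable_snd hmi
      · exact measurable_sd_comp (measurable_pt x a U l i) (measurableSet_singleton σ)
    · apply MeasurableSet.inter
      · exact measurable_snd hmj
      · exact measurable_sd_comp (measurable_pt x a U l j) (measurableSet_singleton σ)
  have h1 := measurable_measure_prodMk_left (ν := muT) hJm
  have h2 : (fun π : Fin K → Pl => muT (ok x a δ (LL Lg π) (fun s => U s.1) (l, σ) i ∩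
      ok x a δ (LL Lg π) (fun s => U s.1) (l, σ) j)) = fun π => muT (Prod.mk π ⁻¹'
      (({q : (Fin K → Pl) × Tri | q.2 ∈ ok x a δ Lg U l i} ∩
      {q | sd q.1 (pt x a U l i q.2) = σ}) ∩ ({q : (Fin K → Pl) × Tri | q.2 ∈ ok x a δ Lg U l j} ∩
      {q | sd q.1 (pt x a U l j q.2) = σ}))) := by
    funext π
    rw [ok_LL, ok_LL]
    rfl
  rw [h2]
  exact h1

end

theorem transfer_config {M N : ℕ} (hM : 1 ≤ M) (hN : 2 ≤ N) {N₁ : ℝ} (hN₁ : (N : ℝ) < N₁)
    (hMN : (M : ℝ) ≤ N₁) {δ : ℝ} (hδ0 : 0 < δ) (hδ1 : δ ≤ 1 / 2) {k K : ℕ}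
    (hK : k * (1 + δ) ≤ K * (Real.sqrt (1 - 2 * δ ^ 2) * Real.sqrt (M / N₁)))
    {x : Fin M → E3} (hx : ∀ i, ‖x i‖ = 1) (hinj : Function.Injective x) :
    emin N / (N * (N - 1)) * (N₁ ^ 2 - N₁ - (N : ℝ) ^ 2 / (N₁ - N) ^ 2 * (M * N₁)) ≤
      (∑ i, ∑ j, if i = j then (0 : ℝ) else ((1 - 2 * δ ^ 2) * (M / N₁))⁻¹ *
        (1 / ‖x i - x j‖ ^ 2) * (tt (x i) (x j) ^ k * (M / N₁)⁻¹)) +
      N₁ ^ 2 * (JJ K + 2 / (Real.sqrt (M / N₁) * δ / 2) * (2 / (K + 1))) := by
  have hM0 : (0 : ℝ) < M := by exact_mod_cast hM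
  have hN₁0 : 0 < N₁ := lt_of_lt_of_le hM0 hMN
  set a : ℝ := Real.sqrt (M / N₁) with ha
  have hq0 : 0 < (M : ℝ) / N₁ := by positivity
  have ha0 : 0 < a := Real.sqrt_pos.2 hq0
  have ha2 : a ^ 2 = M / N₁ := Real.sq_sqrt hq0.le
  have ha1 : a ≤ 1 := by
    rw [ha, Real.sqrt_le_left zero_le_one, one_pow, div_le_one hN₁0]
    exact hMN
  have hN₁' : N₁ = M * (a ^ 2)⁻¹ := by
    rw [ha2]
    field_simp
  set d : ℝ := a * δ / 2 with hd
  have hd0 : 0 < d := by positivity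
  obtain ⟨m, hm⟩ := exists_nat_gt ((2 + d) / d)
  have ht : Measurable fun p : E3 × E3 => tt p.1 p.2 := by
    unfold tt
    fun_prop
  have hw : Measurable fun p : E3 × E3 => ENNReal.ofReal (tt p.1 p.2 ^ K) * WW p.1 p.2 :=
    (ENNReal.measurable_ofReal.comp (ht.pow_const K)).mul measurable_WW
  obtain ⟨τ, hτ, hshift⟩ := exists_shift hd0 m hw
  set Lg : E3 → (Fin 3 → Fin (m + 1)) := gl d τ m with hLg
  have hL : Measurable Lg := by
    have := (measurable_gl m d).comp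
      (measurable_const.prodMk measurable_id : Measurable fun y : E3 => (τ, y))
    exact this
  -- the isometries
  have hUex : ∀ l : Fin 3 → Fin (m + 1), ∃ V : E3 ≃ₗᵢ[ℝ] E3,
      ∀ y, ‖y‖ = 1 → Lg y = l → ‖y - V e3‖ < a * δ := by
    intro l
    by_cases h : ∃ y, ‖y‖ = 1 ∧ Lg y = l
    · obtain ⟨y0, hy0, hl0⟩ := h
      obtain ⟨V, hV⟩ := exists_isometry (x := e3) (y := y0) (by rw [norm_e3, hy0])
      refine ⟨V, fun y hy hl => ?_⟩
      rw [hV]
      have h1 := norm_lt_of_gl_eq hd0 hτ hm hy hy0 (hl.trans hl0.symm)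
      have h2 : 2 * d = a * δ := by rw [hd]; ring
      rwa [h2] at h1
    · refine ⟨LinearIsometryEquiv.refl ℝ E3, fun y hy hl => ?_⟩
      exact absurd ⟨y, hy, hl⟩ h
  choose U hUl using hUex
  have hU : ∀ y, ‖y‖ = 1 → ‖y - U (Lg y) e3‖ < a * δ := fun y hy => hUl _ y hy rfl
  -- lower bound
  set LB : ℝ≥0∞ := ENNReal.ofReal (emin N / (N * (N - 1)) * (N₁ ^ 2 - N₁ -
      (N : ℝ) ^ 2 / (N₁ - N) ^ 2 * (M * N₁))) with hLB
  set S : (Fin K → Pl) → Fin M → Fin M → ℝ≥0∞ := fun π i j =>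
    ∑ s, muT (ok x a δ (LL Lg π) (fun s => U s.1) s i ∩
      ok x a δ (LL Lg π) (fun s => U s.1) s j) with hS
  set C : ℝ≥0∞ := ENNReal.ofReal (((1 - 2 * δ ^ 2) * a ^ 2)⁻¹) with hC
  set Q : (Fin K → Pl) → ℝ≥0∞ := fun π =>
    ∫⁻ p, {p : E3 × E3 | LL Lg π p.1 ≠ LL Lg π p.2}.indicator (fun p => WW p.1 p.2) p
          ∂(sigma.prod sigma) with hQ
  have hpi : ∀ π : Fin K → Pl, LB ≤ (∑ i, ∑ j, if i = j then 0 else C * WW (x i) (x j) * S π i j) +
      ENNReal.ofReal (N₁ ^ 2) * Q π := by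
    intro π
    have h1 := lintegral_En_ge x a δ (LL Lg π) (fun s => U s.1) hx hinj ha0 ha1 hδ0 hδ1
      (measurable_LL Lg hL π) (fun y hy => hU y hy) hN hN₁ hN₁'
    have h2 := lintegral_En_le x a δ (LL Lg π) (fun s => U s.1) hx hinj ha0 ha1 hδ0 hδ1
      (measurable_LL Lg hL π) (fun y hy => hU y hy)
    rw [← hN₁'] at h2
    exact h1.trans h2
  -- integration over the planes
  have hSm : ∀ i j, Measurable fun π => S π i j := by
    intro i j
    exact Finset.measurable_sum _ fun s _ => measurable_ok_LL x a δ Lg U hL s i j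
  have hterm : ∀ i j, Measurable fun π => if i = j then 0 else C * WW (x i) (x j) * S π i j := by
    intro i j
    split_ifs
    · exact measurable_const
    · exact (hSm i j).const_mul _
  have hsum : Measurable fun π => ∑ i, ∑ j, if i = j then 0 else C * WW (x i) (x j) * S π i j :=
    Finset.measurable_sum _ fun i _ => Finset.measurable_sum _ fun j _ => hterm i j
  have h3 : LB ≤ (∑ i, ∑ j, if i = j then 0 else C * WW (x i) (x j) *
      (ENNReal.ofReal (tt (x i) (x j) ^ k) * ENNReal.ofReal ((a ^ 2)⁻¹))) +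
      ENNReal.ofReal (N₁ ^ 2) * (ENNReal.ofReal (JJ K) +
        ENNReal.ofReal (2 / d) * ENNReal.ofReal (2 / (K + 1))) := by
    calc LB = ∫⁻ _, LB ∂(muPK K) := by simp
      _ ≤ ∫⁻ π, (∑ i, ∑ j, if i = j then 0 else C * WW (x i) (x j) * S π i j) +
          ENNReal.ofReal (N₁ ^ 2) * Q π ∂(muPK K) := lintegral_mono hpi
      _ = (∑ i, ∑ j, ∫⁻ π, (if i = j then 0 else C * WW (x i) (x j) * S π i j) ∂(muPK K)) +
          ENNReal.ofReal (N₁ ^ 2) * ∫⁻ π, Q π ∂(muPK K) := by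
          rw [lintegral_add_left hsum, lintegral_const_mul' _ _ ENNReal.ofReal_ne_top,
            lintegral_finsetSum _ fun i _ => Finset.measurable_sum _ fun j _ => hterm i j]
          congr 1
          refine Finset.sum_congr rfl fun i _ => ?_
          rw [lintegral_finsetSum _ fun j _ => hterm i j]
      _ ≤ _ := by
          apply add_le_add
          · apply Finset.sum_le_sum
            intro i _
            apply Finset.sum_le_sum
            intro j _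
            by_cases hij : i = j
            · simp [hij]
            · simp only [hij, if_false]
              rw [lintegral_const_mul _ (hSm i j)]
              apply mul_le_mul_right
              exact self_avg x a δ Lg U hx ha0 ha1 hδ0 hδ1 hL hU hK i j
          · apply mul_le_mul_right
            refine (cross_avg Lg hL).trans ?_
            rw [lintegral_one_sub_pow]
            apply add_le_add le_rfl
            refine hshift.trans ?_
            apply mul_le_mul_right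
            exact lintegral_mul_pow_le K
  -- conversion to real numbers
  have hc1 : 0 < 1 - 2 * δ ^ 2 := by nlinarith
  have hd2 : 0 ≤ 2 / d := by positivity
  have htt : ∀ i j, 0 ≤ tt (x i) (x j) := fun i j => by linarith [(tt_mem (hx i) (hx j)).1]
  have hnn : ∀ i j, 0 ≤ if i = j then (0 : ℝ) else ((1 - 2 * δ ^ 2) * (M / N₁))⁻¹ *
        (1 / ‖x i - x j‖ ^ 2) * (tt (x i) (x j) ^ k * (M / N₁)⁻¹) := by
    intro i j
    have := htt i j
    split_ifs
    · exact le_rfl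
    · positivity
  have hJ := JJ_nonneg K
  have h4 : (∑ i, ∑ j, if i = j then 0 else C * WW (x i) (x j) *
      (ENNReal.ofReal (tt (x i) (x j) ^ k) * ENNReal.ofReal ((a ^ 2)⁻¹))) +
      ENNReal.ofReal (N₁ ^ 2) * (ENNReal.ofReal (JJ K) +
        ENNReal.ofReal (2 / d) * ENNReal.ofReal (2 / (K + 1))) =
      ENNReal.ofReal ((∑ i, ∑ j, if i = j then (0 : ℝ) else ((1 - 2 * δ ^ 2) * (M / N₁))⁻¹ *
        (1 / ‖x i - x j‖ ^ 2) * (tt (x i) (x j) ^ k * (M / N₁)⁻¹)) +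
      N₁ ^ 2 * (JJ K + 2 / d * (2 / (K + 1)))) := by
    rw [ENNReal.ofReal_add (Finset.sum_nonneg fun i _ => Finset.sum_nonneg fun j _ => hnn i j)
      (by positivity)]
    congr 1
    · rw [ENNReal.ofReal_sum_of_nonneg fun i _ => Finset.sum_nonneg fun j _ => hnn i j]
      refine Finset.sum_congr rfl fun i _ => ?_
      rw [ENNReal.ofReal_sum_of_nonneg fun j _ => hnn i j]
      refine Finset.sum_congr rfl fun j _ => ?_
      by_cases hij : i = j
      · simp [hij]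
      · simp only [hij, if_false]
        have := htt i j
        rw [hC, WW, ha2, ← ENNReal.ofReal_mul (by positivity), ← ENNReal.ofReal_mul (by positivity),
          ← ENNReal.ofReal_mul (by positivity)]
    · rw [← ENNReal.ofReal_mul hd2, ← ENNReal.ofReal_add hJ (by positivity),
        ← ENNReal.ofReal_mul (by positivity)]
  rw [h4, hLB] at h3
  refine (ENNReal.ofReal_le_ofReal_iff ?_).1 h3
  have : 0 ≤ N₁ ^ 2 * (JJ K + 2 / d * (2 / (K + 1))) := by positivity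
  have := Finset.sum_nonneg fun i (_ : i ∈ Finset.univ) =>
    Finset.sum_nonneg fun j (_ : j ∈ Finset.univ) => hnn i j
  linarith

/-- There are configurations of any size. -/
theorem exists_config (M : ℕ) : ∃ x : Fin M → E3, Function.Injective x ∧ ∀ i, ‖x i‖ = 1 := by
  have hn : ∀ j : Fin M, ‖(!₂[((j : ℕ) : ℝ) / (M + 1), 0] : E2)‖ < 2 := by
    intro j
    have h1 := norm_sq_E2 (!₂[((j : ℕ) : ℝ) / (M + 1), 0] : E2)
    have h2 : ((j : ℕ) : ℝ) / (M + 1) < 1 := by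
      rw [div_lt_one (by positivity)]
      have : (j : ℕ) < M := j.2
      have : ((j : ℕ) : ℝ) < M := by exact_mod_cast this
      linarith
    have h3 : 0 ≤ ((j : ℕ) : ℝ) / (M + 1) := by positivity
    have h4 : ‖(!₂[((j : ℕ) : ℝ) / (M + 1), 0] : E2)‖ ^ 2 < 2 ^ 2 := by
      rw [h1]
      simp
      nlinarith
    exact lt_of_pow_lt_pow_left₀ 2 (by norm_num) h4
  refine ⟨fun j => lam (!₂[((j : ℕ) : ℝ) / (M + 1), 0] : E2), ?_, fun j => norm_lam (hn j).le⟩
  intro i j hij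
  have h1 := congrArg lamInv hij
  simp only at h1
  rw [lamInv_lam (hn i), lamInv_lam (hn j)] at h1
  have h2 := congrArg (fun v : E2 => v 0) h1
  simp at h2
  have hM : ((M : ℝ) + 1) ≠ 0 := by positivity
  rw [div_left_inj' hM] at h2
  exact Fin.ext (by exact_mod_cast h2)

/-- **Transfer inequality.** -/
theorem transfer {M N : ℕ} (hM : 1 ≤ M) (hN : 2 ≤ N) {N₁ : ℝ} (hN₁ : (N : ℝ) < N₁)
    (hMN : (M : ℝ) ≤ N₁) {δ η : ℝ} (hδ0 : 0 < δ) (hδ1 : δ ≤ 1 / 2) (hη : 0 < η) {k K : ℕ}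
    (hK : k * (1 + δ) ≤ K * (Real.sqrt (1 - 2 * δ ^ 2) * Real.sqrt (M / N₁))) :
    emin N / (N * (N - 1)) * (1 - 1 / N₁ - (N : ℝ) ^ 2 / (N₁ - N) ^ 2 * (M / N₁)) ≤
      (1 - 2 * δ ^ 2)⁻¹ * (emin M / M ^ 2 - JJ k + k / 4 * (η / 2 + 1 / (M * η))) +
      JJ K + 8 / (Real.sqrt (M / N₁) * δ * (K + 1)) := by
  have hM0 : (0 : ℝ) < M := by exact_mod_cast hM
  have hN₁0 : 0 < N₁ := lt_of_lt_of_le hM0 hMN
  have hc1 : 0 < 1 - 2 * δ ^ 2 := by nlinarith
  set a : ℝ := Real.sqrt (M / N₁) with ha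
  have hq0 : 0 < (M : ℝ) / N₁ := by positivity
  have ha0 : 0 < a := Real.sqrt_pos.2 hq0
  set AA : ℝ := emin N / (N * (N - 1)) with hAA
  set c : ℝ := (N : ℝ) ^ 2 / (N₁ - N) ^ 2 with hc
  -- inequality for a configuration
  have h1 : ∀ x : Fin M → E3, Function.Injective x → (∀ i, ‖x i‖ = 1) →
      AA * (1 - 1 / N₁ - c * (M / N₁)) ≤
      (1 - 2 * δ ^ 2)⁻¹ * (en x / M ^ 2 - JJ k + k / 4 * (η / 2 + 1 / (M * η))) +
      JJ K + 8 / (a * δ * (K + 1)) := by
    intro x hinj hx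
    have h2 := transfer_config hM hN hN₁ hMN hδ0 hδ1 hK hx hinj
    have h3 := source k hη x hx hinj
    have h4 : (∑ i, ∑ j, if i = j then (0 : ℝ) else ((1 - 2 * δ ^ 2) * (M / N₁))⁻¹ *
        (1 / ‖x i - x j‖ ^ 2) * (tt (x i) (x j) ^ k * (M / N₁)⁻¹)) =
        (1 - 2 * δ ^ 2)⁻¹ * (N₁ ^ 2 / M ^ 2) * (en x -
        ∑ a, ∑ b, if a = b then (0 : ℝ) else (1 - tt (x a) (x b) ^ k) / ‖x a - x b‖ ^ 2) := by
      rw [en, ← Finset.sum_sub_distrib, Finset.mul_sum]
      refine Finset.sum_congr rfl fun i _ => ?_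
      rw [← Finset.sum_sub_distrib, Finset.mul_sum]
      refine Finset.sum_congr rfl fun j _ => ?_
      by_cases hij : i = j
      · simp [hij]
      · simp only [hij, if_false]
        field_simp
        ring
    rw [h4] at h2
    have h5 : (1 - 2 * δ ^ 2)⁻¹ * (N₁ ^ 2 / M ^ 2) * (en x -
        ∑ a, ∑ b, if a = b then (0 : ℝ) else (1 - tt (x a) (x b) ^ k) / ‖x a - x b‖ ^ 2) ≤
        (1 - 2 * δ ^ 2)⁻¹ * (N₁ ^ 2 / M ^ 2) * (en x -
        ((M : ℝ) ^ 2 * JJ k - k / 4 * ((M : ℝ) ^ 2 * (η / 2) + M / η))) := by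
      apply mul_le_mul_of_nonneg_left _ (by positivity)
      linarith
    have h6 : AA * (N₁ ^ 2 - N₁ - c * (M * N₁)) ≤ N₁ ^ 2 * ((1 - 2 * δ ^ 2)⁻¹ *
        (en x / M ^ 2 - JJ k + k / 4 * (η / 2 + 1 / (M * η))) +
        JJ K + 8 / (a * δ * (K + 1))) := by
      refine (h2.trans (add_le_add_left h5 _)).trans (le_of_eq ?_)
      field_simp
      ring
    have h7 : AA * (1 - 1 / N₁ - c * (M / N₁)) =
        (AA * (N₁ ^ 2 - N₁ - c * (M * N₁))) / N₁ ^ 2 := by
      field_simp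
    rw [h7, div_le_iff₀ (by positivity), mul_comm]
    rw [mul_comm] at h6
    refine le_trans (le_of_eq ?_) (h6.trans (le_of_eq ?_))
    · ring
    · ring
  -- infimum over the configurations
  set F : ℝ := JJ K + 8 / (a * δ * (K + 1)) + (1 - 2 * δ ^ 2)⁻¹ * (- JJ k +
    k / 4 * (η / 2 + 1 / (M * η))) with hF
  have h2 : (AA * (1 - 1 / N₁ - c * (M / N₁)) - F) * ((1 - 2 * δ ^ 2) * M ^ 2) ≤ emin M := by
    apply le_csInf
    · obtain ⟨x, hinj, hx⟩ := exists_config M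
      exact ⟨_, x, hinj, hx, rfl⟩
    · rintro E ⟨x, hinj, hx, rfl⟩
      have h3 := h1 x hinj hx
      have h4 : AA * (1 - 1 / N₁ - c * (M / N₁)) - F ≤ (1 - 2 * δ ^ 2)⁻¹ * (en x / M ^ 2) := by
        rw [hF]
        linarith
      have h5 : (1 - 2 * δ ^ 2)⁻¹ * (en x / M ^ 2) * ((1 - 2 * δ ^ 2) * M ^ 2) = en x := by
        field_simp
      calc (AA * (1 - 1 / N₁ - c * (M / N₁)) - F) * ((1 - 2 * δ ^ 2) * M ^ 2)
          ≤ (1 - 2 * δ ^ 2)⁻¹ * (en x / M ^ 2) * ((1 - 2 * δ ^ 2) * M ^ 2) := by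
            apply mul_le_mul_of_nonneg_right h4 (by positivity)
        _ = en x := h5
  have h3 : AA * (1 - 1 / N₁ - c * (M / N₁)) - F ≤ (1 - 2 * δ ^ 2)⁻¹ * (emin M / M ^ 2) := by
    rw [← le_div_iff₀ (by positivity)] at h2
    refine h2.trans (le_of_eq ?_)
    field_simp
  rw [hF] at h3
  linarith

end Pool.Agent.Lib.MP_b06be4_an.Lim
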